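import Pool.Agent.SylowCM.Comb

/-!
# Translates of an integral function under a transitive group of permutations

If a group `Q` of permutations of a set with `l ^ k` elements, `l` prime, is transitive and the sum
of the values of an integral function `F` is prime to `l`, the translates of `F` span the space of
all functions, over every field of characteristic zero.
-/

set_option autoImplicit false

namespace Pool.Agent.CoprimeSig

open MulAction Pool.Agent.SylowCM

theorem span_translates {Ω : Type*} [Fintype Ω] (Q : Subgroup (Equiv.Perm Ω))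
    (htrans : ∀ x y : Ω, ∃ π ∈ Q, π x = y) {l k : ℕ} [hl : Fact l.Prime]
    (hcard : Fintype.card Ω = l ^ k) (F : Ω → ℤ) (hF : ¬ (l : ℤ) ∣ ∑ x, F x)
    (K : Type*) [Field K] [CharZero K] :
    Submodule.span K (Set.range fun (π : Q) (x : Ω) => ((F (π.1 x) : ℤ) : K)) = ⊤ := by
  classical
  have : Fintype Q := Fintype.ofFinite Q
  have hpt : IsPretransitive Q Ω := ⟨fun x y => by
    obtain ⟨π, hπ, h⟩ := htrans x y
    exact ⟨⟨π, hπ⟩, h⟩⟩
  have hne : Nonempty Ω := by
    rw [← Fintype.card_pos_iff, hcard]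
    exact pow_pos hl.1.pos k
  obtain ⟨x₀⟩ := hne
  -- injectivity modulo l
  let A : Matrix Q Ω ℤ := Matrix.of fun π x => F (π.1 x)
  let Al : Matrix Q Ω (ZMod l) := A.map (Int.castRingHom (ZMod l))
  have horb : orbit (⊤ : Subgroup Q) x₀ = Set.univ := by
    ext y
    constructor
    · intro _
      trivial
    · intro _
      obtain ⟨g, hg⟩ := MulAction.exists_smul_eq Q x₀ y
      exact ⟨⟨g, trivial⟩, hg⟩
  have hinj : ∀ v : Ω → ZMod l, Al.mulVec v = 0 → v = 0 := by
    intro v hv
    refine rel_eq_zero (G := Q) (X := Ω) (l := l) (k := k) (⊤ : Subgroup Q) x₀ ?_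
      (f := fun x => ((F x : ℤ) : ZMod l)) ?_ ?_ (v := v) ?_
    · rw [horb, Nat.card_coe_set_eq, Set.ncard_univ, Nat.card_eq_fintype_card, hcard]
    · intro x hx
      exact absurd (by rw [horb]; trivial) hx
    · intro h0
      apply hF
      rw [← ZMod.intCast_zmod_eq_zero_iff_dvd]
      push_cast
      exact h0
    · intro g
      have h1 := congrFun hv g
      simp only [Matrix.mulVec, dotProduct, Pi.zero_apply] at h1
      rw [← h1]
      refine Finset.sum_congr rfl fun x _ => ?_
      rw [mul_comm]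
      rfl
  obtain ⟨B, hB⟩ : ∃ B : Matrix Ω Q (ZMod l), B * Al = 1 := by
    obtain ⟨L, hL⟩ := LinearMap.exists_leftInverse_of_injective (Matrix.mulVecLin Al)
      (LinearMap.ker_eq_bot'.mpr fun v hv => hinj v hv)
    refine ⟨LinearMap.toMatrix' L, ?_⟩
    have h1 : LinearMap.toMatrix' (L ∘ₗ Al.mulVecLin) = 1 := by
      rw [hL, LinearMap.toMatrix'_id]
    rw [LinearMap.toMatrix'_comp] at h1
    rwa [show LinearMap.toMatrix' Al.mulVecLin = Al from LinearMap.toMatrix'_toLin' Al] at h1
  obtain ⟨B', hB'⟩ : ∃ B' : Matrix Ω Q ℤ, B'.map (Int.castRingHom (ZMod l)) = B := by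
    refine ⟨Matrix.of fun x π => (B x π).val, ?_⟩
    ext x π
    simp
  have hdet : (B' * A).det ≠ 0 := by
    intro h0
    have h1 : ((B' * A).map (Int.castRingHom (ZMod l))).det = 0 := by
      rw [← RingHom.mapMatrix_apply, ← RingHom.map_det, h0, map_zero]
    rw [Matrix.map_mul, hB', show A.map (Int.castRingHom (ZMod l)) = Al from rfl, hB,
      Matrix.det_one] at h1
    exact one_ne_zero h1
  let C : Matrix Ω Ω K := (B' * A).map (Int.castRingHom K)
  have hC : IsUnit C.det := by
    rw [isUnit_iff_ne_zero]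
    have h1 : C.det = (Int.castRingHom K) (B' * A).det := by
      rw [RingHom.map_det]
      rfl
    rw [h1]
    simpa using hdet
  rw [eq_top_iff]
  intro w _
  have h2 : w = Matrix.vecMul (Matrix.vecMul (Matrix.vecMul w C⁻¹)
      (B'.map (Int.castRingHom K))) (A.map (Int.castRingHom K)) := by
    rw [Matrix.vecMul_vecMul, ← Matrix.map_mul, Matrix.vecMul_vecMul, Matrix.nonsing_inv_mul C hC,
      Matrix.vecMul_one]
  rw [h2]
  set c := Matrix.vecMul (Matrix.vecMul w C⁻¹) (B'.map (Int.castRingHom K)) with hc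
  have h3 : Matrix.vecMul c (A.map (Int.castRingHom K)) =
      ∑ π : Q, c π • (fun x : Ω => ((F (π.1 x) : ℤ) : K)) := by
    funext x
    simp [Matrix.vecMul, dotProduct, A, Finset.sum_apply]
  rw [h3]
  exact Submodule.sum_mem _ fun π _ => Submodule.smul_mem _ _ (Submodule.subset_span ⟨π, rfl⟩)

/-- The Sylow argument over `K`. -/
theorem const_of_rel {K : Type*} [Field K] {Ω : Type*} [Fintype Ω] [DecidableEq Ω] [CharZero K]
    (F : Set (Finset Ω))
    (G : Set (Equiv.Perm Ω)) (hG : ∀ π ∈ G, ∀ B ∈ F, B.map π.toEmbedding ∈ F)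
    (htr : ∀ O : Set Ω, O.Nonempty → (∀ π ∈ G, ∀ A ∈ O, π A ∈ O) → O = Set.univ)
    {l k : ℕ} (hl : l.Prime) (hk : Fintype.card Ω = l ^ k) {B₀ : Finset Ω} (hB₀ : B₀ ∈ F)
    (ha : ¬ l ∣ B₀.card) (A : Ω) :
    ∃ m : F →₀ K, (∀ B : Ω, (m.sum fun C c => if B ∈ (C : Finset Ω) then c else 0) =
        if B = A then 1 else 0) ∧ (m.sum fun _ c => c) = 1 / (B₀.card : K) := by
  have : Fact l.Prime := ⟨hl⟩
  let Q : Subgroup (Equiv.Perm Ω) :=
    { carrier := {π | ∀ B : Finset Ω, B.map π.toEmbedding ∈ F ↔ B ∈ F}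
      one_mem' := by
        intro B
        have h1 : B.map (1 : Equiv.Perm Ω).toEmbedding = B := by
          ext x
          simp only [Finset.mem_map_equiv]
          exact Iff.rfl
        rw [h1]
      mul_mem' := by
        intro π ρ hπ hρ B
        have h1 : B.map (π * ρ).toEmbedding = (B.map ρ.toEmbedding).map π.toEmbedding := by
          rw [Finset.map_map]
          rfl
        rw [h1, hπ, hρ]
      inv_mem' := by
        intro π hπ B
        have h1 : (B.map (π⁻¹).toEmbedding).map π.toEmbedding = B := by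
          rw [Finset.map_map]
          ext x
          simp
        rw [← hπ, h1] }
  have hGQ : ∀ π ∈ G, π ∈ Q := by
    intro π hπ B
    refine ⟨fun h => ?_, hG π hπ B⟩
    let f : F → F := fun B => ⟨(B : Finset Ω).map π.toEmbedding, hG π hπ B B.2⟩
    have hinj : Function.Injective f := fun B C h =>
      Subtype.ext (Finset.map_injective _ (congrArg Subtype.val h))
    obtain ⟨C, hCB⟩ := (Finite.injective_iff_surjective.mp hinj) ⟨_, h⟩
    have h2 : (C : Finset Ω) = B := Finset.map_injective _ (congrArg Subtype.val hCB)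
    rw [← h2]
    exact C.2
  have htrans : ∀ x y : Ω, ∃ π ∈ Q, π x = y := by
    intro x y
    have h1 := htr {z | ∃ π ∈ Q, π x = z} ⟨x, 1, Q.one_mem, rfl⟩ (by
      rintro π hπ z ⟨ρ, hρ, rfl⟩
      exact ⟨π * ρ, Q.mul_mem (hGQ π hπ) hρ, rfl⟩)
    have h2 : y ∈ {z | ∃ π ∈ Q, π x = z} := by
      rw [h1]
      trivial
    exact h2
  have hQB : ∀ π : Q, B₀.map (π.1⁻¹).toEmbedding ∈ F := by
    intro π
    exact ((Q.inv_mem π.2) B₀).mpr hB₀
  have hspan := span_translates Q htrans hk (fun x => if x ∈ B₀ then 1 else 0) (by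
    simp only [Finset.sum_ite_mem, Finset.univ_inter, Finset.sum_const, nsmul_eq_mul, mul_one]
    exact_mod_cast ha) K
  have : Fintype Q := Fintype.ofFinite Q
  have hδ : (fun B : Ω => if B = A then (1 : K) else 0) ∈ Submodule.span K
      (Set.range fun (π : Q) (x : Ω) => (((if π.1 x ∈ B₀ then 1 else 0 : ℤ)) : K)) := by
    rw [hspan]
    trivial
  obtain ⟨c, hc⟩ := (Submodule.mem_span_range_iff_exists_fun K).mp hδ
  have hmem : ∀ (π : Q) (B : Ω), π.1 B ∈ B₀ ↔ B ∈ B₀.map (π.1⁻¹).toEmbedding := by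
    intro π B
    simp only [Finset.mem_map, Equiv.coe_toEmbedding]
    constructor
    · intro h
      exact ⟨π.1 B, h, by simp⟩
    · rintro ⟨z, hz, rfl⟩
      simpa using hz
  have hcB : ∀ B : Ω, ∑ π : Q, (if B ∈ B₀.map (π.1⁻¹).toEmbedding then c π else 0) =
      if B = A then 1 else 0 := by
    intro B
    rw [← congrFun hc B]
    simp only [Finset.sum_apply, Pi.smul_apply, smul_eq_mul]
    refine Finset.sum_congr rfl fun π _ => ?_
    by_cases h : π.1 B ∈ B₀
    · rw [if_pos h, if_pos ((hmem π B).mp h)]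
      simp
    · rw [if_neg h, if_neg fun h' => h ((hmem π B).mpr h')]
      simp
  refine ⟨∑ π : Q, Finsupp.single ⟨_, hQB π⟩ (c π), fun B => ?_, ?_⟩
  · rw [← Finsupp.sum_finsetSum_index (by simp) (by intro C a b; split_ifs <;> simp)]
    rw [← hcB B]
    refine Finset.sum_congr rfl fun π _ => ?_
    rw [Finsupp.sum_single_index (by simp)]
  · rw [← Finsupp.sum_finsetSum_index (by simp) (by intro C a b; rfl)]
    have h1 : ∑ B : Ω, ∑ π : Q, (if B ∈ B₀.map (π.1⁻¹).toEmbedding then c π else 0) = 1 := by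
      rw [Finset.sum_congr rfl fun B _ => hcB B]
      simp
    rw [Finset.sum_comm] at h1
    have h2 : ∀ π : Q, ∑ B : Ω, (if B ∈ B₀.map (π.1⁻¹).toEmbedding then c π else 0) =
        (B₀.card : K) * c π := by
      intro π
      rw [Finset.sum_ite_mem, Finset.univ_inter, Finset.sum_const, Finset.card_map, nsmul_eq_mul]
    rw [Finset.sum_congr rfl fun π _ => h2 π, ← Finset.mul_sum] at h1
    rw [eq_div_iff, mul_comm]
    · rw [← h1]
      congr 1
      refine Finset.sum_congr rfl fun π _ => ?_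
      rw [Finsupp.sum_single_index (by simp)]
    · intro h0
      rw [h0, zero_mul] at h1
      exact zero_ne_one h1

end Pool.Agent.CoprimeSig
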