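import Pool.Agent.CoprimeSig.Defs

/-!
# A symmetry permutes the weights (package CS14)
-/

set_option autoImplicit false

namespace Pool.Agent.CoprimeSig

open Module

variable {K H : Type*} [Field K] [AddCommGroup H] [Module K H] [FiniteDimensional K H]
  {t : Submodule K (End K H)} {W' W'' : Submodule K H}

omit [FiniteDimensional K H] in
/-- There are finitely many idempotents in a space of simultaneously diagonalisable
endomorphisms. -/
theorem symAct_finite_EE (T : Tor t) (c : K) : (EE t W'' c).Finite := by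
  obtain ⟨I, hI, v, hv⟩ := T.diag
  haveI : Finite (Set I) := inferInstance
  refine Set.Finite.of_finite_image (f := fun y : End K H => {i : I | y (v i) = v i})
    (Set.toFinite _) ?_
  intro y hy z hz hyz
  have key : ∀ x ∈ EE t W'' c, ∀ i, x (v i) = v i ∨ x (v i) = 0 := by
    intro x hx i
    obtain ⟨a, ha⟩ := hv x hx.1 i
    have h1 : x (x (v i)) = x (v i) := by
      have := congrArg (fun f : End K H => f (v i)) hx.2.1
      simpa using this
    rw [ha, map_smul, ha, smul_smul] at h1
    have h2 : (a * a - a) • v i = 0 := by rw [sub_smul, h1, sub_self]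
    have h3 : a * a - a = 0 := by
      rcases smul_eq_zero.mp h2 with h | h
      · exact h
      · exact absurd h (v.ne_zero i)
    have h4 : a * (a - 1) = 0 := by rw [← h3]; ring
    rcases mul_eq_zero.mp h4 with h | h
    · right; rw [ha, h, zero_smul]
    · left; rw [ha, sub_eq_zero.mp h, one_smul]
  refine v.ext ?_
  intro i
  have h5 : (y (v i) = v i) ↔ (z (v i) = v i) := Set.ext_iff.mp hyz i
  rcases key y hy i with h | h
  · rw [h, h5.mp h]
  · rcases key z hz i with h' | h'
    · rw [h', h5.mpr h']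
    · rw [h, h']

/-- A symmetry is monotone. -/
theorem symAct_mono {s : Submodule K H → Submodule K H} (hs : IsSym t W' W'' s)
    {U V : Submodule K H} (h : U ≤ V) : s U ≤ s V := by
  have h1 := hs.sup {U, V}
  have h2 : sSup ({U, V} : Set (Submodule K H)) = V := by
    rw [sSup_pair]; exact sup_eq_right.mpr h
  rw [h2] at h1
  rw [h1]
  exact le_sSup ⟨U, Set.mem_insert _ _, rfl⟩

/-- CS14. A symmetry permutes the weights. -/
theorem sym_act (T : Tor t) (hW' : ∀ x ∈ t, ∀ w ∈ W', x w ∈ W') (c : K)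
    {s : Submodule K H → Submodule K H} (hs : IsSym t W' W'' s) :
    ∃ (φ : End K H → End K H) (π : Equiv.Perm (Om t W' W'' c)),
      Set.BijOn φ (EE t W'' c) (EE t W'' c) ∧
      (∀ A : Om t W' W'' c, s (Wt t W' W'' c A) = Wt t W' W'' c (π A : Set (End K H))) ∧
      ∀ A : Om t W' W'' c, ∀ y ∈ EE t W'' c,
        φ y ∈ (π A : Set (End K H)) ↔ y ∈ (A : Set (End K H)) := by
  classical
  have hEE : (EE t W'' c).Finite := symAct_finite_EE T c
  obtain ⟨φ, hinj, hφ⟩ := hs.idem
  have hsW'' : s W'' = W'' := Submodule.eq_of_le_of_finrank_eq hs.snd (hs.rank W'')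
  have hinjE : Set.InjOn φ (EE t W'' c) := hinj.mono (fun y hy => hy.1)
  have hmaps : Set.MapsTo φ (EE t W'' c) (EE t W'' c) := by
    intro y hy
    obtain ⟨h1, h2, h3, _, h5⟩ := hφ y hy.1 hy.2.1
    refine ⟨h1, h2, ?_, by rw [h3]; exact hy.2.2.2⟩
    intro w hw
    exact h5 W'' hy.2.2.1 w (by rw [hsW'']; exact hw)
  have hbij : Set.BijOn φ (EE t W'' c) (EE t W'' c) := by
    refine ⟨hmaps, hinjE, ?_⟩
    have h1 : φ '' (EE t W'' c) ⊆ EE t W'' c := hmaps.image_subset
    have h2 : (φ '' (EE t W'' c)).ncard = (EE t W'' c).ncard := Set.ncard_image_of_injOn hinjE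
    have h3 : φ '' (EE t W'' c) = EE t W'' c :=
      Set.eq_of_subset_of_ncard_le h1 h2.ge hEE
    rw [Set.SurjOn, h3]
  -- image of a weight space
  have hle : ∀ A ⊆ EE t W'' c, s (Wt t W' W'' c A) ≤ Wt t W' W'' c (φ '' A) := by
    intro A hA u hu
    refine ⟨?_, ?_⟩
    · have h1 : Wt t W' W'' c A ≤ W' := fun w hw => hw.1
      exact hs.fst (symAct_mono hs h1 hu)
    · intro z hz
      obtain ⟨y, hy, rfl⟩ := hbij.surjOn hz
      obtain ⟨_, _, _, h4, h5⟩ := hφ y hy.1 hy.2.1
      constructor
      · rintro ⟨y', hy', hyy'⟩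
        have h6 : y' = y := hinjE (hA hy') hy hyy'
        subst h6
        exact h4 _ (fun w hw => (hw.2 y' hy).1 hy') u hu
      · intro h
        have h6 : y ∉ A := fun h' => h ⟨y, h', rfl⟩
        exact h5 _ (fun w hw => (hw.2 y hy).2 h6) u hu
  have hOmfin : (Om t W' W'' c).Finite :=
    hEE.finite_subsets.subset (fun A hA => hA.1)
  haveI : Fintype (Om t W' W'' c) := hOmfin.fintype
  have hmemOm : ∀ A : Om t W' W'' c, φ '' (A : Set (End K H)) ∈ Om t W' W'' c := by
    intro A
    refine ⟨(Set.image_mono A.2.1).trans hmaps.image_subset, ?_⟩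
    intro hbot
    have h1 := hle A A.2.1
    rw [hbot, le_bot_iff] at h1
    have h2 := hs.rank (Wt t W' W'' c A)
    rw [h1, finrank_bot] at h2
    exact A.2.2 (Submodule.finrank_eq_zero.mp h2.symm)
  let π₀ : Om t W' W'' c → Om t W' W'' c := fun A => ⟨φ '' (A : Set (End K H)), hmemOm A⟩
  have hπinj : Function.Injective π₀ := by
    intro A B hAB
    have h1 : φ '' (A : Set (End K H)) = φ '' (B : Set (End K H)) := congrArg Subtype.val hAB
    apply Subtype.ext
    exact (hinjE.image_eq_image_iff A.2.1 B.2.1).mp h1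
  let π : Equiv.Perm (Om t W' W'' c) :=
    Equiv.ofBijective π₀ (Finite.injective_iff_bijective.mp hπinj)
  have hπ : ∀ A, (π A : Set (End K H)) = φ '' (A : Set (End K H)) := fun A => rfl
  refine ⟨φ, π, hbij, ?_, ?_⟩
  · have h1 : ∀ A : Om t W' W'' c, finrank K (Wt t W' W'' c (A : Set (End K H))) ≤
        finrank K (Wt t W' W'' c (π A : Set (End K H))) := by
      intro A
      have h2 := Submodule.finrank_mono (hle A A.2.1)
      rw [hs.rank] at h2
      exact h2
    have h2 : ∑ A : Om t W' W'' c, finrank K (Wt t W' W'' c (A : Set (End K H))) =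
        ∑ A : Om t W' W'' c, finrank K (Wt t W' W'' c (π A : Set (End K H))) :=
      (Equiv.sum_comp π (fun A : Om t W' W'' c =>
        finrank K (Wt t W' W'' c (A : Set (End K H))))).symm
    have h3 := (Finset.sum_eq_sum_iff_of_le (fun A _ => h1 A)).mp h2
    intro A
    refine Submodule.eq_of_le_of_finrank_eq (hle A A.2.1) ?_
    rw [hs.rank]
    exact h3 A (Finset.mem_univ A)
  · intro A y hy
    rw [hπ]
    constructor
    · rintro ⟨y', hy', hyy'⟩
      have h6 : y' = y := hinjE (A.2.1 hy') hy hyy'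
      rwa [← h6]
    · intro h
      exact ⟨y, h, rfl⟩

end Pool.Agent.CoprimeSig
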