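import Pool.Agent.CoprimeSig.Weights
import Pool.Agent.CoprimeSig.SymAct
import Pool.Agent.CoprimeSig.Span

/-!
# The core theorem
-/

set_option autoImplicit false

namespace Pool.Agent.CoprimeSig

open Module

variable {K H : Type*} [Field K] [AddCommGroup H] [Module K H] [FiniteDimensional K H]
  {g t : Submodule K (End K H)} {W' W'' : Submodule K H}

omit [FiniteDimensional K H] in
/-- Rank of a diagonal operator with entries `0` and `1`. -/
theorem core_finrank_map {κ : Type*} [Fintype κ] {p : Submodule K H} (b : Basis κ K p)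
    (e : End K H) (P : κ → Prop) [DecidablePred P]
    (he : ∀ i, e (b i : H) = if P i then (b i : H) else 0) :
    finrank K (p.map e) = Fintype.card {i // P i} := by
  classical
  have hli : LinearIndependent K (fun i : {i // P i} => (b i : H)) := by
    have h1 : LinearIndependent K (fun i => (b i : H)) :=
      b.linearIndependent.map' p.subtype p.ker_subtype
    exact h1.comp _ Subtype.val_injective
  have hspan : p.map e = Submodule.span K (Set.range fun i : {i // P i} => (b i : H)) := by
    apply le_antisymm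
    · rintro _ ⟨w, hw, rfl⟩
      have h1 : w = ∑ i, b.repr ⟨w, hw⟩ i • (b i : H) := by
        have h2 := congrArg Subtype.val (b.sum_repr ⟨w, hw⟩)
        simp only [Submodule.coe_sum, Submodule.coe_smul] at h2
        exact h2.symm
      rw [h1, map_sum]
      refine Submodule.sum_mem _ fun i _ => ?_
      rw [map_smul, he]
      refine Submodule.smul_mem _ _ ?_
      by_cases h : P i
      · rw [if_pos h]
        exact Submodule.subset_span ⟨⟨i, h⟩, rfl⟩
      · rw [if_neg h]
        exact Submodule.zero_mem _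
    · rw [Submodule.span_le]
      rintro _ ⟨i, rfl⟩
      refine ⟨b i, (b i).2, ?_⟩
      rw [he, if_pos i.2]
  rw [hspan, finrank_span_eq_card hli]

omit [FiniteDimensional K H] in
theorem core_wt_unique {c : K} {A B : Set (End K H)}
    (hA : A ∈ Om t W' W'' c) (hB : B ∈ Om t W' W'' c)
    (h : Wt t W' W'' c A = Wt t W' W'' c B) : A = B := by
  obtain ⟨w, hw, hw0⟩ := (Submodule.ne_bot_iff _).mp hA.2
  have hwB : w ∈ Wt t W' W'' c B := h ▸ hw
  ext y
  constructor
  · intro hy
    by_contra hyB
    have h1 := (hw.2 y (hA.1 hy)).1 hy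
    have h2 := (hwB.2 y (hA.1 hy)).2 hyB
    exact hw0 (h1.symm.trans h2)
  · intro hy
    by_contra hyA
    have h1 := (hwB.2 y (hB.1 hy)).1 hy
    have h2 := (hw.2 y (hB.1 hy)).2 hyA
    exact hw0 (h1.symm.trans h2)

theorem core_basis {ι' : Type*} (s : Set ι') (A : ι' → Submodule K H)
    (h : iSupIndep fun i : s => A i) {p : Submodule K H} (hp : ⨆ i ∈ s, A i = p) :
    ∃ b : Basis (Σ i : s, Fin (finrank K (A i))) K p, ∀ x, (b x : H) ∈ A x.1 := by
  classical
  subst hp
  have hint := DirectSum.isInternal_biSup_submodule_of_iSupIndep s h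
  have hle : ∀ i : s, A i ≤ ⨆ i ∈ s, A i := fun i => le_biSup A i.2
  let v : ∀ i : s, Basis (Fin (finrank K (A i))) K
      ((A i).comap (⨆ i ∈ s, A i).subtype) := fun i =>
    (finBasis K (A i)).map (Submodule.comapSubtypeEquivOfLe (hle i)).symm
  exact ⟨hint.collectedBasis v, fun x => hint.collectedBasis_mem v x⟩

/-- The core theorem: transitivity implies that `t` contains all diagonal operators on `W'`. -/
theorem core [CharZero K] (T : Tor t) (hW' : ∀ x ∈ t, ∀ w ∈ W', x w ∈ W') (c : K)
    (htr : ∀ O ⊆ Om t W' W'' c, O.Nonempty →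
      (∀ s, IsSym t W' W'' s → ∀ A ∈ O, ∀ B ∈ Om t W' W'' c,
        s (Wt t W' W'' c A) = Wt t W' W'' c B → B ∈ O) → O = Om t W' W'' c)
    {l k a : ℕ} (hl : l.Prime) (hk : finrank K W' = l ^ k)
    {e : End K H} (he : e ∈ EE t W'' c) (ha : finrank K (W'.map e) = a) (hla : ¬ l ∣ a) :
    ∃ v : Basis (Fin (l ^ k)) K W', ∀ i, ∃ x ∈ t,
      (∀ j, x (v j : H) = if j = i then (v j : H) else 0) ∧ (∀ w ∈ W'', x w = 0) ∧
      LinearMap.trace K H x = c / a := by
  classical
  obtain ⟨hfin, hsup, hind⟩ := weights T hW' (W'' := W'') c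
  have hfin' : Finite (Om t W' W'' c) := hfin
  have hft : Fintype (Om t W' W'' c) := Fintype.ofFinite _
  -- multiplicities
  obtain ⟨b, hb⟩ := core_basis (Om t W' W'' c) (fun A => Wt t W' W'' c A) hind hsup
  let d : Om t W' W'' c → ℕ := fun A => finrank K (Wt t W' W'' c (A : Set (End K H)))
  have hd0 : ∀ A, d A ≠ 0 := by
    intro A h0
    exact A.2.2 (Submodule.finrank_eq_zero.mp h0)
  have hne : Nonempty (Om t W' W'' c) := by
    by_contra hcon
    rw [not_nonempty_iff] at hcon
    have h1 : finrank K W' = 0 := by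
      rw [finrank_eq_card_basis b]
      simp
    rw [hk] at h1
    exact (pow_pos hl.pos k).ne' h1
  obtain ⟨A₀⟩ := hne
  have hconst : ∀ A, d A = d A₀ := by
    intro A
    have h1 := htr {B | ∃ h : B ∈ Om t W' W'' c, d ⟨B, h⟩ = d A₀} (fun B hB => hB.1)
      ⟨A₀, A₀.2, rfl⟩ (by
        rintro s hs B ⟨hB, hBd⟩ B' hB' hBB'
        refine ⟨hB', ?_⟩
        rw [← hBd]
        change finrank K (Wt t W' W'' c B') = finrank K (Wt t W' W'' c B)
        rw [← hBB', hs.rank])
    have h2 : (A : Set (End K H)) ∈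
        {B | ∃ h : B ∈ Om t W' W'' c, d ⟨B, h⟩ = d A₀} := h1.symm ▸ A.2
    exact h2.2
  have hcard1 : Fintype.card (Om t W' W'' c) * d A₀ = l ^ k := by
    rw [← hk, finrank_eq_card_basis b, Fintype.card_sigma]
    simp only [Fintype.card_fin]
    rw [Finset.sum_congr rfl fun A _ => hconst A, Finset.sum_const, Finset.card_univ, smul_eq_mul]
  have heb : ∀ x, e (b x : H) = if e ∈ (x.1 : Set (End K H)) then (b x : H) else 0 := by
    intro x
    have h1 := (hb x).2 e he
    split_ifs with h
    · exact h1.1 h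
    · exact h1.2 h
  have hcard2 : Fintype.card {A : Om t W' W'' c // e ∈ (A : Set (End K H))} * d A₀ = a := by
    rw [← ha, core_finrank_map b e (fun x => e ∈ (x.1 : Set (End K H))) heb]
    have h1 : Fintype.card {x : (Σ i : Om t W' W'' c, Fin (d i)) //
        e ∈ (x.1 : Set (End K H))} =
        Fintype.card (Σ A : {A : Om t W' W'' c // e ∈ (A : Set (End K H))}, Fin (d A.1)) := by
      refine Fintype.card_congr
        { toFun := fun x => ⟨⟨x.1.1, x.2⟩, x.1.2⟩
          invFun := fun x => ⟨⟨x.1.1, x.2⟩, x.1.2⟩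
          left_inv := fun x => rfl
          right_inv := fun x => rfl }
    rw [h1, Fintype.card_sigma]
    simp only [Fintype.card_fin]
    rw [Finset.sum_congr rfl fun A _ => hconst A.1, Finset.sum_const, Finset.card_univ,
      smul_eq_mul]
  have hd1 : d A₀ = 1 := by
    have h1 : d A₀ ∣ l ^ k := ⟨_, by rw [mul_comm, hcard1]⟩
    obtain ⟨j, _, hj⟩ := (Nat.dvd_prime_pow hl).mp h1
    rcases Nat.eq_zero_or_pos j with h2 | h2
    · rw [hj, h2, pow_zero]
    · exfalso
      apply hla
      have h3 : l ∣ d A₀ := by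
        rw [hj]
        exact dvd_pow_self l h2.ne'
      exact h3.trans ⟨_, by rw [mul_comm, hcard2]⟩
  rw [hd1, mul_one] at hcard1 hcard2
  -- nonzero weight vectors
  have hvec : ∀ A : Om t W' W'' c, ∃ w ∈ Wt t W' W'' c (A : Set (End K H)), w ≠ 0 := fun A =>
    (Submodule.ne_bot_iff _).mp A.2.2
  choose w hw hw0 using hvec
  have hwW : ∀ A, w A ∈ W' := fun A => (hw A).1
  have hli : LinearIndependent K (fun A => (⟨w A, hwW A⟩ : W')) := by
    have h1 : LinearIndependent K w := hind.linearIndependent _ hw hw0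
    exact LinearIndependent.of_comp W'.subtype h1
  have hcardW : Fintype.card (Om t W' W'' c) = finrank K W' := by rw [hcard1, hk]
  have hne : Nonempty (Om t W' W'' c) := ⟨A₀⟩
  let u : Basis (Om t W' W'' c) K W' := basisOfLinearIndependentOfCardEqFinrank hli hcardW
  have hu : ∀ A, (u A : H) = w A := by
    intro A
    simp [u]
  let eqv : Om t W' W'' c ≃ Fin (l ^ k) := Fintype.equivFinOfCardEq hcard1
  -- the combinatorial argument
  let BB : End K H → Finset (Om t W' W'' c) := fun y =>
    Finset.univ.filter fun A => y ∈ (A : Set (End K H))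
  have hrel := const_of_rel (K := K) (Ω := Om t W' W'' c) (BB '' EE t W'' c)
    {π | ∃ (s : Submodule K H → Submodule K H) (φ : End K H → End K H),
      IsSym t W' W'' s ∧ Set.BijOn φ (EE t W'' c) (EE t W'' c) ∧
      (∀ A : Om t W' W'' c, s (Wt t W' W'' c A) = Wt t W' W'' c (π A : Set (End K H))) ∧
      ∀ A : Om t W' W'' c, ∀ y ∈ EE t W'' c,
        φ y ∈ (π A : Set (End K H)) ↔ y ∈ (A : Set (End K H))}
    (by
      rintro π ⟨s, φ, hs, hφ, hsA, hφA⟩ _ ⟨y, hy, rfl⟩
      refine ⟨φ y, hφ.mapsTo hy, ?_⟩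
      ext A
      simp only [BB, Finset.mem_filter, Finset.mem_univ, true_and, Finset.mem_map,
        Equiv.coe_toEmbedding]
      constructor
      · intro h
        refine ⟨π.symm A, ?_, by simp⟩
        rw [← hφA (π.symm A) y hy]
        simpa using h
      · rintro ⟨B, hB, rfl⟩
        exact (hφA B y hy).mpr hB)
    (by
      intro O hO hOst
      have h1 := htr (Subtype.val '' O) (by rintro _ ⟨A, _, rfl⟩; exact A.2)
        (hO.image _) (by
          rintro s hs _ ⟨A, hA, rfl⟩ B hB hAB
          obtain ⟨φ, π, h2, h3, h4⟩ := sym_act T hW' c hs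
          have h5 := hOst π ⟨s, φ, hs, h2, h3, h4⟩ A hA
          have h6 : (π A : Set (End K H)) = B :=
            core_wt_unique (π A).2 hB ((h3 A).symm.trans hAB)
          exact ⟨π A, h5, h6⟩)
      ext A
      simp only [Set.mem_univ, iff_true]
      have h2 : (A : Set (End K H)) ∈ Subtype.val '' O := by
        rw [h1]
        exact A.2
      obtain ⟨B, hB, hBA⟩ := h2
      rwa [← Subtype.ext hBA])
    hl hcard1 (B₀ := BB e) ⟨e, he, rfl⟩ (by
      have h1 : (BB e).card = a := by
        rw [← hcard2, Fintype.card_subtype]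
      rw [h1]
      exact hla)
  have hcardB : (BB e).card = a := by
    rw [← hcard2, Fintype.card_subtype]
  refine ⟨u.reindex eqv, fun i => ?_⟩
  obtain ⟨m, hm1, hm2⟩ := hrel (eqv.symm i)
  have hch : ∀ C : (BB '' EE t W'' c : Set (Finset (Om t W' W'' c))),
      ∃ y ∈ EE t W'' c, BB y = C := fun C => C.2
  choose y hy hyC using hch
  refine ⟨m.sum fun C r => r • y C, ?_, ?_, ?_, ?_⟩
  · exact Submodule.sum_mem _ fun C _ => t.smul_mem _ (hy C).1
  · intro j
    have h1 : ((u.reindex eqv) j : H) = w (eqv.symm j) := by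
      rw [Basis.reindex_apply, hu]
    rw [h1]
    have h2 : (m.sum fun C r => r • y C) (w (eqv.symm j)) =
        (m.sum fun C r => if eqv.symm j ∈ (C : Finset (Om t W' W'' c)) then r else 0) •
          w (eqv.symm j) := by
      simp only [Finsupp.sum, LinearMap.sum_apply, LinearMap.smul_apply, Finset.sum_smul]
      refine Finset.sum_congr rfl fun C _ => ?_
      have h3 : eqv.symm j ∈ (C : Finset (Om t W' W'' c)) ↔
          y C ∈ ((eqv.symm j : Om t W' W'' c) : Set (End K H)) := by
        rw [← hyC C]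
        simp [BB]
      have h4 := (hw (eqv.symm j)).2 (y C) (hy C)
      by_cases h5 : y C ∈ ((eqv.symm j : Om t W' W'' c) : Set (End K H))
      · rw [h4.1 h5, if_pos (h3.mpr h5)]
      · rw [h4.2 h5, if_neg fun h6 => h5 (h3.mp h6), smul_zero, zero_smul]
    rw [h2, hm1]
    by_cases h3 : j = i
    · rw [if_pos (congrArg _ h3), if_pos h3, one_smul]
    · rw [if_neg fun h4 => h3 (eqv.symm.injective h4), if_neg h3, zero_smul]
  · intro v hv
    simp only [Finsupp.sum, LinearMap.sum_apply, LinearMap.smul_apply]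
    refine Finset.sum_eq_zero fun C _ => ?_
    rw [(hy C).2.2.1 v hv, smul_zero]
  · have h1 : LinearMap.trace K H (m.sum fun C r => r • y C) = (m.sum fun _ r => r) * c := by
      simp only [Finsupp.sum, map_sum, map_smul, smul_eq_mul, Finset.sum_mul]
      refine Finset.sum_congr rfl fun C _ => ?_
      rw [(hy C).2.2.2]
    rw [h1, hm2, hcardB]
    ring

end Pool.Agent.CoprimeSig
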