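import Pool.Agent.CoprimeSig.Wl

/-!
# A root vector moves a weight space into its image under the Weyl group element
-/

set_option autoImplicit false

namespace Pool.Agent.CoprimeSig

open Module

variable {K H : Type*} [Field K] [AddCommGroup H] [Module K H] [FiniteDimensional K H]
  {g t : Submodule K (End K H)} {W' W'' : Submodule K H}

/-- A root vector with non-zero restriction to `EE` moves a weight space into its image under the
Weyl group element. -/
theorem root_move [CharZero K] (C : Cartan g t) (hW' : ∀ x ∈ g, ∀ w ∈ W', x w ∈ W')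
    (hW'' : ∀ x ∈ g, ∀ w ∈ W'', x w ∈ W'') {c : K} {α : End K H → K} {x y : End K H}
    (P : Opp g t α x y) {ε : End K H} (hε : ε ∈ EE t W'' c) (hα : α ε = 1 ∨ α ε = -1)
    {A : Set (End K H)} {w : H} (hw : w ∈ Wt t W' W'' c A) (hxw : x w ≠ 0) :
    x w ∈ (Wt t W' W'' c A).map (wl x y) := by
  obtain ⟨h1, h2, h3, -⟩ := wl_mul_inv P
  obtain ⟨hεt, hεε, hε0, hεc⟩ := hε
  have hα0 : α ε ≠ 0 := by
    rcases hα with h | h <;> rw [h]
    · exact one_ne_zero
    · exact neg_ne_zero.2 one_ne_zero
  have hx0 : ∀ u ∈ W'', x u = 0 := by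
    intro u hu
    have e := congrArg (fun f : End K H => f u) (P.rx.root ε hεt)
    simp only [LinearMap.sub_apply, Module.End.mul_apply, LinearMap.smul_apply] at e
    rw [hε0 _ (hW'' x P.rx.mem u hu), hε0 u hu, map_zero, sub_zero] at e
    exact (smul_eq_zero.1 e.symm).resolve_left hα0
  have hy0 : ∀ u ∈ W'', y u = 0 := by
    intro u hu
    have e := congrArg (fun f : End K H => f u) (P.ry.root ε hεt)
    simp only [LinearMap.sub_apply, Module.End.mul_apply, LinearMap.smul_apply] at e
    rw [hε0 _ (hW'' y P.ry.mem u hu), hε0 u hu, map_zero, sub_zero] at e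
    exact (smul_eq_zero.1 e.symm).resolve_left (neg_ne_zero.2 hα0)
  have hε' : ε - α ε • (x * y - y * x) ∈ EE t W'' c := by
    refine ⟨t.sub_mem hεt (t.smul_mem _ P.mem), ?_, ?_, ?_⟩
    · rw [← h3 ε hεt]
      calc wl x y * ε * wlInv x y * (wl x y * ε * wlInv x y)
          = wl x y * ε * (wlInv x y * wl x y) * ε * wlInv x y := by simp only [mul_assoc]
        _ = wl x y * (ε * ε) * wlInv x y := by rw [h2, mul_one]; simp only [mul_assoc]
        _ = wl x y * ε * wlInv x y := by rw [hεε]
    · intro u hu
      simp [hε0 u hu, hx0 u hu, hy0 u hu]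
    · rw [← h3 ε hεt, mul_assoc, LinearMap.trace_mul_comm, mul_assoc, h2, mul_one, hεc]
  -- `h` acts as a scalar on the weight space
  have hscal : ∃ l : K, ∀ u ∈ Wt t W' W'' c A, (x * y - y * x) u = l • u := by
    have key : ∀ e ∈ EE t W'' c, ∃ l : K, ∀ u ∈ Wt t W' W'' c A, e u = l • u := by
      intro e he
      by_cases hA : e ∈ A
      · exact ⟨1, fun u hu => by rw [(hu.2 e he).1 hA, one_smul]⟩
      · exact ⟨0, fun u hu => by rw [(hu.2 e he).2 hA, zero_smul]⟩
    obtain ⟨a, ha⟩ := key ε ⟨hεt, hεε, hε0, hεc⟩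
    obtain ⟨b, hb⟩ := key _ hε'
    refine ⟨(α ε)⁻¹ * (a - b), fun u hu => ?_⟩
    have e1 := ha u hu
    have e2 := hb u hu
    rw [LinearMap.sub_apply, LinearMap.smul_apply, e1] at e2
    have e3 : α ε • (x * y - y * x) u = (a - b) • u := by
      rw [sub_smul, ← e2]; abel
    rw [mul_smul, ← e3, smul_smul, inv_mul_cancel₀ hα0, one_smul]
  obtain ⟨l, hl⟩ := hscal
  -- `y x w` lies in the weight space
  have hcomm : ∀ τ ∈ t, τ * (y * x) = y * x * τ := by
    intro τ hτ
    have e1 := P.rx.root τ hτ
    have e2 := P.ry.root τ hτ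
    have e1' : τ * x = x * τ + α τ • x := by rw [← e1]; abel
    have e2' : τ * y = y * τ + (-α τ) • y := by rw [← e2]; abel
    calc τ * (y * x) = τ * y * x := by rw [mul_assoc]
      _ = (y * τ + (-α τ) • y) * x := by rw [e2']
      _ = y * (τ * x) + (-α τ) • (y * x) := by rw [add_mul, smul_mul_assoc, mul_assoc]
      _ = y * (x * τ + α τ • x) + (-α τ) • (y * x) := by rw [e1']
      _ = y * x * τ := by
        rw [mul_add, mul_smul_comm, ← mul_assoc, neg_smul]; abel
  have hw1 : y (x w) ∈ Wt t W' W'' c A := by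
    refine ⟨hW' y P.ry.mem _ (hW' x P.rx.mem w hw.1), fun e he => ?_⟩
    have e1 : e (y (x w)) = y (x (e w)) := by
      have := congrArg (fun f : End K H => f w) (hcomm e he.1)
      simpa only [Module.End.mul_apply] using this
    refine ⟨fun h => ?_, fun h => ?_⟩
    · rw [e1, (hw.2 e he).1 h]
    · rw [e1, (hw.2 e he).2 h, map_zero, map_zero]
  have hxyx : ∀ u, x (y (x u)) = x u := fun u => by
    have := congrArg (fun f : End K H => f u) P.xyx
    simpa only [Module.End.mul_apply] using this
  have hyxy : ∀ u, y (x (y u)) = y u := fun u => by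
    have := congrArg (fun f : End K H => f u) P.yxy
    simpa only [Module.End.mul_apply] using this
  have hxx : ∀ u, x (x u) = 0 := fun u => by
    have := congrArg (fun f : End K H => f u) P.xx
    simpa only [Module.End.mul_apply, LinearMap.zero_apply] using this
  have hyy : ∀ u, y (y u) = 0 := fun u => by
    have := congrArg (fun f : End K H => f u) P.yy
    simpa only [Module.End.mul_apply, LinearMap.zero_apply] using this
  have hne : y (x w) ≠ 0 := by
    intro h
    apply hxw
    rw [← hxyx w, h, map_zero]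
  have hl1 : l = -1 := by
    have e := hl _ hw1
    rw [LinearMap.sub_apply, Module.End.mul_apply, Module.End.mul_apply, hyy, map_zero, hxyx,
      zero_sub] at e
    have e' : (l + 1) • y (x w) = 0 := by rw [add_smul, ← e, one_smul]; abel
    have := (smul_eq_zero.1 e').resolve_right hne
    exact eq_neg_of_add_eq_zero_left this
  have ehw := hl w hw
  rw [hl1, LinearMap.sub_apply, Module.End.mul_apply, Module.End.mul_apply, neg_smul,
    one_smul] at ehw
  have hyw : y w = 0 := by
    have e := congrArg y ehw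
    rw [map_sub, map_neg, hyxy, hyy, sub_zero] at e
    have e2 : (2 : K) • y w = 0 := by
      rw [two_smul]
      nth_rewrite 1 [e]
      abel
    exact (smul_eq_zero.1 e2).resolve_left two_ne_zero
  rw [hyw, map_zero, zero_sub, neg_inj] at ehw
  refine ⟨w, hw, ?_⟩
  simp only [wl, Module.End.mul_apply, LinearMap.add_apply, LinearMap.sub_apply,
    Module.End.one_apply, map_add, hyw, ehw]
  simp only [map_sub, map_add, map_zero, hxx, zero_add]
  abel

end Pool.Agent.CoprimeSig
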