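import Pool.Agent.CoprimeSig.Defs

/-!
# The weight decomposition
-/

set_option autoImplicit false

namespace Pool.Agent.CoprimeSig

open Module

variable {K H : Type*} [Field K] [AddCommGroup H] [Module K H] [FiniteDimensional K H]
  {g t : Submodule K (End K H)} {W' W'' : Submodule K H}

/-- The set of idempotents of a torus is finite. -/
private theorem weights_finite_idem (T : Tor t) :
    {y : End K H | y ∈ t ∧ y * y = y}.Finite := by
  classical
  obtain ⟨I, hI, v, hv⟩ := T.diag
  have hc : ∀ y : End K H, y ∈ t → y * y = y → ∀ i, y (v i) = v i ∨ y (v i) = 0 := by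
    intro y hy hyy i
    obtain ⟨c, hc⟩ := hv y hy i
    have e : y (y (v i)) = y (v i) := by
      have := congrArg (fun f : End K H => f (v i)) hyy
      simpa only [Module.End.mul_apply] using this
    rw [hc, map_smul, hc, smul_smul] at e
    have e2 : (c * c - c) • v i = 0 := by rw [sub_smul, e, sub_self]
    have e3 := (smul_eq_zero.1 e2).resolve_right (v.ne_zero i)
    have e4 : c * (c - 1) = 0 := by rw [← e3]; ring
    rcases mul_eq_zero.1 e4 with h | h
    · right; rw [hc, h, zero_smul]
    · left; rw [hc, sub_eq_zero.1 h, one_smul]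
  refine Set.Finite.of_injOn (f := fun y : End K H => {i : I | y (v i) = v i})
    (t := Set.univ) (fun _ _ => Set.mem_univ _) ?_ Set.finite_univ
  rintro a ⟨ha, haa⟩ b ⟨hb, hbb⟩ hab
  refine v.ext fun i => ?_
  have hi : a (v i) = v i ↔ b (v i) = v i := by
    have := congrArg (fun S : Set I => i ∈ S) hab
    simpa only [Set.mem_setOf_eq, eq_iff_iff] using this
  rcases hc a ha haa i with h | h
  · rw [h, hi.1 h]
  · rcases hc b hb hbb i with h' | h'
    · rw [h', hi.2 h']
    · rw [h, h']

/-- The simultaneous eigenspaces for a finite set of idempotents. -/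
private def weightsSub (W' : Submodule K H) (s : Finset (End K H)) (A : Set (End K H)) :
    Submodule K H where
  carrier := {w | w ∈ W' ∧ ∀ y ∈ s, (y ∈ A → y w = w) ∧ (y ∉ A → y w = 0)}
  add_mem' := fun {u v} hu hv => ⟨W'.add_mem hu.1 hv.1, fun y hy =>
    ⟨fun h => by rw [map_add, (hu.2 y hy).1 h, (hv.2 y hy).1 h],
      fun h => by rw [map_add, (hu.2 y hy).2 h, (hv.2 y hy).2 h, add_zero]⟩⟩
  zero_mem' := ⟨W'.zero_mem, fun y _ => ⟨fun _ => map_zero y, fun _ => map_zero y⟩⟩
  smul_mem' := fun r u hu => ⟨W'.smul_mem r hu.1, fun y hy =>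
    ⟨fun h => by rw [map_smul, (hu.2 y hy).1 h],
      fun h => by rw [map_smul, (hu.2 y hy).2 h, smul_zero]⟩⟩

private theorem weights_mem_weightsSub {s : Finset (End K H)} {A : Set (End K H)} {w : H} :
    w ∈ weightsSub W' s A ↔ w ∈ W' ∧ ∀ y ∈ s, (y ∈ A → y w = w) ∧ (y ∉ A → y w = 0) := Iff.rfl

private theorem weights_iSup_weightsSub (T : Tor t) (hW' : ∀ x ∈ t, ∀ w ∈ W', x w ∈ W')
    (s : Finset (End K H)) (hs : ∀ y ∈ s, y ∈ t ∧ y * y = y) :
    W' ≤ ⨆ A : Set (End K H), weightsSub W' s A := by
  classical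
  induction s using Finset.induction_on with
  | empty =>
    refine le_trans ?_ (le_iSup _ ∅)
    intro w hw
    exact ⟨hw, fun y hy => absurd hy (Finset.notMem_empty y)⟩
  | insert y₀ s hy₀ ih =>
    refine (ih fun y hy => hs y (Finset.mem_insert_of_mem hy)).trans (iSup_le fun A => ?_)
    obtain ⟨h0t, h00⟩ := hs y₀ (Finset.mem_insert_self _ _)
    have h0 : ∀ w, y₀ (y₀ w) = y₀ w := fun w => by
      have := congrArg (fun f : End K H => f w) h00
      simpa only [Module.End.mul_apply] using this
    have hcomm : ∀ y ∈ s, ∀ w, y (y₀ w) = y₀ (y w) := fun y hy w => by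
      have := congrArg (fun f : End K H => f w)
        (T.comm y (hs y (Finset.mem_insert_of_mem hy)).1 y₀ h0t)
      simpa only [Module.End.mul_apply] using this
    intro w hw
    obtain ⟨hwW, hwA⟩ := weights_mem_weightsSub.1 hw
    have e : w = y₀ w + (w - y₀ w) := by abel
    rw [e]
    refine Submodule.add_mem _ ?_ ?_
    · refine Submodule.mem_iSup_of_mem (insert y₀ A) ⟨hW' y₀ h0t w hwW, fun y hy => ?_⟩
      rcases Finset.mem_insert.1 hy with rfl | hy'
      · exact ⟨fun _ => h0 w, fun h => absurd (Set.mem_insert _ _) h⟩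
      · have hne : y ≠ y₀ := fun h => hy₀ (h ▸ hy')
        refine ⟨fun h => ?_, fun h => ?_⟩
        · rw [hcomm y hy', (hwA y hy').1 ((Set.mem_insert_iff.1 h).resolve_left hne)]
        · rw [hcomm y hy', (hwA y hy').2 fun h' => h (Set.mem_insert_of_mem _ h'), map_zero]
    · refine Submodule.mem_iSup_of_mem (A \ {y₀}) ⟨W'.sub_mem hwW (hW' y₀ h0t w hwW),
        fun y hy => ?_⟩
      rcases Finset.mem_insert.1 hy with rfl | hy'
      · exact ⟨fun h => absurd rfl h.2, fun _ => by rw [map_sub, h0, sub_self]⟩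
      · have hne : y ≠ y₀ := fun h => hy₀ (h ▸ hy')
        refine ⟨fun h => ?_, fun h => ?_⟩
        · rw [map_sub, hcomm y hy', (hwA y hy').1 h.1]
        · rw [map_sub, hcomm y hy', (hwA y hy').2 fun h' => h ⟨h', hne⟩, map_zero, sub_zero]

/-- The weight decomposition of `W'`. -/
theorem weights (T : Tor t) (hW' : ∀ x ∈ t, ∀ w ∈ W', x w ∈ W') (c : K) :
    (Om t W' W'' c).Finite ∧ (⨆ A ∈ Om t W' W'' c, Wt t W' W'' c A) = W' ∧
      iSupIndep (fun A : Om t W' W'' c => Wt t W' W'' c (A : Set (End K H))) := by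
  classical
  have hfin : (EE t W'' c).Finite :=
    (weights_finite_idem T).subset fun y hy => ⟨hy.1, hy.2.1⟩
  have hind : iSupIndep (fun A : Om t W' W'' c => Wt t W' W'' c (A : Set (End K H))) := by
    have h := Module.End.independent_iInf_maxGenEigenspace_of_forall_mapsTo
      (fun y : EE t W'' c => (y : End K H)) (fun i j φ =>
        Module.End.mapsTo_maxGenEigenspace_of_comm
          (show Commute (j : End K H) (i : End K H) from T.comm _ j.2.1 _ i.2.1) φ)
    let χ : Om t W' W'' c → (EE t W'' c → K) := fun A y =>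
      if (y : End K H) ∈ (A : Set (End K H)) then 1 else 0
    have hχ : Function.Injective χ := by
      intro A B hAB
      apply Subtype.ext
      ext y
      have key : ∀ A B : Om t W' W'' c, χ A = χ B → y ∈ (A : Set (End K H)) →
          y ∈ (B : Set (End K H)) := by
        intro A B hAB hy
        have e := congrFun hAB ⟨y, A.2.1 hy⟩
        simp only [χ, hy, if_true] at e
        by_contra hB
        rw [if_neg hB] at e
        exact one_ne_zero e
      exact ⟨key A B hAB, key B A hAB.symm⟩
    refine (h.comp hχ).mono fun A => ?_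
    refine le_iInf fun y => ?_
    intro w hw
    have hw' := hw.2 y y.2
    refine (Module.End.mem_maxGenEigenspace _ _ _).2 ⟨1, ?_⟩
    rw [pow_one, LinearMap.sub_apply]
    by_cases hy : (y : End K H) ∈ (A : Set (End K H))
    · simp only [χ, hy, if_true]
      rw [hw'.1 hy]; simp
    · simp only [χ, hy, if_false]
      rw [hw'.2 hy]; simp
  refine ⟨?_, ?_, hind⟩
  · have : Finite (Om t W' W'' c) := WellFoundedGT.finite_of_iSupIndep hind fun A => A.2.2
    exact Set.toFinite _
  · refine le_antisymm (iSup₂_le fun A _ => fun w hw => hw.1) ?_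
    refine (weights_iSup_weightsSub T hW' hfin.toFinset fun y hy => ?_).trans
      (iSup_le fun A => ?_)
    · have := hfin.mem_toFinset.1 hy
      exact ⟨this.1, this.2.1⟩
    · have hle : weightsSub W' hfin.toFinset A ≤ Wt t W' W'' c (A ∩ EE t W'' c) := by
        intro w hw
        obtain ⟨hwW, hwA⟩ := weights_mem_weightsSub.1 hw
        refine ⟨hwW, fun y hy => ⟨fun h => (hwA y (hfin.mem_toFinset.2 hy)).1 h.1, fun h => ?_⟩⟩
        exact (hwA y (hfin.mem_toFinset.2 hy)).2 fun h' => h ⟨h', hy⟩
      by_cases hb : Wt t W' W'' c (A ∩ EE t W'' c) = ⊥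
      · rw [hb] at hle
        exact hle.trans bot_le
      · exact hle.trans (le_iSup₂_of_le (A ∩ EE t W'' c) ⟨Set.inter_subset_right, hb⟩ le_rfl)

end Pool.Agent.CoprimeSig
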