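import Pool.Agent.CoprimeSig.Wl

/-!
# The Weyl group element is a symmetry
-/

set_option autoImplicit false

namespace Pool.Agent.CoprimeSig

open Module

variable {K H : Type*} [Field K] [AddCommGroup H] [Module K H] [FiniteDimensional K H]
  {g t : Submodule K (End K H)} {W' W'' : Submodule K H}

/-- The Weyl group element is a symmetry. -/
theorem isSym_wl (C : Cartan g t) (hW' : ∀ x ∈ g, ∀ w ∈ W', x w ∈ W')
    (hW'' : ∀ x ∈ g, ∀ w ∈ W'', x w ∈ W'') {α : End K H → K} {x y : End K H}
    (P : Opp g t α x y) : IsSym t W' W'' (fun U => U.map (wl x y)) := by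
  obtain ⟨h1, h2, h3, -⟩ := wl_mul_inv P
  have hinv : ∀ u, wlInv x y (wl x y u) = u := fun u => by
    have := congrArg (fun f : End K H => f u) h2
    simpa only [Module.End.mul_apply, Module.End.one_apply] using this
  have hinj : Function.Injective (wl x y) := fun a b h => by
    rw [← hinv a, ← hinv b, h]
  have hst : ∀ W : Submodule K H, (∀ x ∈ g, ∀ w ∈ W, x w ∈ W) → W.map (wl x y) ≤ W := by
    rintro W hW _ ⟨w, hw, rfl⟩
    have ha : ∀ u ∈ W, (1 + x) u ∈ W := fun u hu => W.add_mem hu (hW x P.rx.mem u hu)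
    have hb : ∀ u ∈ W, (1 - y) u ∈ W := fun u hu => W.sub_mem hu (hW y P.ry.mem u hu)
    exact ha _ (hb _ (ha _ hw))
  refine ⟨fun S => ?_, fun U => ?_, hst W' hW', hst W'' hW'',
    fun τ => wl x y * τ * wlInv x y, ?_, ?_⟩
  · rw [sSup_image, sSup_eq_iSup, Submodule.map_iSup]
    simp only [Submodule.map_iSup]
  · exact (Submodule.equivMapOfInjective (wl x y) hinj U).finrank_eq.symm
  · intro a _ b _ hab
    have e : wlInv x y * (wl x y * a * wlInv x y) * wl x y
        = wlInv x y * (wl x y * b * wlInv x y) * wl x y := by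
      simp only at hab
      rw [hab]
    have f : ∀ z : End K H, wlInv x y * (wl x y * z * wlInv x y) * wl x y = z := by
      intro z
      calc wlInv x y * (wl x y * z * wlInv x y) * wl x y
          = (wlInv x y * wl x y) * z * (wlInv x y * wl x y) := by simp only [mul_assoc]
        _ = z := by rw [h2, one_mul, mul_one]
    rwa [f, f] at e
  · intro τ hτ hττ
    refine ⟨?_, ?_, ?_, ?_, ?_⟩
    · simp only
      rw [h3 τ hτ]
      exact t.sub_mem hτ (t.smul_mem _ P.mem)
    · calc wl x y * τ * wlInv x y * (wl x y * τ * wlInv x y)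
          = wl x y * τ * (wlInv x y * wl x y) * τ * wlInv x y := by simp only [mul_assoc]
        _ = wl x y * (τ * τ) * wlInv x y := by rw [h2, mul_one]; simp only [mul_assoc]
        _ = wl x y * τ * wlInv x y := by rw [hττ]
    · simp only
      rw [mul_assoc, LinearMap.trace_mul_comm, mul_assoc, h2, mul_one]
    · rintro U hU _ ⟨u, hu, rfl⟩
      simp only [Module.End.mul_apply, hinv, hU u hu]
    · rintro U hU _ ⟨u, hu, rfl⟩
      simp only [Module.End.mul_apply, hinv, hU u hu, map_zero]

end Pool.Agent.CoprimeSig
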