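import Pool.Agent.CoprimeSig.Opp
import Pool.Agent.CoprimeSig.WlSym
import Pool.Agent.CoprimeSig.Weights
import Pool.Agent.CoprimeSig.SymAct
import Pool.Agent.CoprimeSig.Move

/-!
# Transitivity of the symmetries on the weights
-/

set_option autoImplicit false

namespace Pool.Agent.CoprimeSig

open Module

variable {K H : Type*} [Field K] [AddCommGroup H] [Module K H] [FiniteDimensional K H]
  {g t : Submodule K (End K H)} {W' W'' : Submodule K H}

/-- Transitivity: a set of weights stable under all symmetries is everything. -/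
theorem trans [CharZero K] (C : Cartan g t) (hW' : ∀ x ∈ g, ∀ w ∈ W', x w ∈ W')
    (hW'' : ∀ x ∈ g, ∀ w ∈ W'', x w ∈ W'') (c : K) (S : Set (Submodule K H → Submodule K H))
    (hS : ∀ s ∈ S, IsSym t W' W'' s)
    (hirr : ∀ U ≤ W', (∀ x ∈ g, ∀ u ∈ U, x u ∈ U) → (∀ s ∈ S, s U ≤ U) →
      (∀ z : End K H, (∀ x ∈ g, z * x = x * z) → (∀ w ∈ W', z w ∈ W') → ∀ u ∈ U, z u ∈ U) →
      U = ⊥ ∨ U = W')
    (O : Set (Set (End K H))) (hO : O ⊆ Om t W' W'' c) (hne : O.Nonempty)
    (hst : ∀ s, IsSym t W' W'' s → ∀ A ∈ O, ∀ B ∈ Om t W' W'' c,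
      s (Wt t W' W'' c A) = Wt t W' W'' c B → B ∈ O) : O = Om t W' W'' c := by
  have hW't : ∀ x ∈ t, ∀ w ∈ W', x w ∈ W' := fun x hx => hW' x (C.le hx)
  obtain ⟨hfin, hsup, hind⟩ := weights C.toTor hW't (W'' := W'') c
  set U : Submodule K H := ⨆ A ∈ O, Wt t W' W'' c A with hU
  have hle : ∀ A ∈ O, Wt t W' W'' c A ≤ U := fun A hA => le_iSup₂_of_le A hA le_rfl
  have hUW : U ≤ W' := iSup₂_le fun A _ w hw => hw.1
  -- an operator which maps the weight spaces in `O` into `U` preserves `U`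
  have hmaps : ∀ x : End K H, (∀ A ∈ O, ∀ u ∈ Wt t W' W'' c A, x u ∈ U) → ∀ u ∈ U, x u ∈ U := by
    intro x hx
    have h1 : U ≤ U.comap x := iSup₂_le fun A hA u hu => hx A hA u hu
    exact fun u hu => h1 hu
  have hsym : ∀ s, IsSym t W' W'' s → ∀ A ∈ O, s (Wt t W' W'' c A) ≤ U := by
    intro s hs A hA
    obtain ⟨φ, π, _, hπ, _⟩ := sym_act C.toTor hW't c hs
    have h1 := hπ ⟨A, hO hA⟩
    simp only at h1
    rw [h1]
    exact hle _ (hst s hs A hA _ (π ⟨A, hO hA⟩).2 h1)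
  have hroot : ∀ x : End K H, ∀ α : End K H → K, IsRoot g t α x → ∀ u ∈ U, x u ∈ U := by
    intro x α hα
    refine hmaps x fun A hA u hu => ?_
    by_cases hxu : x u = 0
    · rw [hxu]
      exact U.zero_mem
    by_cases hε : ∃ ε ∈ EE t W'' c, α ε ≠ 0
    · obtain ⟨ε, hε, hαε⟩ := hε
      have hx0 : x ≠ 0 := by
        rintro rfl
        exact hxu rfl
      obtain ⟨h2, y, P⟩ := exists_opp C hα hx0 hε.1 hε.2.1 hαε
      exact hsym _ (isSym_wl C hW' hW'' P) A hA (root_move C hW' hW'' P hε h2 hu hxu)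
    · push Not at hε
      refine hle A hA ⟨hW' x hα.mem u hu.1, fun y hy => ?_⟩
      have h2 : y (x u) = x (y u) := by
        have h3 := hα.root y hy.1
        rw [hε y hy, zero_smul, sub_eq_zero] at h3
        exact LinearMap.congr_fun h3 u
      rw [h2]
      refine ⟨fun h => by rw [(hu.2 y hy).1 h], fun h => by rw [(hu.2 y hy).2 h, map_zero]⟩
  have hg : ∀ x ∈ g, ∀ u ∈ U, x u ∈ U := by
    intro x hx
    let N : Submodule K (End K H) :=
      { carrier := {x | ∀ u ∈ U, x u ∈ U}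
        add_mem' := fun {a b} ha hb u hu => U.add_mem (ha u hu) (hb u hu)
        zero_mem' := fun u _ => U.zero_mem
        smul_mem' := fun r a ha u hu => U.smul_mem r (ha u hu) }
    have h1 : Submodule.span K {z | ∃ α, IsRoot g t α z} ≤ N :=
      Submodule.span_le.mpr fun z ⟨α, hz⟩ => hroot z α hz
    exact h1 (mem_span_roots C hx)
  have hUne : U ≠ ⊥ := by
    obtain ⟨A, hA⟩ := hne
    intro h0
    exact (hO hA).2 (le_bot_iff.mp (h0 ▸ hle A hA))
  have hUtop : U = W' := by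
    refine (hirr U hUW hg ?_ ?_).resolve_left hUne
    · intro s hs
      have h1 : U = sSup (Set.range fun A : O => Wt t W' W'' c (A : Set (End K H))) := by
        rw [sSup_range, hU, iSup_subtype]
      rw [h1, (hS s hs).sup]
      refine sSup_le ?_
      rintro _ ⟨_, ⟨A, rfl⟩, rfl⟩
      rw [← h1]
      exact hsym s (hS s hs) A A.2
    · intro z hz hzW u hu
      refine hmaps z (fun A hA w hw => hle A hA ⟨hzW w hw.1, fun y hy => ?_⟩) u hu
      have h2 : y (z w) = z (y w) := (LinearMap.congr_fun (hz y (C.le hy.1)) w).symm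
      rw [h2]
      refine ⟨fun h => by rw [(hw.2 y hy).1 h], fun h => by rw [(hw.2 y hy).2 h, map_zero]⟩
  refine Set.Subset.antisymm hO fun B hB => ?_
  by_contra hBO
  have h1 := hind ⟨B, hB⟩
  have h2 : Wt t W' W'' c B ≤ ⨆ (A : Om t W' W'' c) (_ : A ≠ ⟨B, hB⟩),
      Wt t W' W'' c (A : Set (End K H)) := by
    have h3 : Wt t W' W'' c B ≤ U := by
      rw [hUtop]
      exact fun w hw => hw.1
    refine h3.trans (iSup₂_le fun A hA => ?_)
    refine le_iSup₂_of_le (f := fun (A : Om t W' W'' c) (_ : A ≠ ⟨B, hB⟩) =>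
      Wt t W' W'' c (A : Set (End K H))) ⟨A, hO hA⟩ ?_ le_rfl
    intro hAB
    have h4 : A = B := congrArg Subtype.val hAB
    exact hBO (h4 ▸ hA)
  exact hB.2 (le_bot_iff.mp (h1 le_rfl h2))

end Pool.Agent.CoprimeSig
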