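import Pool.Agent.CoprimeSig.Defs2
import Pool.Agent.GHC.FieldExt

/-!
# The endomorphisms of `ℂ` permute the embeddings of a number field transitively
-/

set_option autoImplicit false

namespace Pool.Agent.CoprimeSig

open Module

variable {K : Type} [Field K] [NumberField K]

/-- CS23 (file Ext.lean). -/
theorem exists_comp_eq (σ₀ σ : K →+* ℂ) : ∃ τ : ℂ →+* ℂ, τ.comp σ₀ = σ := by
  let : Algebra K ℂ := σ₀.toAlgebra
  have halg : Algebra.IsAlgebraic ℚ K := inferInstance
  obtain ⟨τ, hτ⟩ := Pool.Agent.GHC.exists_extension (K := K) σ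
  exact ⟨τ, RingHom.ext fun x => hτ x⟩

end Pool.Agent.CoprimeSig
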