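import Pool.Agent.CoprimeSig.Cj
import Pool.Agent.CoprimeSig.Ext

/-!
# The decomposition of a space with an action of a number field
-/

set_option autoImplicit false
set_option linter.unusedSectionVars false

namespace Pool.Agent.CoprimeSig

open Module Polynomial

variable {ι : Type} [Fintype ι] [DecidableEq ι] {K : Type} [Field K]

/-- The action of `K` by complex linear maps. -/
noncomputable def hsEnd (R : K →+* Matrix ι ι ℚ) : K →+* End ℂ (ι → ℂ) :=
  ((Matrix.toLinAlgEquiv' (R := ℂ) (n := ι)).toRingEquiv.toRingHom.comp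
    (Rat.castHom ℂ).mapMatrix).comp R

theorem hsEnd_apply (R : K →+* Matrix ι ι ℚ) (r : K) (v : ι → ℂ) :
    hsEnd R r v = (ratM (R r)).mulVec v := rfl

theorem mem_HS' {R : K →+* Matrix ι ι ℚ} {σ : K →+* ℂ} {v : ι → ℂ} :
    v ∈ HS R σ ↔ ∀ r, hsEnd R r v = σ r • v := Iff.rfl

variable [NumberField K]

theorem hsEnd_aeval (R : K →+* Matrix ι ι ℚ) (θ : K) (p : ℚ[X]) :
    hsEnd R (aeval θ p) = aeval (hsEnd R θ) (p.map (algebraMap ℚ ℂ)) := by
  rw [aeval_map_algebraMap]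
  exact (aeval_algHom_apply (hsEnd R).toRatAlgHom θ p).symm

theorem hs_emb_aeval (σ : K →+* ℂ) (θ : K) (p : ℚ[X]) :
    σ (aeval θ p) = (p.map (algebraMap ℚ ℂ)).eval (σ θ) := by
  rw [eval_map_algebraMap]
  exact (aeval_algHom_apply σ.toRatAlgHom θ p).symm

theorem hs_aeval_apply (f : End ℂ (ι → ℂ)) (μ : ℂ) {v : ι → ℂ} (h : f v = μ • v) (p : ℂ[X]) :
    aeval f p v = p.eval μ • v := by
  by_cases hv : v = 0
  · rw [hv, map_zero, smul_zero]
  · exact Module.End.aeval_apply_of_hasEigenvector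
      ⟨Module.End.mem_eigenspace_iff.mpr h, hv⟩

/-- The eigenspaces of `K` are those of a primitive element. -/
theorem HS_eq_eigenspace (R : K →+* Matrix ι ι ℚ) (pb : PowerBasis ℚ K) (σ : K →+* ℂ) :
    HS R σ = (hsEnd R pb.gen).eigenspace (σ pb.gen) := by
  ext v
  rw [mem_HS', Module.End.mem_eigenspace_iff]
  constructor
  · intro h
    exact h pb.gen
  · intro h r
    obtain ⟨p, rfl⟩ := pb.exists_eq_aeval' r
    rw [hsEnd_aeval, hs_emb_aeval]
    exact hs_aeval_apply _ _ h _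

theorem iSup_HS (R : K →+* Matrix ι ι ℚ) : (⨆ σ, HS R σ) = ⊤ := by
  let pb := Field.powerBasisOfFiniteOfSeparable ℚ K
  have hint : IsIntegral ℚ pb.gen := Algebra.IsIntegral.isIntegral pb.gen
  have h0 : aeval (hsEnd R pb.gen) ((minpoly ℚ pb.gen).map (algebraMap ℚ ℂ)) = 0 := by
    rw [← hsEnd_aeval, minpoly.aeval, map_zero]
  have hsq : Squarefree ((minpoly ℚ pb.gen).map (algebraMap ℚ ℂ)) :=
    ((minpoly.irreducible hint).separable.map).squarefree
  have hss : (hsEnd R pb.gen).IsSemisimple :=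
    Module.End.isSemisimple_of_squarefree_aeval_eq_zero hsq h0
  rw [eq_top_iff, ← hss.iSup_eigenspace_eq_top]
  apply iSup_le
  intro μ v hv
  by_cases hv0 : v = 0
  · rw [hv0]
    exact Submodule.zero_mem _
  have h1 : ((minpoly ℚ pb.gen).map (algebraMap ℚ ℂ)).eval μ = 0 := by
    have h2 := hs_aeval_apply _ μ (Module.End.mem_eigenspace_iff.mp hv)
      ((minpoly ℚ pb.gen).map (algebraMap ℚ ℂ))
    rw [h0, LinearMap.zero_apply] at h2
    exact (smul_eq_zero.mp h2.symm).resolve_right hv0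
  have h3 : μ ∈ (minpoly ℚ pb.gen).rootSet ℂ := by
    rw [mem_rootSet]
    refine ⟨minpoly.ne_zero hint, ?_⟩
    rwa [← eval_map_algebraMap]
  rw [← NumberField.Embeddings.range_eval_eq_rootSet_minpoly K ℂ pb.gen] at h3
  obtain ⟨σ, rfl⟩ := h3
  have h4 : HS R σ ≤ ⨆ σ, HS R σ := le_iSup _ σ
  rw [HS_eq_eigenspace R pb σ] at h4
  exact h4 hv

theorem iSupIndep_HS (R : K →+* Matrix ι ι ℚ) : iSupIndep (HS R) := by
  let pb := Field.powerBasisOfFiniteOfSeparable ℚ K
  have h1 : HS R = fun σ => (hsEnd R pb.gen).eigenspace (σ pb.gen) :=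
    funext fun σ => HS_eq_eigenspace R pb σ
  rw [h1]
  have h2 : Function.Injective fun σ : K →+* ℂ => σ pb.gen := by
    intro σ τ h
    have h3 : σ.toRatAlgHom = τ.toRatAlgHom := pb.algHom_ext h
    ext x
    exact congrArg (fun f : K →ₐ[ℚ] ℂ => f x) h3
  exact (Module.End.eigenspaces_iSupIndep (hsEnd R pb.gen)).comp h2

theorem finrank_HS_le (R : K →+* Matrix ι ι ℚ) (σ σ' : K →+* ℂ) :
    finrank ℂ (HS R σ) ≤ finrank ℂ (HS R σ') := by
  obtain ⟨τ, rfl⟩ := exists_comp_eq σ σ'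
  rw [← cj_rank τ]
  exact Submodule.finrank_mono (cj_HS_le τ R σ)

/-- CS19 (file HSum.lean). -/
theorem HS_decomp (R : K →+* Matrix ι ι ℚ) :
    (⨆ σ, HS R σ) = ⊤ ∧ iSupIndep (HS R) ∧
      ∀ σ, finrank ℂ (HS R σ) * finrank ℚ K = Fintype.card ι := by
  classical
  refine ⟨iSup_HS R, iSupIndep_HS R, fun σ => ?_⟩
  have h1 : DirectSum.IsInternal (HS R) :=
    DirectSum.isInternal_submodule_of_iSupIndep_of_iSup_eq_top (iSupIndep_HS R) (iSup_HS R)
  have h2 := (LinearEquiv.ofBijective (DirectSum.coeLinearMap (HS R)) h1).finrank_eq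
  rw [finrank_directSum, finrank_fintype_fun_eq_card] at h2
  rw [← h2, ← NumberField.Embeddings.card K ℂ,
    Finset.sum_congr rfl fun τ _ => le_antisymm (finrank_HS_le R τ σ) (finrank_HS_le R σ τ),
    Finset.sum_const, Finset.card_univ, smul_eq_mul, mul_comm]

end Pool.Agent.CoprimeSig
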