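import Pool.Agent.CoprimeSig.Defs2

/-!
# The conjugates of subspaces under the endomorphisms of `ℂ`
-/

set_option autoImplicit false
set_option linter.unusedSectionVars false

namespace Pool.Agent.CoprimeSig

open Module

variable {ι : Type} [Fintype ι] [DecidableEq ι] {g t : Submodule ℂ (Matrix ι ι ℂ)}
  {K : Type} [Field K] {R : K →+* Matrix ι ι ℚ}

/-- The entrywise action of `τ`, as a semilinear map. -/
def cjMap (ι : Type) (τ : ℂ →+* ℂ) : (ι → ℂ) →ₛₗ[τ] (ι → ℂ) where
  toFun v := fun i => τ (v i)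
  map_add' u v := funext fun i => map_add τ (u i) (v i)
  map_smul' c v := funext fun i => map_mul τ c (v i)

theorem cjMap_apply (τ : ℂ →+* ℂ) (v : ι → ℂ) : cjMap ι τ v = fun i => τ (v i) := rfl

theorem cj_le_iff (τ : ℂ →+* ℂ) (U N : Submodule ℂ (ι → ℂ)) :
    cj τ U ≤ N ↔ U ≤ N.comap (cjMap ι τ) := by
  rw [cj, Submodule.span_le]
  constructor
  · intro h v hv
    exact h ⟨v, hv, rfl⟩
  · rintro h u ⟨v, hv, rfl⟩
    exact h hv

theorem cj_mono (τ : ℂ →+* ℂ) {U V : Submodule ℂ (ι → ℂ)} (h : U ≤ V) : cj τ U ≤ cj τ V :=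
  (cj_le_iff τ U _).mpr (h.trans ((cj_le_iff τ V _).mp le_rfl))

theorem mem_cj {τ : ℂ →+* ℂ} {U : Submodule ℂ (ι → ℂ)} {v : ι → ℂ} (hv : v ∈ U) :
    (fun i => τ (v i)) ∈ cj τ U := Submodule.subset_span ⟨v, hv, rfl⟩

/-- CS20 (file Cj.lean). -/
theorem cj_sSup (τ : ℂ →+* ℂ) (S : Set (Submodule ℂ (ι → ℂ))) :
    cj τ (sSup S) = sSup (cj τ '' S) := by
  apply le_antisymm
  · rw [cj_le_iff]
    apply sSup_le
    intro U hU
    rw [← cj_le_iff]
    exact le_sSup ⟨U, hU, rfl⟩
  · apply sSup_le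
    rintro _ ⟨U, hU, rfl⟩
    exact cj_mono τ (le_sSup hU)

theorem cj_linInd {n : Type} [Fintype n] [DecidableEq n] (τ : ℂ →+* ℂ) {v : n → ι → ℂ}
    (hv : LinearIndependent ℂ v) : LinearIndependent ℂ fun k i => τ (v k i) := by
  have h1 : Function.Injective (Matrix.of v).transpose.mulVec :=
    Matrix.mulVec_injective_iff.mpr hv
  obtain ⟨f, hf⟩ := LinearMap.exists_leftInverse_of_injective
    (Matrix.toLin' (Matrix.of v).transpose) (LinearMap.ker_eq_bot.mpr h1)
  have h2 : LinearMap.toMatrix' f * (Matrix.of v).transpose = 1 := by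
    have := congrArg LinearMap.toMatrix' hf
    rwa [LinearMap.toMatrix'_comp, LinearMap.toMatrix'_toLin', LinearMap.toMatrix'_id] at this
  have h3 : (LinearMap.toMatrix' f).map τ * (Matrix.of v).transpose.map τ = 1 := by
    rw [← Matrix.map_mul, h2, Matrix.map_one _ (map_zero τ) (map_one τ)]
  have h4 : Function.Injective ((Matrix.of v).transpose.map τ).mulVec := by
    intro a b hab
    have := congrArg ((LinearMap.toMatrix' f).map τ).mulVec hab
    simp only [Matrix.mulVec_mulVec, h3, Matrix.one_mulVec] at this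
    exact this
  exact Matrix.mulVec_injective_iff.mp h4

theorem cj_rank (τ : ℂ →+* ℂ) (U : Submodule ℂ (ι → ℂ)) :
    finrank ℂ (cj τ U) = finrank ℂ U := by
  let b := Module.finBasis ℂ U
  have hb : LinearIndependent ℂ fun k => ((b k : U) : ι → ℂ) :=
    b.linearIndependent.map' U.subtype (Submodule.ker_subtype U)
  have h1 := cj_linInd τ hb
  have h2 : cj τ U = Submodule.span ℂ (Set.range fun (k : Fin (finrank ℂ U)) i =>
      τ (((b k : U) : ι → ℂ) i)) := by
    apply le_antisymm
    · rw [cj_le_iff]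
      intro v hv
      rw [Submodule.mem_comap]
      have h3 : v = ∑ k, (b.repr ⟨v, hv⟩ k) • ((b k : U) : ι → ℂ) := by
        have h4 := congrArg U.subtype (b.sum_repr ⟨v, hv⟩)
        rw [map_sum] at h4
        exact h4.symm
      rw [h3, map_sum]
      refine Submodule.sum_mem _ fun k _ => ?_
      rw [LinearMap.map_smulₛₗ]
      exact Submodule.smul_mem _ _ (Submodule.subset_span ⟨k, rfl⟩)
    · rw [Submodule.span_le]
      rintro _ ⟨k, rfl⟩
      exact mem_cj (b k).2
  rw [h2, finrank_span_eq_card h1, Fintype.card_fin]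

theorem ratM_mulVec_cj (τ : ℂ →+* ℂ) (Q : Matrix ι ι ℚ) (v : ι → ℂ) :
    (ratM Q).mulVec (fun i => τ (v i)) = fun i => τ ((ratM Q).mulVec v i) := by
  funext i
  simp only [Matrix.mulVec, dotProduct, map_sum, map_mul, ratM, Matrix.map_apply, map_ratCast]

theorem cj_HS_le (τ : ℂ →+* ℂ) (R : K →+* Matrix ι ι ℚ) (σ : K →+* ℂ) :
    cj τ (HS R σ) ≤ HS R (τ.comp σ) := by
  rw [cj_le_iff]
  intro v hv
  rw [Submodule.mem_comap, cjMap_apply, mem_HS]
  intro r
  rw [ratM_mulVec_cj, hv r]
  funext i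
  simp

/-- The map of the linear maps induced by `τ`. -/
noncomputable def cjEnd (ι : Type) [Fintype ι] [DecidableEq ι] (τ : ℂ →+* ℂ)
    (y : End ℂ (ι → ℂ)) : End ℂ (ι → ℂ) :=
  Matrix.toLin' ((LinearMap.toMatrix' y).map τ)

theorem cjEnd_apply_cj (τ : ℂ →+* ℂ) (y : End ℂ (ι → ℂ)) (v : ι → ℂ) :
    cjEnd ι τ y (fun i => τ (v i)) = fun i => τ (y v i) := by
  have h : y v = (LinearMap.toMatrix' y).mulVec v := by
    rw [← Matrix.toLin'_apply, Matrix.toLin'_toMatrix']
  rw [h]
  funext i
  simp [cjEnd, Matrix.mulVec, dotProduct, map_sum, map_mul]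

theorem isSym_cj (ht : ∀ σ : ℂ →+* ℂ, ∀ x ∈ t, x.map σ ∈ t) (τ : ℂ →+* ℂ)
    {W' W'' : Submodule ℂ (ι → ℂ)} (h' : cj τ W' ≤ W') (h'' : cj τ W'' ≤ W'') :
    IsSym (endo t) W' W'' (cj τ) where
  sup := cj_sSup τ
  rank := cj_rank τ
  fst := h'
  snd := h''
  idem := by
    refine ⟨cjEnd ι τ, ?_, ?_⟩
    · intro y _ z _ hyz
      have h1 : (LinearMap.toMatrix' y).map τ = (LinearMap.toMatrix' z).map τ :=
        (Matrix.toLin' (R := ℂ)).injective hyz
      have h2 : LinearMap.toMatrix' y = LinearMap.toMatrix' z :=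
        Matrix.map_injective τ.injective h1
      exact (LinearMap.toMatrix' (R := ℂ)).injective h2
    · intro y hy hyy
      have hm : LinearMap.toMatrix' y * LinearMap.toMatrix' y = LinearMap.toMatrix' y := by
        rw [← LinearMap.toMatrix'_mul, hyy]
      refine ⟨?_, ?_, ?_, ?_, ?_⟩
      · obtain ⟨x, hx, rfl⟩ := hy
        refine mem_endo.mpr ?_
        change (LinearMap.toMatrix' (Matrix.toLin' x)).map τ ∈ t
        rw [LinearMap.toMatrix'_toLin']
        exact ht τ x hx
      · change Matrix.toLin' _ * Matrix.toLin' _ = Matrix.toLin' _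
        rw [Module.End.mul_eq_comp, ← Matrix.toLin'_mul, ← Matrix.map_mul, hm]
      · have hidem : IsIdempotentElem y := hyy
        have h3 : LinearMap.trace ℂ (ι → ℂ) y = (finrank ℂ (LinearMap.range y) : ℂ) :=
          (LinearMap.IsIdempotentElem.isProj_range y hidem).trace
        have h4 : LinearMap.trace ℂ (ι → ℂ) (cjEnd ι τ y) =
            τ (LinearMap.trace ℂ (ι → ℂ) y) := by
          have h5 : LinearMap.trace ℂ (ι → ℂ) y = (LinearMap.toMatrix' y).trace := by
            conv_lhs => rw [← Matrix.toLin'_toMatrix' y]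
            rw [Matrix.trace_toLin'_eq]
          rw [h5, cjEnd, Matrix.trace_toLin'_eq]
          simp [Matrix.trace, map_sum]
        rw [h4, h3, map_natCast]
      · intro U hU
        have h6 : cj τ U ≤ LinearMap.ker (cjEnd ι τ y - 1) := by
          rw [cj_le_iff]
          intro u hu
          rw [Submodule.mem_comap, cjMap_apply, LinearMap.mem_ker, LinearMap.sub_apply,
            cjEnd_apply_cj, hU u hu]
          exact sub_self _
        intro u hu
        have := h6 hu
        rw [LinearMap.mem_ker, LinearMap.sub_apply] at this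
        exact sub_eq_zero.mp this
      · intro U hU
        have h6 : cj τ U ≤ LinearMap.ker (cjEnd ι τ y) := by
          rw [cj_le_iff]
          intro u hu
          rw [Submodule.mem_comap, cjMap_apply, LinearMap.mem_ker, cjEnd_apply_cj, hU u hu]
          funext i
          simp
        intro u hu
        exact h6 hu

end Pool.Agent.CoprimeSig
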