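import Pool.Agent.CoprimeSig.HSum
import Pool.Agent.CoprimeSig.Cj
import Pool.Agent.CoprimeSig.Ext

/-!
# From the diagonal elements of the torus to the coroots
-/

set_option autoImplicit false

namespace Pool.Agent.CoprimeSig

open Module

variable {ι : Type} [Fintype ι] [DecidableEq ι] {g t : Submodule ℂ (Matrix ι ι ℂ)}
  {J E : Matrix ι ι ℝ} {K : Type} [Field K] [NumberField K] {R : K →+* Matrix ι ι ℚ}

/-- The polarisation is invertible. -/
private theorem coroot_det (D : MTData g J E) : (E.map Complex.ofReal).det ≠ 0 := by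
  have h1 : (J.transpose * E).det ≠ 0 := D.pos.det_pos.ne'
  rw [Matrix.det_mul] at h1
  have h2 : E.det ≠ 0 := right_ne_zero_of_mul h1
  have h3 : (E.map Complex.ofReal).det = ((E.det : ℝ) : ℂ) :=
    (RingHom.map_det Complex.ofRealHom E).symm
  rw [h3]
  exact_mod_cast h2

/-- The multiplier of an element of `g`. -/
private theorem coroot_mult [Nonempty ι] (D : MTData g J E) {x : Matrix ι ι ℂ} (hx : x ∈ g) :
    x.transpose * E.map Complex.ofReal + E.map Complex.ofReal * x =
      (2 * x.trace / Fintype.card ι) • E.map Complex.ofReal := by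
  obtain ⟨κ, hκ⟩ := D.sim x hx
  have hdet := coroot_det D
  set F := E.map Complex.ofReal with hF
  have hFF : F * F⁻¹ = 1 := Matrix.mul_nonsing_inv F (isUnit_iff_ne_zero.mpr hdet)
  have hFF' : F⁻¹ * F = 1 := Matrix.nonsing_inv_mul F (isUnit_iff_ne_zero.mpr hdet)
  have h1 : x.transpose + F * x * F⁻¹ = κ • (1 : Matrix ι ι ℂ) := by
    have h2 := congrArg (fun M => M * F⁻¹) hκ
    simp only [Matrix.add_mul, Matrix.smul_mul, Matrix.mul_assoc, hFF, Matrix.mul_one] at h2
    rw [Matrix.mul_assoc]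
    exact h2
  have h3 := congrArg Matrix.trace h1
  rw [Matrix.trace_add, Matrix.trace_transpose, Matrix.trace_smul, Matrix.trace_one,
    Matrix.mul_assoc, Matrix.trace_mul_comm F, Matrix.mul_assoc, hFF', Matrix.mul_one,
    smul_eq_mul] at h3
  have hc : (Fintype.card ι : ℂ) ≠ 0 := by
    exact_mod_cast Fintype.card_ne_zero
  rw [hκ]
  congr 1
  rw [eq_div_iff hc, ← h3]
  ring

private theorem coroot_map_mulVec (τ : ℂ →+* ℂ) (x : Matrix ι ι ℂ) (u : ι → ℂ) :
    (x.map τ).mulVec (fun i => τ (u i)) = fun i => τ (x.mulVec u i) := by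
  funext i
  simp only [Matrix.mulVec, dotProduct, Matrix.map_apply, map_sum, map_mul]

/-- The eigenspaces are conjugate. -/
private theorem coroot_HS (τ : ℂ →+* ℂ) (R : K →+* Matrix ι ι ℚ) (σ : K →+* ℂ) :
    cj τ (HS R σ) = HS R (τ.comp σ) := by
  apply Submodule.eq_of_le_of_finrank_eq (cj_HS_le τ R σ)
  rw [cj_rank]
  have h1 := (HS_decomp R).2.2 σ
  have h2 := (HS_decomp R).2.2 (τ.comp σ)
  have h3 : 0 < finrank ℚ K := finrank_pos
  exact Nat.eq_of_mul_eq_mul_right h3 (h1.trans h2.symm)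

/-- Composition with an endomorphism of `ℂ` permutes the embeddings. -/
private theorem coroot_surj (τ : ℂ →+* ℂ) (σ : K →+* ℂ) : ∃ σ' : K →+* ℂ, τ.comp σ' = σ := by
  have hinj : Function.Injective (fun φ : K →+* ℂ => τ.comp φ) := by
    intro φ ψ h
    ext x
    exact τ.injective (congrArg (fun f : K →+* ℂ => f x) h)
  exact Finite.injective_iff_surjective.mp hinj σ

/-- Half of the embeddings map `s` to the same square root. -/
private theorem coroot_half (s : K) (d : ℚ) (hd : 0 < d) (hs : s * s = -algebraMap ℚ K d)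
    (σ₀ : K →+* ℂ) [DecidablePred fun σ : K →+* ℂ => σ s = σ₀ s] :
    2 * Fintype.card {σ : K →+* ℂ // σ s = σ₀ s} = finrank ℚ K := by
  have hsq : ∀ σ : K →+* ℂ, σ s * σ s = -(d : ℂ) := by
    intro σ
    rw [← map_mul, hs, map_neg]
    congr 1
    simp
  have hpm : ∀ σ : K →+* ℂ, σ s = σ₀ s ∨ σ s = -σ₀ s := by
    intro σ
    have h1 : σ s * σ s = σ₀ s * σ₀ s := by rw [hsq, hsq]
    exact mul_self_eq_mul_self_iff.mp h1
  have hcj : ∀ σ : K →+* ℂ, (starRingEnd ℂ) (σ s) = -σ s := by
    intro σ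
    have h0 : σ s ≠ 0 := by
      intro h
      have := hsq σ
      rw [h, mul_zero] at this
      have h2 : (d : ℂ) = 0 := by
        rw [← neg_neg (d : ℂ), ← this, neg_zero]
      have h3 : d = 0 := by exact_mod_cast h2
      exact hd.ne' h3
    have h1 : (starRingEnd ℂ) (σ s) * (starRingEnd ℂ) (σ s) = σ s * σ s := by
      rw [← map_mul, hsq]
      simp
    rcases mul_self_eq_mul_self_iff.mp h1 with h | h
    · exfalso
      obtain ⟨r, hr⟩ := Complex.conj_eq_iff_real.mp h
      have h2 := hsq σ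
      rw [hr] at h2
      have h3 : r * r = -(d : ℝ) := by exact_mod_cast h2
      have h4 : (0 : ℝ) < d := by exact_mod_cast hd
      nlinarith [mul_self_nonneg r]
    · exact h
  have hne : σ₀ s ≠ -σ₀ s := by
    intro h
    have h1 : σ₀ s = 0 := by
      have : (2 : ℂ) * σ₀ s = 0 := by linear_combination h
      simpa using this
    have h2 := hsq σ₀
    rw [h1, mul_zero] at h2
    have h3 : (d : ℂ) = 0 := by
      rw [← neg_neg (d : ℂ), ← h2, neg_zero]
    have h4 : d = 0 := by exact_mod_cast h3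
    exact hd.ne' h4
  have hcard : Fintype.card {σ : K →+* ℂ // σ s = σ₀ s} =
      Fintype.card {σ : K →+* ℂ // ¬ σ s = σ₀ s} := by
    refine Fintype.card_congr ⟨fun σ => ⟨(starRingEnd ℂ).comp σ.1, ?_⟩,
      fun σ => ⟨(starRingEnd ℂ).comp σ.1, ?_⟩, ?_, ?_⟩
    · rw [RingHom.comp_apply, hcj, σ.2]
      exact fun h => hne h.symm
    · rw [RingHom.comp_apply, hcj, (hpm σ.1).resolve_left σ.2, neg_neg]
    · intro σ
      apply Subtype.ext
      ext x
      simp
    · intro σ
      apply Subtype.ext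
      ext x
      simp
  have h1 := Fintype.card_subtype_compl (fun σ : K →+* ℂ => σ s = σ₀ s)
  have h2 := Fintype.card_subtype_le (fun σ : K →+* ℂ => σ s = σ₀ s)
  have h3 := NumberField.Embeddings.card K ℂ
  omega

/-- CS24. From the diagonal elements of `t` on `HS R σ₀` to the coroots. -/
theorem coroots (D : MTData g J E) (hK : ∀ r, ∀ x ∈ g, x * ratM (R r) = ratM (R r) * x)
    (htg : t ≤ g) (hone : (1 : Matrix ι ι ℂ) ∈ t) (hconj : ∀ σ : ℂ →+* ℂ, ∀ x ∈ t, x.map σ ∈ t)
    (s : K) (d : ℚ) (hd : 0 < d) (hs : s * s = -algebraMap ℚ K d)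
    (hskew : (ratM (R s)).transpose * E.map Complex.ofReal =
      -(E.map Complex.ofReal * ratM (R s)))
    (σ₀ : K →+* ℂ) {n a : ℕ} (ha0 : a ≠ 0) (ha : 4 * a ≠ Fintype.card ι)
    (v : Basis (Fin n) ℂ (HS R σ₀)) (x : Fin n → Matrix ι ι ℂ) (hxt : ∀ i, x i ∈ t)
    (hxv : ∀ i j, (x i).mulVec (v j : ι → ℂ) = if j = i then (v j : ι → ℂ) else 0)
    (hx0 : ∀ i, ∀ σ : K →+* ℂ, σ s = σ₀ s → σ ≠ σ₀ → ∀ w ∈ HS R σ, (x i).mulVec w = 0)
    (hxtr : ∀ i, (x i).trace = (Fintype.card ι : ℂ) / (2 * a)) :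
    ∃ (I : Type) (_ : Fintype I) (_ : DecidableEq I) (w : I → ι → ℂ), LinearIndependent ℂ w ∧
      (Submodule.span ℂ (Set.range w) : Submodule ℂ (ι → ℂ)) =
        Module.End.eigenspace (Matrix.toLin' (ratM (R s))) (σ₀ s) ∧
      ∀ i, ∃ c ∈ t, (∀ j, c.mulVec (w j) = if j = i then w j else 0) ∧
        c.transpose * E.map Complex.ofReal + E.map Complex.ofReal * c = 0 := by
  classical
  have hsq : ∀ σ : K →+* ℂ, σ s * σ s = -(d : ℂ) := by
    intro σ
    rw [← map_mul, hs, map_neg]
    congr 1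
    simp
  have hpm : ∀ σ : K →+* ℂ, σ s = σ₀ s ∨ σ s = -σ₀ s := by
    intro σ
    have h1 : σ s * σ s = σ₀ s * σ₀ s := by rw [hsq, hsq]
    exact mul_self_eq_mul_self_iff.mp h1
  have hδ0 : σ₀ s ≠ 0 := by
    intro h
    have h2 := hsq σ₀
    rw [h, mul_zero] at h2
    have h3 : (d : ℂ) = 0 := by
      rw [← neg_neg (d : ℂ), ← h2, neg_zero]
    have h4 : d = 0 := by exact_mod_cast h3
    exact hd.ne' h4
  choose τ hτ using fun σ : {σ : K →+* ℂ // σ s = σ₀ s} => exists_comp_eq σ₀ σ.1
  set w : {σ : K →+* ℂ // σ s = σ₀ s} × Fin n → ι → ℂ :=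
    fun p i => τ p.1 ((v p.2 : ι → ℂ) i) with hw
  set y : {σ : K →+* ℂ // σ s = σ₀ s} × Fin n → Matrix ι ι ℂ := fun p => (x p.2).map (τ p.1) with hy
  have hyt : ∀ p, y p ∈ t := fun p => hconj _ _ (hxt _)
  have hwHS : ∀ p, w p ∈ HS R p.1.1 := by
    intro p
    have h1 : w p ∈ cj (τ p.1) (HS R σ₀) := Submodule.subset_span ⟨_, (v p.2).2, rfl⟩
    rw [coroot_HS, hτ] at h1
    exact h1
  have hyw : ∀ p q, (y p).mulVec (w q) = if q = p then w q else 0 := by
    intro p q
    by_cases hpq : q.1 = p.1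
    · simp only [hw, hy, hpq]
      rw [coroot_map_mulVec, hxv]
      by_cases h2 : q.2 = p.2
      · rw [if_pos h2, if_pos (Prod.ext hpq h2)]
      · rw [if_neg h2, if_neg (fun h => h2 (congrArg Prod.snd h))]
        funext i
        simp
    · rw [if_neg (fun h => hpq (congrArg Prod.fst h))]
      obtain ⟨σ', hσ'⟩ := coroot_surj (τ p.1) q.1.1
      have h1 : σ' ≠ σ₀ := by
        intro h
        apply hpq
        apply Subtype.ext
        rw [← hσ', h, hτ]
      have h2 : σ' s = σ₀ s := by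
        apply (τ p.1).injective
        have h3 : (τ p.1) (σ' s) = q.1.1 s := by rw [← hσ']; rfl
        have h4 : (τ p.1) (σ₀ s) = p.1.1 s := by rw [← hτ p.1]; rfl
        rw [h3, h4, q.1.2, p.1.2]
      have h3 : w q ∈ cj (τ p.1) (HS R σ') := by
        rw [coroot_HS, hσ']
        exact hwHS q
      unfold cj at h3
      refine Submodule.span_induction (p := fun u _ => (y p).mulVec u = 0) ?_ ?_ ?_ ?_ h3
      · rintro _ ⟨u, hu, rfl⟩
        simp only [hy]
        rw [coroot_map_mulVec, hx0 p.2 σ' h2 h1 u hu]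
        funext i
        simp
      · exact Matrix.mulVec_zero _
      · intro u u' _ _ h4 h5
        rw [Matrix.mulVec_add, h4, h5, add_zero]
      · intro c u _ h4
        rw [Matrix.mulVec_smul, h4, smul_zero]
  have hw0 : ∀ p, w p ≠ 0 := by
    intro p h
    apply v.ne_zero p.2
    apply Subtype.ext
    funext i
    have h1 := congrFun h i
    simp only [hw] at h1
    have h2 : τ p.1 ((v p.2 : ι → ℂ) i) = τ p.1 0 := by rw [h1, map_zero]; rfl
    exact (τ p.1).injective h2
  have hli : LinearIndependent ℂ w := by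
    rw [Fintype.linearIndependent_iff]
    intro c hc p
    have h1 := congrArg (y p).mulVec hc
    rw [Matrix.mulVec_zero] at h1
    have h2 : (y p).mulVec (∑ q, c q • w q) = c p • w p := by
      rw [Matrix.mulVec_sum]
      rw [Finset.sum_eq_single p]
      · rw [Matrix.mulVec_smul, hyw, if_pos rfl]
      · intro q _ hq
        rw [Matrix.mulVec_smul, hyw, if_neg hq, smul_zero]
      · intro h
        exact absurd (Finset.mem_univ p) h
    rw [h2] at h1
    exact (smul_eq_zero.mp h1).resolve_right (hw0 p)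
  have hspanσ : ∀ σ : {σ : K →+* ℂ // σ s = σ₀ s}, HS R σ.1 ≤ Submodule.span ℂ (Set.range w) := by
    intro σ
    have h1 : HS R σ.1 = cj (τ σ) (HS R σ₀) := by rw [coroot_HS, hτ]
    rw [h1]
    unfold cj
    rw [Submodule.span_le]
    rintro _ ⟨u, hu, rfl⟩
    have h2 : u = ∑ j, (v.repr ⟨u, hu⟩ j) • (v j : ι → ℂ) := by
      have h3 := congrArg (HS R σ₀).subtype (v.sum_repr ⟨u, hu⟩)
      rw [map_sum] at h3
      exact h3.symm
    have h3 : (fun i => τ σ (u i)) = ∑ j, (τ σ (v.repr ⟨u, hu⟩ j)) • w (σ, j) := by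
      funext i
      conv_lhs => rw [h2]
      simp only [hw, Finset.sum_apply, Pi.smul_apply, smul_eq_mul, map_sum, map_mul]
    rw [h3]
    exact Submodule.sum_mem _ fun j _ => Submodule.smul_mem _ _ (Submodule.subset_span ⟨_, rfl⟩)
  have hspan : (Submodule.span ℂ (Set.range w) : Submodule ℂ (ι → ℂ)) =
      Module.End.eigenspace (Matrix.toLin' (ratM (R s))) (σ₀ s) := by
    apply le_antisymm
    · rw [Submodule.span_le]
      rintro _ ⟨p, rfl⟩
      rw [SetLike.mem_coe, Module.End.mem_eigenspace_iff, Matrix.toLin'_apply, hwHS p s, p.1.2]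
    · intro u hu
      rw [Module.End.mem_eigenspace_iff, Matrix.toLin'_apply] at hu
      have hle : (⨆ σ, HS R σ) ≤ (Submodule.span ℂ (Set.range w)).comap
          (Matrix.toLin' (ratM (R s)) + σ₀ s • LinearMap.id) := by
        refine iSup_le fun σ => ?_
        intro z hz
        rw [Submodule.mem_comap, LinearMap.add_apply, LinearMap.smul_apply, LinearMap.id_apply,
          Matrix.toLin'_apply, hz s, ← add_smul]
        rcases hpm σ with h | h
        · exact Submodule.smul_mem _ _ (hspanσ ⟨σ, h⟩ hz)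
        · rw [h, neg_add_cancel, zero_smul]
          exact Submodule.zero_mem _
      rw [(HS_decomp R).1] at hle
      have h1 : u ∈ (Submodule.span ℂ (Set.range w)).comap
          (Matrix.toLin' (ratM (R s)) + σ₀ s • LinearMap.id) := hle Submodule.mem_top
      rw [Submodule.mem_comap, LinearMap.add_apply, LinearMap.smul_apply, LinearMap.id_apply,
        Matrix.toLin'_apply, hu, ← add_smul] at h1
      have h2 : σ₀ s + σ₀ s ≠ 0 := by
        intro h
        apply hδ0
        have : (2 : ℂ) * σ₀ s = 0 := by linear_combination h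
        simpa using this
      have h3 := Submodule.smul_mem _ (σ₀ s + σ₀ s)⁻¹ h1
      rwa [smul_smul, inv_mul_cancel₀ h2, one_smul] at h3
  refine ⟨_, inferInstance, inferInstance, w, hli, hspan, ?_⟩
  intro p
  have hne : Nonempty ι := by
    by_contra h
    rw [not_nonempty_iff] at h
    exact hw0 p (Subsingleton.elim _ _)
  set S : Matrix ι ι ℂ := ∑ q, y q with hS
  have hSt : S ∈ t := Submodule.sum_mem _ fun q _ => hyt q
  have hc : (Fintype.card ι : ℂ) ≠ 0 := by
    exact_mod_cast Fintype.card_ne_zero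
  have ha' : (a : ℂ) ≠ 0 := by exact_mod_cast ha0
  have hytr : ∀ q, (y q).trace = (Fintype.card ι : ℂ) / (2 * a) := by
    intro q
    have h1 : (y q).trace = τ q.1 ((x q.2).trace) := by
      simp only [hy, Matrix.trace, Matrix.diag, Matrix.map_apply, map_sum]
    rw [h1, hxtr, map_div₀, map_mul, map_natCast, map_natCast, map_ofNat]
  have hcardI : (Fintype.card ({σ : K →+* ℂ // σ s = σ₀ s} × Fin n) : ℂ) = Fintype.card ι / 2 := by
    have h1 := coroot_half s d hd hs σ₀
    have h2 := (HS_decomp R).2.2 σ₀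
    rw [finrank_eq_card_basis v, Fintype.card_fin, ← h1] at h2
    rw [Fintype.card_prod, Fintype.card_fin, ← h2]
    push_cast
    ring
  have hStr : S.trace = (Fintype.card ι : ℂ) ^ 2 / (4 * a) := by
    rw [hS, Matrix.trace_sum, Finset.sum_congr rfl (fun q _ => hytr q), Finset.sum_const,
      Finset.card_univ, nsmul_eq_mul, hcardI]
    field_simp
    ring
  set κ : ℂ := (Fintype.card ι : ℂ) / (2 * a) - 2 with hκ
  have hκ0 : κ ≠ 0 := by
    intro h
    rw [hκ, sub_eq_zero, div_eq_iff (by simpa using ha0)] at h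
    apply ha
    have : ((Fintype.card ι : ℕ) : ℂ) = ((4 * a : ℕ) : ℂ) := by
      rw [h]
      push_cast
      ring
    exact (by exact_mod_cast this : Fintype.card ι = 4 * a).symm
  refine ⟨y p - (1 / (a * κ)) • (S - 1), ?_, ?_, ?_⟩
  · exact t.sub_mem (hyt p) (t.smul_mem _ (t.sub_mem hSt hone))
  · intro q
    have h1 : S.mulVec (w q) = w q := by
      rw [hS, Matrix.sum_mulVec, Finset.sum_eq_single q]
      · rw [hyw, if_pos rfl]
      · intro q' _ hq'
        rw [hyw, if_neg (fun h => hq' h.symm)]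
      · intro h
        exact absurd (Finset.mem_univ q) h
    rw [Matrix.sub_mulVec, Matrix.smul_mulVec, Matrix.sub_mulVec, h1, Matrix.one_mulVec, sub_self,
      smul_zero, sub_zero, hyw]
  · have h1 := coroot_mult D (htg (hyt p))
    have h2 := coroot_mult D (htg hSt)
    have h3 := coroot_mult D (htg hone)
    rw [hytr] at h1
    rw [hStr] at h2
    rw [Matrix.trace_one] at h3
    set F := E.map Complex.ofReal
    have h4 : (y p - (1 / (a * κ)) • (S - 1)).transpose * F + F * (y p - (1 / (a * κ)) • (S - 1)) =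
        ((y p).transpose * F + F * y p) - (1 / (a * κ)) • ((S.transpose * F + F * S) -
          ((1 : Matrix ι ι ℂ).transpose * F + F * 1)) := by
      simp only [Matrix.transpose_sub, Matrix.transpose_smul, Matrix.sub_mul, Matrix.mul_sub,
        Matrix.smul_mul, Matrix.mul_smul, smul_sub, smul_add]
      abel
    have e1 : 2 * ((Fintype.card ι : ℂ) / (2 * a)) / Fintype.card ι = 1 / a := by
      field_simp
    have e2 : 2 * ((Fintype.card ι : ℂ) ^ 2 / (4 * a)) / Fintype.card ι = κ + 2 := by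
      rw [hκ]
      field_simp
      ring
    have e3 : 2 * (Fintype.card ι : ℂ) / Fintype.card ι = 2 := by
      field_simp
    rw [e1] at h1
    rw [e2] at h2
    rw [e3] at h3
    rw [h4, h1, h2, h3, ← sub_smul, smul_smul, ← sub_smul]
    convert zero_smul ℂ F using 2
    field_simp
    ring

end Pool.Agent.CoprimeSig
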