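import Mathlib

/-!
# Rational maximal tori and coprime signature: definitions

The combinatorial core works with a Lie algebra `g` of endomorphisms of a finite dimensional vector
space `H`, a maximal torus `t` of `g`, and symmetries of the set of weights of `t` coming from
the Weyl group and from field endomorphisms.
-/

set_option autoImplicit false

namespace Pool.Agent.CoprimeSig

open Module

section Abstract

variable {K H : Type*} [Field K] [AddCommGroup H] [Module K H]

/-- `t` is a space of simultaneously diagonalisable endomorphisms. -/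
structure Tor (t : Submodule K (End K H)) : Prop where
  comm : ∀ x ∈ t, ∀ y ∈ t, x * y = y * x
  diag : ∃ (I : Type) (_ : Fintype I) (v : Basis I K H), ∀ x ∈ t, ∀ i, ∃ c : K, x (v i) = c • v i

/-- `t` is a self-centralising diagonalisable subalgebra of the Lie algebra `g`, whose trace form is
nondegenerate. -/
structure Cartan (g t : Submodule K (End K H)) : Prop extends Tor t where
  lie : ∀ x ∈ g, ∀ y ∈ g, x * y - y * x ∈ g
  nd : ∀ x ∈ g, (∀ y ∈ g, LinearMap.trace K H (x * y) = 0) → x = 0
  le : t ≤ g
  cent : ∀ x ∈ g, (∀ y ∈ t, x * y = y * x) → x ∈ t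

/-- `x` is a root vector of `t` in `g`, for the root `α` (which may be zero). -/
structure IsRoot (g t : Submodule K (End K H)) (α : End K H → K) (x : End K H) : Prop where
  mem : x ∈ g
  root : ∀ τ ∈ t, τ * x - x * τ = α τ • x

/-- The Weyl group element defined by `x` and `y`. -/
def wl (x y : End K H) : End K H := (1 + x) * (1 - y) * (1 + x)

/-- The inverse of the Weyl group element. -/
def wlInv (x y : End K H) : End K H := (1 - x) * (1 + y) * (1 - x)

/-- `x` and `y` are opposite root vectors of `t` in `g` with roots `α` and `-α`, of square zero,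
normalised by `x y x = x` and `y x y = y`. -/
structure Opp (g t : Submodule K (End K H)) (α : End K H → K) (x y : End K H) : Prop where
  rx : IsRoot g t α x
  ry : IsRoot g t (fun τ => -α τ) y
  xx : x * x = 0
  yy : y * y = 0
  xyx : x * y * x = x
  yxy : y * x * y = y
  mem : x * y - y * x ∈ t

/-- A symmetry of the lattice of subspaces of `H`, compatible with the idempotents of `t` and
respecting the subspaces `W'` and `W''`. -/
structure IsSym (t : Submodule K (End K H)) (W' W'' : Submodule K H)
    (s : Submodule K H → Submodule K H) : Prop where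
  sup : ∀ S : Set (Submodule K H), s (sSup S) = sSup (s '' S)
  rank : ∀ U, finrank K (s U) = finrank K U
  fst : s W' ≤ W'
  snd : s W'' ≤ W''
  idem : ∃ φ : End K H → End K H, Set.InjOn φ t ∧ ∀ y ∈ t, y * y = y →
    φ y ∈ t ∧ φ y * φ y = φ y ∧ LinearMap.trace K H (φ y) = LinearMap.trace K H y ∧
    (∀ U : Submodule K H, (∀ u ∈ U, y u = u) → ∀ u ∈ s U, φ y u = u) ∧
    (∀ U : Submodule K H, (∀ u ∈ U, y u = 0) → ∀ u ∈ s U, φ y u = 0)

/-- The idempotents of `t` of trace `c` which vanish on `W''`. -/
def EE (t : Submodule K (End K H)) (W'' : Submodule K H) (c : K) : Set (End K H) :=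
  {y | y ∈ t ∧ y * y = y ∧ (∀ w ∈ W'', y w = 0) ∧ LinearMap.trace K H y = c}

/-- The subspace of `W'` on which the idempotents in `A` act as the identity, and the other ones
of `EE t W'' c` as zero. -/
def Wt (t : Submodule K (End K H)) (W' W'' : Submodule K H) (c : K) (A : Set (End K H)) :
    Submodule K H where
  carrier := {w | w ∈ W' ∧ ∀ y ∈ EE t W'' c, (y ∈ A → y w = w) ∧ (y ∉ A → y w = 0)}
  add_mem' := fun {u v} hu hv => ⟨W'.add_mem hu.1 hv.1, fun y hy =>
    ⟨fun h => by rw [map_add, (hu.2 y hy).1 h, (hv.2 y hy).1 h],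
      fun h => by rw [map_add, (hu.2 y hy).2 h, (hv.2 y hy).2 h, add_zero]⟩⟩
  zero_mem' := ⟨W'.zero_mem, fun y _ => ⟨fun _ => map_zero y, fun _ => map_zero y⟩⟩
  smul_mem' := fun r u hu => ⟨W'.smul_mem r hu.1, fun y hy =>
    ⟨fun h => by rw [map_smul, (hu.2 y hy).1 h],
      fun h => by rw [map_smul, (hu.2 y hy).2 h, smul_zero]⟩⟩

theorem mem_Wt {t : Submodule K (End K H)} {W' W'' : Submodule K H} {c : K}
    {A : Set (End K H)} {w : H} : w ∈ Wt t W' W'' c A ↔
      w ∈ W' ∧ ∀ y ∈ EE t W'' c, (y ∈ A → y w = w) ∧ (y ∉ A → y w = 0) := Iff.rfl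

/-- The weights on `W'`, as sets of idempotents. -/
def Om (t : Submodule K (End K H)) (W' W'' : Submodule K H) (c : K) : Set (Set (End K H)) :=
  {A | A ⊆ EE t W'' c ∧ Wt t W' W'' c A ≠ ⊥}

end Abstract

section Matrix

variable {ι : Type} [Fintype ι] [DecidableEq ι]

/-- The Lie algebra of the Mumford-Tate group of a polarised rational Hodge structure of weight one:
`g` is a Lie algebra of complex matrices stable under the endomorphisms of `ℂ`, `J` is the complex
structure and `E` the polarisation. -/
structure MTData (g : Submodule ℂ (Matrix ι ι ℂ)) (J E : Matrix ι ι ℝ) : Prop where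
  lie : ∀ x ∈ g, ∀ y ∈ g, x * y - y * x ∈ g
  conj : ∀ σ : ℂ →+* ℂ, ∀ x ∈ g, x.map σ ∈ g
  one : (1 : Matrix ι ι ℂ) ∈ g
  JJ : J * J = -1
  Jg : J.map Complex.ofReal ∈ g
  sim : ∀ x ∈ g, ∃ κ : ℂ, x.transpose * E.map Complex.ofReal + E.map Complex.ofReal * x =
    κ • E.map Complex.ofReal
  alt : E.transpose = -E
  pos : (J.transpose * E).PosDef

/-- The Hodge projector `(1 - i J) / 2`. -/
noncomputable def hp (J : Matrix ι ι ℝ) : Matrix ι ι ℂ :=
  (1 / 2 : ℂ) • (1 - Complex.I • J.map Complex.ofReal)

end Matrix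

end Pool.Agent.CoprimeSig
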