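import Pool.Agent.CoprimeSig.Defs

/-!
# The action of a number field and the conjugates of subspaces
-/

set_option autoImplicit false

namespace Pool.Agent.CoprimeSig

open Module

variable {ι : Type} [Fintype ι] [DecidableEq ι]

/-- A rational matrix as a complex matrix. -/
def ratM (Q : Matrix ι ι ℚ) : Matrix ι ι ℂ := Q.map ((↑) : ℚ → ℂ)

/-- The subspace spanned by the conjugates of the vectors in `U` under the endomorphism `τ` of
`ℂ`. -/
def cj (τ : ℂ →+* ℂ) (U : Submodule ℂ (ι → ℂ)) : Submodule ℂ (ι → ℂ) :=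
  Submodule.span ℂ {u | ∃ v ∈ U, u = fun i => τ (v i)}

variable {K : Type} [Field K]

/-- The eigenspace of a field `K` of rational matrices for the embedding `σ`. -/
def HS (R : K →+* Matrix ι ι ℚ) (σ : K →+* ℂ) : Submodule ℂ (ι → ℂ) where
  carrier := {v | ∀ r, (ratM (R r)).mulVec v = σ r • v}
  add_mem' := fun {u v} hu hv r => by rw [Matrix.mulVec_add, hu r, hv r, smul_add]
  zero_mem' := fun r => by rw [Matrix.mulVec_zero, smul_zero]
  smul_mem' := fun c u hu r => by rw [Matrix.mulVec_smul, hu r, smul_comm]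

theorem mem_HS {R : K →+* Matrix ι ι ℚ} {σ : K →+* ℂ} {v : ι → ℂ} :
    v ∈ HS R σ ↔ ∀ r, (ratM (R r)).mulVec v = σ r • v := Iff.rfl

/-- The rational Hodge structure has no proper nonzero substructures. -/
def Simple (g : Submodule ℂ (Matrix ι ι ℂ)) : Prop :=
  ∀ U : Submodule ℂ (ι → ℂ), (∀ (σ : ℂ →+* ℂ), ∀ u ∈ U, (fun i => σ (u i)) ∈ U) →
    (∀ x ∈ g, ∀ u ∈ U, x.mulVec u ∈ U) → U = ⊥ ∨ U = ⊤

/-- The linear maps defined by the matrices in `g`. -/
def endo (g : Submodule ℂ (Matrix ι ι ℂ)) : Submodule ℂ (End ℂ (ι → ℂ)) :=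
  g.map (Matrix.toLin' : Matrix ι ι ℂ ≃ₗ[ℂ] _).toLinearMap

theorem mem_endo {g : Submodule ℂ (Matrix ι ι ℂ)} {x : Matrix ι ι ℂ} :
    Matrix.toLin' x ∈ endo g ↔ x ∈ g := by
  constructor
  · rintro ⟨y, hy, hyx⟩
    have h : y = x := (Matrix.toLin' (R := ℂ)).injective hyx
    rwa [← h]
  · intro h
    exact ⟨x, h, rfl⟩

end Pool.Agent.CoprimeSig
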