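import Pool.Agent.CoprimeSig.Defs
import Pool.Agent.GHCOdd.Fields

/-!
# Density of the rational points of a space of matrices stable under the endomorphisms of `ℂ`
-/

set_option autoImplicit false

namespace Pool.Agent.CoprimeSig

variable {ι : Type} [Fintype ι] [DecidableEq ι]

private theorem dense_aux {M : Type*} [Fintype M] (U : Submodule ℂ (M → ℂ)) (u : M → ℂ)
    (hu : u ∈ Submodule.span ℂ {u | u ∈ U ∧ ∀ m, ∃ q : ℚ, u m = q}) :
    ∀ (c : ℂ) (δ : ℝ), 0 < δ → ∃ Q : M → ℚ, (fun m => (Q m : ℂ)) ∈ U ∧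
      ∀ m, |(Q m : ℝ) - (c * u m).re| < δ := by
  induction hu using Submodule.span_induction with
  | mem u hu =>
    intro c δ hδ
    obtain ⟨huU, hq⟩ := hu
    choose q hq using hq
    have hB : 0 < 1 + ∑ m, |(q m : ℝ)| := by
      have : 0 ≤ ∑ m, |(q m : ℝ)| := Finset.sum_nonneg fun m _ => abs_nonneg _
      linarith
    obtain ⟨r, hr1, hr2⟩ := exists_rat_btwn (show c.re < c.re + δ / (1 + ∑ m, |(q m : ℝ)|) by
      have := div_pos hδ hB
      linarith)
    refine ⟨fun m => r * q m, ?_, fun m => ?_⟩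
    · have h1 : (fun m => ((r * q m : ℚ) : ℂ)) = (r : ℂ) • u := by
        funext m
        rw [Pi.smul_apply, hq m, smul_eq_mul, Rat.cast_mul]
      rw [h1]
      exact U.smul_mem _ huU
    · have h2 : (c * u m).re = c.re * (q m : ℝ) := by
        rw [hq m, Complex.mul_re]
        simp
      rw [h2, Rat.cast_mul, ← sub_mul, abs_mul]
      have h3 : |(r : ℝ) - c.re| < δ / (1 + ∑ m, |(q m : ℝ)|) := by
        rw [abs_lt]
        constructor
        · have := div_pos hδ hB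
          linarith
        · linarith
      have h4 : |(q m : ℝ)| ≤ ∑ m, |(q m : ℝ)| :=
        Finset.single_le_sum (f := fun m => |(q m : ℝ)|) (fun m _ => abs_nonneg _)
          (Finset.mem_univ m)
      calc |(r : ℝ) - c.re| * |(q m : ℝ)|
          ≤ |(r : ℝ) - c.re| * (∑ m, |(q m : ℝ)|) :=
            mul_le_mul_of_nonneg_left h4 (abs_nonneg _)
        _ ≤ δ / (1 + ∑ m, |(q m : ℝ)|) * (∑ m, |(q m : ℝ)|) :=
            mul_le_mul_of_nonneg_right h3.le ((abs_nonneg _).trans h4)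
        _ < δ / (1 + ∑ m, |(q m : ℝ)|) * (1 + ∑ m, |(q m : ℝ)|) :=
            mul_lt_mul_of_pos_left (by linarith) (div_pos hδ hB)
        _ = δ := div_mul_cancel₀ _ hB.ne'
  | zero =>
    intro c δ hδ
    refine ⟨0, ?_, fun m => ?_⟩
    · have h1 : (fun m => (((0 : M → ℚ) m : ℚ) : ℂ)) = 0 := by
        funext m
        simp
      rw [h1]
      exact U.zero_mem
    · simpa using hδ
  | add u v _ _ hu hv =>
    intro c δ hδ
    obtain ⟨Q₁, h1, h1'⟩ := hu c (δ / 2) (half_pos hδ)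
    obtain ⟨Q₂, h2, h2'⟩ := hv c (δ / 2) (half_pos hδ)
    refine ⟨Q₁ + Q₂, ?_, fun m => ?_⟩
    · have h3 : (fun m => (((Q₁ + Q₂) m : ℚ) : ℂ)) =
          (fun m => (Q₁ m : ℂ)) + (fun m => (Q₂ m : ℂ)) := by
        funext m
        simp
      rw [h3]
      exact U.add_mem h1 h2
    · have h4 : (((Q₁ + Q₂) m : ℚ) : ℝ) - (c * (u + v) m).re =
          ((Q₁ m : ℝ) - (c * u m).re) + ((Q₂ m : ℝ) - (c * v m).re) := by
        rw [Pi.add_apply, Pi.add_apply, mul_add, Complex.add_re, Rat.cast_add]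
        ring
      rw [h4]
      exact (abs_add_le _ _).trans_lt (by linarith [h1' m, h2' m])
  | smul a u _ hu =>
    intro c δ hδ
    obtain ⟨Q, h1, h2⟩ := hu (c * a) δ hδ
    refine ⟨Q, h1, fun m => ?_⟩
    have h3 : c * (a • u) m = c * a * u m := by
      rw [Pi.smul_apply, smul_eq_mul, mul_assoc]
    rw [h3]
    exact h2 m

/-- CS6. Density of the rational points. -/
theorem exists_rat_near (g : Submodule ℂ (Matrix ι ι ℂ))
    (hconj : ∀ σ : ℂ →+* ℂ, ∀ x ∈ g, x.map σ ∈ g) (X : Matrix ι ι ℝ)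
    (hX : X.map Complex.ofReal ∈ g) {δ : ℝ} (hδ : 0 < δ) :
    ∃ Q : Matrix ι ι ℚ, Q.map ((↑) : ℚ → ℂ) ∈ g ∧ ∀ i j, |(Q i j : ℝ) - X i j| < δ := by
  classical
  let U : Submodule ℂ (ι × ι → ℂ) :=
    { carrier := {u | (Matrix.of fun i j => u (i, j)) ∈ g}
      add_mem' := fun {a b} ha hb => g.add_mem ha hb
      zero_mem' := g.zero_mem
      smul_mem' := fun c a ha => g.smul_mem c ha }
  have hU : ∀ σ : ℂ →+* ℂ, ∀ u ∈ U, (fun m => σ (u m)) ∈ U := by
    intro σ u hu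
    exact hconj σ _ hu
  have hXU : (fun m : ι × ι => ((X m.1 m.2 : ℝ) : ℂ)) ∈ U := hX
  obtain ⟨Q, hQ, hQ'⟩ := dense_aux U _ (Pool.Agent.GHCOdd.descent U hU hXU) 1 δ hδ
  refine ⟨Matrix.of fun i j => Q (i, j), hQ, fun i j => ?_⟩
  have h1 := hQ' (i, j)
  rw [one_mul, Complex.ofReal_re] at h1
  exact h1

end Pool.Agent.CoprimeSig
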