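import Pool.Agent.CoprimeSig.Defs

/-! Package CS4: conjugation by `exp z` preserves a Lie algebra containing `z`. -/

set_option autoImplicit false

namespace Pool.Agent.CoprimeSig

open Finset

section

variable {𝕜 A : Type*} [Field 𝕜] [CharZero 𝕜] [Ring A] [Algebra 𝕜 A]

/-- the terms of the Cauchy product -/
def expAdTerm (𝕜 : Type*) {A : Type*} [Field 𝕜] [Ring A] [Algebra 𝕜 A] (z x : A) (p : ℕ × ℕ) : A :=
  (((p.1.factorial : 𝕜)⁻¹ • z ^ p.1) * x) * ((p.2.factorial : 𝕜)⁻¹ • (-z) ^ p.2)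

theorem expAd_left (z x : A) (k l : ℕ) :
    z * expAdTerm 𝕜 z x (k, l) = ((k + 1 : ℕ) : 𝕜) • expAdTerm 𝕜 z x (k + 1, l) := by
  have h : ((k + 1 : ℕ) : 𝕜) * (((k + 1).factorial : ℕ) : 𝕜)⁻¹ = ((k.factorial : ℕ) : 𝕜)⁻¹ := by
    have h1 : ((k.factorial : ℕ) : 𝕜) ≠ 0 := by exact_mod_cast k.factorial_ne_zero
    have h2 : ((k + 1 : ℕ) : 𝕜) ≠ 0 := by exact_mod_cast Nat.succ_ne_zero k
    rw [Nat.factorial_succ]
    push_cast at h2 ⊢
    field_simp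
  simp only [expAdTerm, ← smul_mul_assoc, smul_smul]
  rw [h]
  simp only [smul_mul_assoc, mul_smul_comm, pow_succ', mul_assoc]

theorem expAd_right (z x : A) (k l : ℕ) :
    expAdTerm 𝕜 z x (k, l) * (-z) = ((l + 1 : ℕ) : 𝕜) • expAdTerm 𝕜 z x (k, l + 1) := by
  have h : ((l + 1 : ℕ) : 𝕜) * (((l + 1).factorial : ℕ) : 𝕜)⁻¹ = ((l.factorial : ℕ) : 𝕜)⁻¹ := by
    have h1 : ((l.factorial : ℕ) : 𝕜) ≠ 0 := by exact_mod_cast l.factorial_ne_zero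
    have h2 : ((l + 1 : ℕ) : 𝕜) ≠ 0 := by exact_mod_cast Nat.succ_ne_zero l
    rw [Nat.factorial_succ]
    push_cast at h2 ⊢
    field_simp
  simp only [expAdTerm, ← mul_smul_comm, smul_smul]
  rw [h]
  simp only [smul_mul_assoc, mul_smul_comm, pow_succ, mul_assoc]

theorem expAd_rec (z x : A) (n : ℕ) :
    ((n + 1 : ℕ) : 𝕜) • ∑ p ∈ antidiagonal (n + 1), expAdTerm 𝕜 z x p =
      z * (∑ p ∈ antidiagonal n, expAdTerm 𝕜 z x p) -
        (∑ p ∈ antidiagonal n, expAdTerm 𝕜 z x p) * z := by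
  have h1 : ((n + 1 : ℕ) : 𝕜) • ∑ p ∈ antidiagonal (n + 1), expAdTerm 𝕜 z x p =
      ∑ p ∈ antidiagonal (n + 1), ((p.1 : ℕ) : 𝕜) • expAdTerm 𝕜 z x p +
        ∑ p ∈ antidiagonal (n + 1), ((p.2 : ℕ) : 𝕜) • expAdTerm 𝕜 z x p := by
    rw [smul_sum, ← sum_add_distrib]
    refine sum_congr rfl fun p hp => ?_
    rw [← add_smul, ← Nat.cast_add, (mem_antidiagonal.1 hp)]
  have h2 : ∑ p ∈ antidiagonal (n + 1), ((p.1 : ℕ) : 𝕜) • expAdTerm 𝕜 z x p =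
      z * ∑ p ∈ antidiagonal n, expAdTerm 𝕜 z x p := by
    rw [Finset.Nat.sum_antidiagonal_succ, mul_sum]
    simp only [Nat.cast_zero, zero_smul, zero_add]
    refine sum_congr rfl fun p _ => ?_
    rw [← expAd_left]
  have h3 : ∑ p ∈ antidiagonal (n + 1), ((p.2 : ℕ) : 𝕜) • expAdTerm 𝕜 z x p =
      (∑ p ∈ antidiagonal n, expAdTerm 𝕜 z x p) * (-z) := by
    rw [Finset.Nat.sum_antidiagonal_succ', sum_mul]
    simp only [Nat.cast_zero, zero_smul, zero_add]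
    refine sum_congr rfl fun p _ => ?_
    rw [← expAd_right]
  rw [h1, h2, h3, mul_neg, sub_eq_add_neg]

theorem expAd_mem (g : Submodule 𝕜 A) (hlie : ∀ x ∈ g, ∀ y ∈ g, x * y - y * x ∈ g) {z x : A}
    (hz : z ∈ g) (hx : x ∈ g) (n : ℕ) : ∑ p ∈ antidiagonal n, expAdTerm 𝕜 z x p ∈ g := by
  induction n with
  | zero =>
    simpa [expAdTerm] using hx
  | succ n ih =>
    have h := expAd_rec (𝕜 := 𝕜) z x n
    have hn : ((n + 1 : ℕ) : 𝕜) ≠ 0 := by exact_mod_cast Nat.succ_ne_zero n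
    have h2 : ∑ p ∈ antidiagonal (n + 1), expAdTerm 𝕜 z x p = ((n + 1 : ℕ) : 𝕜)⁻¹ •
        (z * (∑ p ∈ antidiagonal n, expAdTerm 𝕜 z x p) -
        (∑ p ∈ antidiagonal n, expAdTerm 𝕜 z x p) * z) := by
      rw [← h, smul_smul, inv_mul_cancel₀ hn, one_smul]
    rw [h2]
    exact g.smul_mem _ (hlie z hz _ ih)

end

variable {ι : Type} [Fintype ι] [DecidableEq ι]

open scoped Matrix.Norms.Operator in
theorem exp_conj_mem {𝕜 : Type*} [RCLike 𝕜] (g : Submodule 𝕜 (Matrix ι ι 𝕜))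
    (hlie : ∀ x ∈ g, ∀ y ∈ g, x * y - y * x ∈ g) {z x : Matrix ι ι 𝕜} (hz : z ∈ g) (hx : x ∈ g) :
    NormedSpace.exp z * x * NormedSpace.exp (-z) ∈ g := by
  let _ : NormedAlgebra ℚ (Matrix ι ι 𝕜) := NormedAlgebra.restrictScalars ℚ 𝕜 _
  have ha : Summable fun n : ℕ => ‖((n.factorial : 𝕜)⁻¹ • z ^ n)‖ :=
    NormedSpace.norm_expSeries_summable' (𝕂 := 𝕜) z
  have hb : Summable fun n : ℕ => ‖((n.factorial : 𝕜)⁻¹ • (-z) ^ n)‖ :=
    NormedSpace.norm_expSeries_summable' (𝕂 := 𝕜) (-z)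
  have hax : Summable fun n : ℕ => ‖((n.factorial : 𝕜)⁻¹ • z ^ n) * x‖ := by
    refine Summable.of_nonneg_of_le (fun n => norm_nonneg _) (fun n => norm_mul_le _ _)
      (ha.mul_right ‖x‖)
  have he : NormedSpace.exp z * x * NormedSpace.exp (-z) =
      ∑' n : ℕ, ∑ p ∈ antidiagonal n, expAdTerm 𝕜 z x p := by
    rw [NormedSpace.exp_eq_tsum (𝕂 := 𝕜)]
    have e1 : (∑' n : ℕ, (n.factorial : 𝕜)⁻¹ • z ^ n) * x =
        ∑' n : ℕ, (n.factorial : 𝕜)⁻¹ • z ^ n * x := (ha.of_norm.tsum_mul_right x).symm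
    have e2 := tsum_mul_tsum_eq_tsum_sum_antidiagonal_of_summable_norm hax hb
    calc (∑' n : ℕ, (n.factorial : 𝕜)⁻¹ • z ^ n) * x * (∑' n : ℕ, (n.factorial : 𝕜)⁻¹ • (-z) ^ n)
        = (∑' n : ℕ, (n.factorial : 𝕜)⁻¹ • z ^ n * x) *
          (∑' n : ℕ, (n.factorial : 𝕜)⁻¹ • (-z) ^ n) := by rw [e1]
      _ = _ := e2
  have hs : Summable fun n : ℕ => ∑ p ∈ antidiagonal n, expAdTerm 𝕜 z x p :=
    (summable_norm_sum_mul_antidiagonal_of_summable_norm hax hb).of_norm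
  rw [he]
  have hcl : IsClosed (g : Set (Matrix ι ι 𝕜)) := Submodule.closed_of_finiteDimensional g
  exact hcl.mem_of_tendsto hs.hasSum (Filter.Eventually.of_forall fun s =>
    g.sum_mem fun n _ => expAd_mem g hlie hz hx n)

end Pool.Agent.CoprimeSig
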