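import Pool.Agent.CoprimeSig.Defs2
import Pool.Agent.OneFrob.FullTorus

/-!
# From the coroots to the full Lie algebra
-/

set_option autoImplicit false

namespace Pool.Agent.CoprimeSig

open Module

variable {ι : Type} [Fintype ι] [DecidableEq ι] {g : Submodule ℂ (Matrix ι ι ℂ)}
  {J E : Matrix ι ι ℝ}

/-- The polarisation as a bilinear form. -/
noncomputable def fgPsi (A : Matrix ι ι ℂ) : (ι → ℂ) →ₗ[ℂ] (ι → ℂ) →ₗ[ℂ] ℂ :=
  LinearMap.mk₂ ℂ (fun u v => u ⬝ᵥ A.mulVec v)
    (fun u u' v => by simp only [add_dotProduct])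
    (fun c u v => by simp only [smul_dotProduct])
    (fun u v v' => by simp only [Matrix.mulVec_add, dotProduct_add])
    (fun c u v => by simp only [Matrix.mulVec_smul, dotProduct_smul])

theorem fgPsi_apply (A : Matrix ι ι ℂ) (u v : ι → ℂ) : fgPsi A u v = u ⬝ᵥ A.mulVec v := rfl

theorem fgPsi_mulVec_left (A x : Matrix ι ι ℂ) (u v : ι → ℂ) :
    fgPsi A (x.mulVec u) v = u ⬝ᵥ (x.transpose * A).mulVec v := by
  rw [fgPsi_apply, ← Matrix.vecMul_transpose, ← Matrix.dotProduct_mulVec, Matrix.mulVec_mulVec]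

theorem fgPsi_mulVec_right (A x : Matrix ι ι ℂ) (u v : ι → ℂ) :
    fgPsi A u (x.mulVec v) = u ⬝ᵥ (A * x).mulVec v := by
  rw [fgPsi_apply, Matrix.mulVec_mulVec]

theorem fgPsi_sim (A x : Matrix ι ι ℂ) (κ : ℂ) (h : x.transpose * A + A * x = κ • A)
    (u v : ι → ℂ) : fgPsi A (x.mulVec u) v + fgPsi A u (x.mulVec v) = κ * fgPsi A u v := by
  rw [fgPsi_mulVec_left, fgPsi_mulVec_right, ← dotProduct_add, ← Matrix.add_mulVec, h,
    Matrix.smul_mulVec, dotProduct_smul, smul_eq_mul, fgPsi_apply]

theorem fgPsi_skew (A : Matrix ι ι ℂ) (h : A.transpose = -A) (u v : ι → ℂ) :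
    fgPsi A u v = -fgPsi A v u := by
  rw [fgPsi_apply, fgPsi_apply, Matrix.dotProduct_mulVec, ← Matrix.mulVec_transpose, h,
    Matrix.neg_mulVec, neg_dotProduct, dotProduct_comm]

/-- Positivity for complex vectors. -/
theorem fg_pos {P : Matrix ι ι ℝ} (hP : P.PosDef) (v : ι → ℂ)
    (h : star v ⬝ᵥ (P.map Complex.ofReal).mulVec v = 0) : v = 0 := by
  have h1 : (star v ⬝ᵥ (P.map Complex.ofReal).mulVec v).re =
      (fun i => (v i).re) ⬝ᵥ P.mulVec (fun i => (v i).re) +
      (fun i => (v i).im) ⬝ᵥ P.mulVec (fun i => (v i).im) := by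
    simp only [dotProduct, Matrix.mulVec, Finset.mul_sum, Complex.re_sum, Matrix.map_apply,
      Pi.star_apply, ← Finset.sum_add_distrib]
    refine Finset.sum_congr rfl fun i _ => Finset.sum_congr rfl fun j _ => ?_
    simp only [Complex.mul_re, Complex.mul_im, Complex.ofReal_re, Complex.ofReal_im,
      RCLike.star_def, Complex.conj_re, Complex.conj_im]
    ring
  rw [h, Complex.zero_re] at h1
  have hr : 0 ≤ (fun i => (v i).re) ⬝ᵥ P.mulVec (fun i => (v i).re) := by
    have := hP.posSemidef.dotProduct_mulVec_nonneg (fun i => (v i).re)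
    simpa using this
  have hi : 0 ≤ (fun i => (v i).im) ⬝ᵥ P.mulVec (fun i => (v i).im) := by
    have := hP.posSemidef.dotProduct_mulVec_nonneg (fun i => (v i).im)
    simpa using this
  have hr0 : (fun i => (v i).re) = 0 := by
    by_contra hne
    have := hP.dotProduct_mulVec_pos hne
    simp only [star_trivial] at this
    linarith
  have hi0 : (fun i => (v i).im) = 0 := by
    by_contra hne
    have := hP.dotProduct_mulVec_pos hne
    simp only [star_trivial] at this
    linarith
  ext i
  exact Complex.ext (congrFun hr0 i) (congrFun hi0 i)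

theorem fg_JJ (D : MTData g J E) :
    J.map Complex.ofReal * J.map Complex.ofReal = (-1 : Matrix ι ι ℂ) := by
  have h := congrArg (fun A : Matrix ι ι ℝ => A.map Complex.ofReal) D.JJ
  have h1 : (J * J).map Complex.ofReal = J.map Complex.ofReal * J.map Complex.ofReal :=
    Matrix.map_mul (f := Complex.ofRealHom)
  rw [← h1, h]
  ext i j
  by_cases hij : i = j
  · subst hij; simp
  · simp [Matrix.one_apply_ne hij]

theorem fg_JyJ (D : MTData g J E) {y : Matrix ι ι ℂ} (hy : y ∈ g) :
    J.map Complex.ofReal * y * J.map Complex.ofReal ∈ g := by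
  set j := J.map Complex.ofReal with hj
  have hjj : j * j = -1 := fg_JJ D
  have h1 := D.lie _ D.Jg _ (D.lie _ D.Jg _ hy)
  rw [← hj] at h1
  have h2 : j * y * j = -y - (1 / 2 : ℂ) • (j * (j * y - y * j) - (j * y - y * j) * j) := by
    have e1 : j * (j * y - y * j) - (j * y - y * j) * j =
        (j * j) * y + y * (j * j) - (2 : ℂ) • (j * y * j) := by
      rw [two_smul]
      noncomm_ring
    rw [e1, hjj, smul_sub, smul_smul]
    norm_num
    module
  rw [h2]
  exact g.sub_mem (g.neg_mem hy) (g.smul_mem _ h1)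

/-- The adjoint for the hermitian form. -/
theorem fg_adj (D : MTData g J E) {x : Matrix ι ι ℂ} (hx : x ∈ g) :
    ∃ y ∈ g, ∀ u v : ι → ℂ, star u ⬝ᵥ ((J.transpose * E).map Complex.ofReal).mulVec (x.mulVec v) =
      star (y.mulVec u) ⬝ᵥ ((J.transpose * E).map Complex.ofReal).mulVec v := by
  obtain ⟨κ, hκ⟩ := D.sim x hx
  set j := J.map Complex.ofReal with hj
  set e := E.map Complex.ofReal with he
  have hjj : j * j = -1 := fg_JJ D
  have hP : (J.transpose * E).map Complex.ofReal = j.transpose * e := by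
    have : (J.transpose * E).map Complex.ofReal = J.transpose.map Complex.ofReal * E.map Complex.ofReal :=
      Matrix.map_mul (f := Complex.ofRealHom)
    rw [this, Matrix.transpose_map]
  have hjT : j.transpose * j.transpose = -1 := by
    rw [← Matrix.transpose_mul, hjj]; simp
  have he2 : e = -(j.transpose * (j.transpose * e)) := by
    rw [← mul_assoc, hjT]; simp
  -- P x = (κ + (j x j)^T) P
  have h1 : (j.transpose * e) * x =
      (κ • (1 : Matrix ι ι ℂ) + (j * x * j).transpose) * (j.transpose * e) := by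
    have h2 : e * x = κ • e - x.transpose * e := by rw [← hκ]; abel
    have h3 : (j * x * j).transpose = j.transpose * x.transpose * j.transpose := by
      rw [Matrix.transpose_mul, Matrix.transpose_mul, mul_assoc]
    have h4 : j.transpose * x.transpose * j.transpose * (j.transpose * e) =
        - (j.transpose * (x.transpose * e)) := by
      rw [show j.transpose * x.transpose * j.transpose * (j.transpose * e) =
        j.transpose * x.transpose * (j.transpose * j.transpose) * e by simp only [mul_assoc], hjT]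
      simp [mul_assoc]
    rw [mul_assoc, h2, h3, add_mul, mul_sub, h4, smul_mul_assoc, one_mul, mul_smul_comm,
      sub_eq_add_neg]
  -- the adjoint
  refine ⟨(starRingEnd ℂ κ) • (1 : Matrix ι ι ℂ) + j * x.map (starRingEnd ℂ) * j, ?_, ?_⟩
  · exact g.add_mem (g.smul_mem _ D.one) (fg_JyJ D (D.conj _ _ hx))
  · intro u v
    rw [hP, Matrix.mulVec_mulVec, h1, ← Matrix.mulVec_mulVec, Matrix.dotProduct_mulVec]
    congr 1
    rw [Matrix.star_mulVec]
    congr 1
    have h5 : j.conjTranspose = j.transpose := by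
      ext a b
      simp [hj, Matrix.conjTranspose_apply]
    have h6 : (x.map (starRingEnd ℂ)).conjTranspose = x.transpose := by
      ext a b
      simp [Matrix.conjTranspose_apply]
    rw [Matrix.conjTranspose_add, Matrix.conjTranspose_mul, Matrix.conjTranspose_mul, h5, h6,
      Matrix.conjTranspose_smul, Matrix.conjTranspose_one, Matrix.transpose_mul,
      Matrix.transpose_mul]
    simp

/-- Semisimplicity. -/
theorem fg_ss (D : MTData g J E) (W : Submodule ℂ (ι → ℂ))
    (hW : ∀ x ∈ g, ∀ w ∈ W, x.mulVec w ∈ W) :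
    ∃ W' : Submodule ℂ (ι → ℂ), IsCompl W W' ∧ ∀ x ∈ g, ∀ w ∈ W', x.mulVec w ∈ W' := by
  set P := (J.transpose * E).map Complex.ofReal with hP
  let W' : Submodule ℂ (ι → ℂ) :=
    { carrier := {v | ∀ u ∈ W, star u ⬝ᵥ P.mulVec v = 0}
      add_mem' := fun {v v'} hv hv' u hu => by
        rw [Matrix.mulVec_add, dotProduct_add, hv u hu, hv' u hu, add_zero]
      zero_mem' := fun u _ => by rw [Matrix.mulVec_zero, dotProduct_zero]
      smul_mem' := fun c v hv u hu => by
        rw [Matrix.mulVec_smul, dotProduct_smul, hv u hu, smul_zero] }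
  have hmem : ∀ v, v ∈ W' ↔ ∀ u ∈ W, star u ⬝ᵥ P.mulVec v = 0 := fun _ => Iff.rfl
  refine ⟨W', ?_, ?_⟩
  · have hdis : Disjoint W W' := by
      rw [Submodule.disjoint_def]
      intro v hv hv'
      exact fg_pos D.pos v (hv' v hv)
    refine ⟨hdis, ?_⟩
    rw [codisjoint_iff]
    refine Submodule.eq_top_of_disjoint W W' ?_ hdis
    -- dimension count
    let bW := Module.finBasis ℂ W
    let Φ : (ι → ℂ) →ₗ[ℂ] (Fin (finrank ℂ W) → ℂ) :=
      LinearMap.pi fun i => fgPsi P (star ((bW i : W) : ι → ℂ))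
    have hker : LinearMap.ker Φ ≤ W' := by
      intro v hv
      rw [LinearMap.mem_ker] at hv
      rw [hmem]
      intro u hu
      have h1 : ∀ i, star ((bW i : W) : ι → ℂ) ⬝ᵥ P.mulVec v = 0 := fun i => congrFun hv i
      have h2 : u = ∑ i, (bW.repr ⟨u, hu⟩ i) • ((bW i : W) : ι → ℂ) := by
        have := congrArg (Submodule.subtype W) (bW.sum_repr ⟨u, hu⟩)
        simp only [map_sum, map_smul, Submodule.subtype_apply] at this
        exact this.symm
      rw [h2, star_sum]
      have h3 : ∀ s : Finset (Fin (finrank ℂ W)),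
          (∑ i ∈ s, star ((bW.repr ⟨u, hu⟩ i) • ((bW i : W) : ι → ℂ))) ⬝ᵥ P.mulVec v = 0 := by
        intro s
        rw [sum_dotProduct]
        refine Finset.sum_eq_zero fun i _ => ?_
        rw [star_smul, smul_dotProduct, h1 i, smul_zero]
      exact h3 _
    have h4 := LinearMap.finrank_range_add_finrank_ker Φ
    have h5 : finrank ℂ (LinearMap.range Φ) ≤ finrank ℂ W := by
      refine (Submodule.finrank_le _).trans ?_
      simp
    have h6 := Submodule.finrank_mono hker
    omega
  · intro x hx w hw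
    rw [hmem] at hw ⊢
    intro u hu
    obtain ⟨y, hy, hyx⟩ := fg_adj D hx
    rw [hyx u w]
    exact hw _ (hW y hy u hu)

/-- Nondegeneracy of the polarisation. -/
theorem fg_nd (D : MTData g J E) (v : ι → ℂ)
    (h : ∀ u, fgPsi (E.map Complex.ofReal) u v = 0) : v = 0 := by
  refine fg_pos D.pos v ?_
  have hP : (J.transpose * E).map Complex.ofReal =
      J.transpose.map Complex.ofReal * E.map Complex.ofReal :=
    Matrix.map_mul (f := Complex.ofRealHom)
  rw [hP, ← Matrix.mulVec_mulVec, Matrix.dotProduct_mulVec, ← Matrix.mulVec_transpose]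
  exact h _

/-- CS25. From the coroots to the full Lie algebra. -/
theorem full_of_coroots (D : MTData g J E) (T : Matrix ι ι ℂ) (δ : ℂ) (hδ : δ ≠ 0)
    (hT : T * T = (δ * δ) • (1 : Matrix ι ι ℂ)) (hTg : ∀ x ∈ g, x * T = T * x)
    (hskew : T.transpose * E.map Complex.ofReal = -(E.map Complex.ofReal * T))
    (I : Type) [Fintype I] [DecidableEq I] (w : I → ι → ℂ) (hw : LinearIndependent ℂ w)
    (hspan : (Submodule.span ℂ (Set.range w) : Submodule ℂ (ι → ℂ)) =
      Module.End.eigenspace (Matrix.toLin' T) δ)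
    (hc : ∀ i, ∃ c ∈ g, (∀ j, c.mulVec (w j) = if j = i then w j else 0) ∧
      c.transpose * E.map Complex.ofReal + E.map Complex.ofReal * c = 0)
    (M : Matrix ι ι ℂ)
    (hM : M.transpose * E.map Complex.ofReal + E.map Complex.ofReal * M = 0)
    (hcomm : ∀ Z : Matrix ι ι ℂ, (∀ x ∈ g, x * Z = Z * x) → M * Z = Z * M) : M ∈ g := by
  set e := E.map Complex.ofReal with he
  set ψ := fgPsi e with hψ
  have hskewE : e.transpose = -e := by
    ext a b
    have h1 : E.transpose a b = (-E) a b := by rw [D.alt]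
    rw [Matrix.transpose_apply, Matrix.neg_apply] at h1
    rw [he, Matrix.transpose_apply, Matrix.neg_apply, Matrix.map_apply, Matrix.map_apply, h1,
      Complex.ofReal_neg]
  have halt : ∀ u v, ψ u v = -ψ v u := fgPsi_skew e hskewE
  have hzero : ∀ (x : Matrix ι ι ℂ), x.transpose * e + e * x = 0 →
      ∀ u v, ψ (x.mulVec u) v + ψ u (x.mulVec v) = 0 := by
    intro x hx u v
    have := fgPsi_sim e x 0 (by rw [hx, zero_smul]) u v
    rwa [zero_mul] at this
  have hT0 : ∀ u v, ψ (T.mulVec u) v = -ψ u (T.mulVec v) := by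
    intro u v
    rw [hψ, fgPsi_mulVec_left, fgPsi_mulVec_right, hskew, Matrix.neg_mulVec, dotProduct_neg]
  have hTT : ∀ u, T.mulVec (T.mulVec u) = (δ * δ) • u := by
    intro u
    rw [Matrix.mulVec_mulVec, hT, Matrix.smul_mulVec, Matrix.one_mulVec]
  -- isotropy
  have hiso : ∀ ε : ℂ, ε ≠ 0 → ∀ u v, T.mulVec u = ε • u → T.mulVec v = ε • v → ψ u v = 0 := by
    intro ε hε u v hu hv
    have h1 := hT0 u v
    rw [hu, hv, map_smul, map_smul, LinearMap.smul_apply, smul_eq_mul] at h1
    have h2 : 2 * ε * ψ u v = 0 := by linear_combination h1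
    rcases mul_eq_zero.1 h2 with h | h
    · exact absurd (by simpa using h) hε
    · exact h
  have hwT : ∀ i, T.mulVec (w i) = δ • w i := by
    intro i
    have h1 : w i ∈ Module.End.eigenspace (Matrix.toLin' T) δ := by
      rw [← hspan]; exact Submodule.subset_span ⟨i, rfl⟩
    rw [Module.End.mem_eigenspace_iff] at h1
    exact h1
  -- the projections
  have hsplit : ∀ v : ι → ℂ, ∃ p q : ι → ℂ, v = p + q ∧ T.mulVec p = δ • p ∧
      T.mulVec q = (-δ) • q := by
    intro v
    refine ⟨(1 / 2 : ℂ) • (v + δ⁻¹ • T.mulVec v), (1 / 2 : ℂ) • (v - δ⁻¹ • T.mulVec v), ?_, ?_, ?_⟩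
    · module
    · rw [Matrix.mulVec_smul, Matrix.mulVec_add, Matrix.mulVec_smul, hTT, smul_smul]
      have h1 : δ⁻¹ * (δ * δ) = δ := by field_simp
      have h2 : δ • δ⁻¹ • T.mulVec v = T.mulVec v := by
        rw [smul_smul, mul_inv_cancel₀ hδ, one_smul]
      rw [h1, smul_comm δ (1 / 2 : ℂ), smul_add δ, h2]
      module
    · rw [Matrix.mulVec_smul, Matrix.mulVec_sub, Matrix.mulVec_smul, hTT, smul_smul]
      have h1 : δ⁻¹ * (δ * δ) = δ := by field_simp
      have h2 : (-δ) • δ⁻¹ • T.mulVec v = -T.mulVec v := by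
        rw [smul_smul, neg_mul, mul_inv_cancel₀ hδ, neg_one_smul]
      rw [h1, smul_comm (-δ) (1 / 2 : ℂ), smul_sub (-δ), h2]
      module
  -- the dual basis
  have hsurj : ∀ i, ∃ v, T.mulVec v = (-δ) • v ∧ ∀ j, ψ (w j) v = if j = i then 1 else 0 := by
    intro i
    -- a functional
    obtain ⟨f, hf⟩ : ∃ f : Module.Dual ℂ (ι → ℂ), ∀ j, f (w j) = if j = i then 1 else 0 := by
      obtain ⟨f, hf⟩ := LinearMap.exists_extend
        ((Finsupp.lapply (R := ℂ) i).comp hw.repr : Submodule.span ℂ (Set.range w) →ₗ[ℂ] ℂ)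
      refine ⟨f, fun j => ?_⟩
      have h1 := LinearMap.congr_fun hf ⟨w j, Submodule.subset_span ⟨j, rfl⟩⟩
      simp only [LinearMap.comp_apply, Submodule.subtype_apply, LinearEquiv.coe_coe,
        Finsupp.lapply_apply] at h1
      rw [h1]
      have h2 : hw.repr ⟨w j, Submodule.subset_span ⟨j, rfl⟩⟩ = Finsupp.single j 1 :=
        hw.repr_eq_single j _ rfl
      rw [h2, Finsupp.single_apply]
    have hinj : Function.Injective ψ.flip := by
      rw [← LinearMap.ker_eq_bot, LinearMap.ker_eq_bot']
      intro v hv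
      exact fg_nd D v fun u => LinearMap.congr_fun hv u
    have hsur : Function.Surjective ψ.flip :=
      (LinearMap.injective_iff_surjective_of_finrank_eq_finrank
        (Subspace.dual_finrank_eq (K := ℂ) (V := ι → ℂ)).symm).1 hinj
    obtain ⟨v, hv⟩ := hsur f
    obtain ⟨p, q, hpq, hp, hq⟩ := hsplit v
    refine ⟨q, hq, fun j => ?_⟩
    have h1 : ψ (w j) v = f (w j) := LinearMap.congr_fun hv (w j)
    rw [hpq, map_add, hiso δ hδ (w j) p (hwT j) hp, zero_add, hf] at h1
    exact h1
  choose w' hw'T hw' using hsurj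
  have hww : ∀ i j, ψ (w i) (w j) = 0 := fun i j => hiso δ hδ _ _ (hwT i) (hwT j)
  have hw'w' : ∀ i j, ψ (w' i) (w' j) = 0 := fun i j =>
    hiso (-δ) (neg_ne_zero.2 hδ) _ _ (hw'T i) (hw'T j)
  have hww' : ∀ i j, ψ (w i) (w' j) = if i = j then 1 else 0 := fun i j => hw' j i
  have hw'w : ∀ i j, ψ (w' i) (w j) = if j = i then -1 else 0 := by
    intro i j
    rw [halt, hww']
    split_ifs <;> simp
  -- a vector of V- is determined by the pairing with w
  have hdet : ∀ q : ι → ℂ, T.mulVec q = (-δ) • q → (∀ i, ψ (w i) q = 0) → q = 0 := by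
    intro q hq h0
    refine fg_nd D q fun u => ?_
    obtain ⟨p, r, hpr, hp, hr⟩ := hsplit u
    change ψ u q = 0
    rw [hpr, map_add, LinearMap.add_apply, hiso (-δ) (neg_ne_zero.2 hδ) r q hr hq, add_zero]
    have h1 : p ∈ Submodule.span ℂ (Set.range w) := by
      rw [hspan, Module.End.mem_eigenspace_iff]
      exact hp
    refine Submodule.span_induction (p := fun p _ => ψ p q = 0) ?_ ?_ ?_ ?_ h1
    · rintro _ ⟨i, rfl⟩
      exact h0 i
    · simp
    · intro x y _ _ hx hy
      rw [map_add, LinearMap.add_apply, hx, hy, add_zero]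
    · intro c x _ hx
      rw [map_smul, LinearMap.smul_apply, hx, smul_zero]
  -- the basis
  let B : I ⊕ I → ι → ℂ := Sum.elim w w'
  have hli : LinearIndependent ℂ B := by
    rw [Fintype.linearIndependent_iff]
    intro c hc0
    rw [Fintype.sum_sum_type] at hc0
    simp only [B, Sum.elim_inl, Sum.elim_inr] at hc0
    have h1 : ∀ i, c (Sum.inr i) = 0 := by
      intro i
      have h2 := congrArg (ψ (w i)) hc0
      rw [map_add, map_sum, map_sum, map_zero] at h2
      simp only [map_smul, hww, hww', smul_eq_mul, mul_zero, Finset.sum_const_zero, zero_add,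
        mul_ite, mul_one] at h2
      rw [Finset.sum_ite_eq] at h2
      simpa using h2
    have h3 : ∑ i, c (Sum.inl i) • w i = 0 := by
      rw [← hc0]
      simp [h1]
    rw [Fintype.linearIndependent_iff] at hw
    rintro (i | i)
    · exact hw _ h3 i
    · exact h1 i
  have hsp : ⊤ ≤ Submodule.span ℂ (Set.range B) := by
    intro v _
    obtain ⟨p, q, rfl, hp, hq⟩ := hsplit v
    have h1 : p ∈ Submodule.span ℂ (Set.range w) := by
      rw [hspan, Module.End.mem_eigenspace_iff]
      exact hp
    have h2 : Submodule.span ℂ (Set.range w) ≤ Submodule.span ℂ (Set.range B) := by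
      refine Submodule.span_mono ?_
      rintro _ ⟨i, rfl⟩
      exact ⟨Sum.inl i, rfl⟩
    refine Submodule.add_mem _ (h2 h1) ?_
    have h3 : q = ∑ j, ψ (w j) q • w' j := by
      rw [← sub_eq_zero]
      refine hdet _ ?_ ?_
      · rw [Matrix.mulVec_sub, hq, Matrix.mulVec_sum, smul_sub, Finset.smul_sum]
        congr 1
        refine Finset.sum_congr rfl fun j _ => ?_
        rw [Matrix.mulVec_smul, hw'T, smul_comm]
      · intro i
        rw [map_sub, map_sum]
        simp only [map_smul, hww', smul_eq_mul, mul_ite, mul_one, mul_zero]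
        rw [Finset.sum_ite_eq]
        simp
    rw [h3]
    refine Submodule.sum_mem _ fun j _ => Submodule.smul_mem _ _ (Submodule.subset_span ⟨Sum.inr j, rfl⟩)
  let b : Basis (I ⊕ I) ℂ (ι → ℂ) := Basis.mk hli hsp
  have hb1 : ∀ i, b (Sum.inl i) = w i := fun i => by simp [b, B]
  have hb2 : ∀ i, b (Sum.inr i) = w' i := fun i => by simp [b, B]
  -- the coroots
  have hcor : ∀ (i : I) (c : Matrix ι ι ℂ), c ∈ g → (∀ j, c.mulVec (w j) = if j = i then w j else 0) →
      c.transpose * e + e * c = 0 → ∀ j, c.mulVec (w' j) = if j = i then -w' j else 0 := by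
    intro i c hcg hcw hce j
    have h0 := hzero c hce
    rw [← sub_eq_zero]
    refine hdet _ ?_ ?_
    · have h1 : T.mulVec (c.mulVec (w' j)) = (-δ) • c.mulVec (w' j) := by
        rw [Matrix.mulVec_mulVec, ← hTg c hcg, ← Matrix.mulVec_mulVec, hw'T, Matrix.mulVec_smul]
      rw [Matrix.mulVec_sub, h1, smul_sub]
      congr 1
      split_ifs
      · rw [Matrix.mulVec_neg, hw'T, smul_neg]
      · rw [Matrix.mulVec_zero, smul_zero]
    · intro k
      have h1 := h0 (w k) (w' j)
      rw [hcw] at h1
      rw [map_sub]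
      by_cases hki : k = i
      · subst hki
        rw [if_pos rfl] at h1
        by_cases hjk : j = k
        · subst hjk
          rw [if_pos rfl, map_neg, sub_neg_eq_add, add_comm]
          exact h1
        · rw [if_neg hjk, map_zero, sub_zero]
          rw [hww', if_neg (fun h => hjk h.symm), zero_add] at h1
          exact h1
      · rw [if_neg hki, map_zero, LinearMap.zero_apply, zero_add] at h1
        rw [h1, zero_sub]
        by_cases hji : j = i
        · subst hji
          rw [if_pos rfl, map_neg, hww', if_neg hki]; simp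
        · rw [if_neg hji, map_zero, neg_zero]
  -- apply full_sp
  have hfin := Pool.Agent.OneFrob.full_sp (𝕂 := ℂ) b Sum.swap (fun i => Sum.swap_swap i)
    (by rintro (i | i) <;> simp) ψ halt (by
      rintro (i | i) (j | j)
      · rw [hb1, hb1, hww]; simp
      · rw [hb1, hb2, hww']; simp [eq_comm]
      · rw [hb2, hb1, hw'w]; simp
      · rw [hb2, hb2, hw'w']; simp) (endo g) (by
      rintro _ ⟨x, hx, rfl⟩ _ ⟨y, hy, rfl⟩
      refine ⟨x * y - y * x, D.lie x hx y hy, ?_⟩
      simp only [LinearEquiv.coe_coe, map_sub, Matrix.toLin'_mul]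
      rfl) (by
      rintro _ ⟨x, hx, rfl⟩
      obtain ⟨κ, hκ⟩ := D.sim x hx
      exact ⟨κ, fun u v => fgPsi_sim e x κ hκ u v⟩) (by
      intro a h hh
      rcases a with i | i
      · obtain ⟨c, hcg, hcw, hce⟩ := hc i
        have hcw' := hcor i c hcg hcw hce
        have : h = Matrix.toLin' c := by
          refine b.ext fun k => ?_
          rw [hh k]
          rcases k with k | k
          · rw [hb1, Matrix.toLin'_apply, hcw]
            by_cases hk : k = i <;> simp [hk]
          · rw [hb2, Matrix.toLin'_apply, hcw']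
            by_cases hk : k = i <;> simp [hk]
        rw [this, mem_endo]
        exact hcg
      · obtain ⟨c, hcg, hcw, hce⟩ := hc i
        have hcw' := hcor i c hcg hcw hce
        have : h = Matrix.toLin' (-c) := by
          refine b.ext fun k => ?_
          rw [hh k]
          rcases k with k | k
          · rw [hb1, Matrix.toLin'_apply, Matrix.neg_mulVec, hcw]
            by_cases hk : k = i <;> simp [hk]
          · rw [hb2, Matrix.toLin'_apply, Matrix.neg_mulVec, hcw']
            by_cases hk : k = i <;> simp [hk]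
        rw [this, mem_endo]
        exact g.neg_mem hcg) (by
      intro W hW
      obtain ⟨W', h1, h2⟩ := fg_ss D W (fun x hx w hw => hW (Matrix.toLin' x) (mem_endo.2 hx) w hw)
      refine ⟨W', h1, ?_⟩
      rintro _ ⟨x, hx, rfl⟩ w hw
      exact h2 x hx w hw) (D := Matrix.toLin' M) (fun u v => hzero M hM u v) (by
      intro c hcc
      obtain ⟨Z, rfl⟩ : ∃ Z, c = Matrix.toLin' Z := ⟨LinearMap.toMatrix' c, by simp⟩
      have h1 := hcomm Z (by
        intro x hx
        have h2 := hcc _ (mem_endo.2 hx)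
        have h3 : Matrix.toLin' (Z * x) = Matrix.toLin' (x * Z) := by
          rw [Matrix.toLin'_mul, Matrix.toLin'_mul]; exact h2
        exact ((Matrix.toLin' (R := ℂ)).injective h3).symm)
      have h4 : Matrix.toLin' (Z * M) = Matrix.toLin' (M * Z) := by rw [h1]
      rw [Matrix.toLin'_mul, Matrix.toLin'_mul] at h4
      exact h4)
  exact mem_endo.1 hfin

end Pool.Agent.CoprimeSig
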