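import Pool.Agent.CoprimeSig.Defs

set_option autoImplicit false

namespace Pool.Agent.CoprimeSig

open Module

section P1
variable {ι : Type} [Fintype ι] [DecidableEq ι]

/-- The diagonal coefficient of a real matrix at the `i`-th vector of the basis `v`. -/
noncomputable def genericD (v : Basis ι ℂ (ι → ℂ)) (i : ι) : Matrix ι ι ℝ →ₗ[ℝ] ℂ where
  toFun x := v.repr (Matrix.toLin' (x.map Complex.ofReal) (v i)) i
  map_add' x y := by
    have h : (x + y).map Complex.ofReal = x.map Complex.ofReal + y.map Complex.ofReal := by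
      ext a b; simp
    rw [h, map_add]
    simp
  map_smul' c x := by
    have h : (c • x).map Complex.ofReal = (c : ℂ) • x.map Complex.ofReal := by
      ext a b; simp
    rw [h, map_smul, LinearMap.smul_apply, map_smul, Finsupp.smul_apply, RingHom.id_apply,
      Complex.real_smul, smul_eq_mul]

theorem genericD_spec (v : Basis ι ℂ (ι → ℂ)) {x : Matrix ι ι ℝ} {i : ι}
    (h : ∃ c : ℂ, Matrix.toLin' (x.map Complex.ofReal) (v i) = c • v i) :
    Matrix.toLin' (x.map Complex.ofReal) (v i) = genericD v i x • v i := by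
  obtain ⟨c, hc⟩ := h
  have : genericD v i x = c := by
    change v.repr (Matrix.toLin' (x.map Complex.ofReal) (v i)) i = c
    rw [hc]; simp
  rw [this, hc]

/-- A generic element of a real space of simultaneously diagonalised real matrices: a matrix
commuting with it commutes with the whole space. Moreover this stays true near `X`. -/
theorem exists_generic (t₀ : Submodule ℝ (Matrix ι ι ℝ)) (v : Basis ι ℂ (ι → ℂ))
    (hv : ∀ x ∈ t₀, ∀ i, ∃ c : ℂ, Matrix.toLin' (x.map Complex.ofReal) (v i) = c • v i) :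
    ∃ X ∈ t₀, ∃ ε > 0, ∀ h ∈ t₀, (∀ i j, |h i j - X i j| < ε) →
      ∀ M : Matrix ι ι ℂ, M * h.map Complex.ofReal = h.map Complex.ofReal * M →
        ∀ y ∈ t₀, M * y.map Complex.ofReal = y.map Complex.ofReal * M := by
  classical
  -- the pairs separated by `t₀`
  let P : Finset (ι × ι) := Finset.univ.filter
    (fun p => ∃ y ∈ t₀, genericD v p.1 y ≠ genericD v p.2 y)
  -- a generic `X`
  obtain ⟨X, hX⟩ : ∃ X : t₀, ∀ p ∈ P, genericD v p.1 (X : Matrix ι ι ℝ) ≠
      genericD v p.2 (X : Matrix ι ι ℝ) := by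
    let K : ι × ι → Submodule ℝ t₀ := fun p =>
      LinearMap.ker (((genericD v p.1 - genericD v p.2) : Matrix ι ι ℝ →ₗ[ℝ] ℂ).comp t₀.subtype)
    have hK : (⊤ : Submodule ℝ t₀) ∉ P.image K := by
      intro hmem
      obtain ⟨p, hp, hpK⟩ := Finset.mem_image.1 hmem
      obtain ⟨y, hy, hne⟩ := (Finset.mem_filter.1 hp).2
      have : (⟨y, hy⟩ : t₀) ∈ K p := by rw [hpK]; trivial
      have h2 := LinearMap.mem_ker.1 this
      exact hne (sub_eq_zero.1 h2)
    have hU := Subspace.biUnion_ne_univ_of_top_notMem hK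
    obtain ⟨X, hX⟩ := (Set.ne_univ_iff_exists_notMem _).1 hU
    refine ⟨X, fun p hp heq => hX ?_⟩
    simp only [Set.mem_iUnion]
    exact ⟨K p, Finset.mem_image_of_mem K hp, LinearMap.mem_ker.2 (sub_eq_zero.2 heq)⟩
  -- openness
  have hopen : IsOpen {h : Matrix ι ι ℝ | ∀ p ∈ P, genericD v p.1 h ≠ genericD v p.2 h} := by
    have : {h : Matrix ι ι ℝ | ∀ p ∈ P, genericD v p.1 h ≠ genericD v p.2 h} =
        ⋂ p ∈ P, {h : Matrix ι ι ℝ | genericD v p.1 h ≠ genericD v p.2 h} := by
      ext h; simp
    rw [this]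
    refine isOpen_biInter_finset fun p _ => ?_
    exact isOpen_ne_fun (LinearMap.continuous_of_finiteDimensional (genericD v p.1))
      (LinearMap.continuous_of_finiteDimensional (genericD v p.2))
  obtain ⟨ε, hε, hball⟩ := (Metric.isOpen_iff (α := ι → ι → ℝ)).1 hopen (X : Matrix ι ι ℝ) hX
  refine ⟨X, X.2, ε, hε, fun h hh hclose M hM y hy => ?_⟩
  have hsep : ∀ p ∈ P, genericD v p.1 h ≠ genericD v p.2 h := by
    have hdist : dist (α := ι → ι → ℝ) h (X : Matrix ι ι ℝ) < ε :=
      (dist_pi_lt_iff hε).2 fun i => (dist_pi_lt_iff hε).2 fun j => by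
        rw [Real.dist_eq]; exact hclose i j
    exact hball hdist
  -- `M` respects the joint eigenspaces
  apply Matrix.toLin'.injective
  refine v.ext fun j => ?_
  rw [Matrix.toLin'_mul, Matrix.toLin'_mul, LinearMap.comp_apply, LinearMap.comp_apply,
    genericD_spec v (hv y hy j), map_smul]
  set w := Matrix.toLin' M (v j) with hw
  have hMw : Matrix.toLin' (h.map Complex.ofReal) w = genericD v j h • w := by
    have h1 := congrArg (fun N => Matrix.toLin' N (v j)) hM
    simp only [Matrix.toLin'_mul, LinearMap.comp_apply] at h1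
    rw [genericD_spec v (hv h hh j), map_smul] at h1
    exact h1.symm
  have hrepr : ∀ (x : Matrix ι ι ℝ), x ∈ t₀ → ∀ i,
      v.repr (Matrix.toLin' (x.map Complex.ofReal) w) i = genericD v i x * v.repr w i := by
    intro x hx i
    conv_lhs => rw [← v.sum_repr w]
    rw [map_sum, map_sum, Finset.sum_apply']
    rw [Finset.sum_eq_single i]
    · rw [map_smul, genericD_spec v (hv x hx i)]
      simp [mul_comm]
    · intro b _ hb
      rw [map_smul, genericD_spec v (hv x hx b)]
      simp [hb]
    · intro hi; exact absurd (Finset.mem_univ i) hi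
  apply v.repr.injective
  ext i
  rw [hrepr y hy i, map_smul, Finsupp.smul_apply, smul_eq_mul]
  by_cases hc : v.repr w i = 0
  · rw [hc, mul_zero, mul_zero]
  · have h2 := congrArg (fun u => v.repr u i) hMw
    simp only [map_smul, Finsupp.smul_apply, smul_eq_mul] at h2
    rw [hrepr h hh i] at h2
    have h3 : genericD v i h = genericD v j h := mul_right_cancel₀ hc h2
    have h4 : (i, j) ∉ P := fun hp => hsep _ hp h3
    have h5 : genericD v i y = genericD v j y := by
      by_contra hne
      exact h4 (Finset.mem_filter.2 ⟨Finset.mem_univ _, y, hy, hne⟩)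
    rw [h5]

end P1

end Pool.Agent.CoprimeSig
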