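import Pool.Agent.CoprimeSig.Defs2
import Pool.Agent.GHCOdd.Fields

/-!
# Irreducibility of the eigenspaces (CS22)
-/

set_option autoImplicit false

namespace Pool.Agent.CoprimeSig

open Module

variable {ι : Type} [Fintype ι] [DecidableEq ι] {g : Submodule ℂ (Matrix ι ι ℂ)}
  {J E : Matrix ι ι ℝ} {K : Type} [Field K] [NumberField K] {R : K →+* Matrix ι ι ℚ}

/-- Descent for spaces of matrices. -/
private theorem irrHS_descent (S : Submodule ℂ (Matrix ι ι ℂ))
    (hS : ∀ σ : ℂ →+* ℂ, ∀ A ∈ S, A.map σ ∈ S) :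
    S ≤ Submodule.span ℂ {A | A ∈ S ∧ ∃ Q : Matrix ι ι ℚ, A = ratM Q} := by
  let c : (ι × ι → ℂ) ≃ₗ[ℂ] Matrix ι ι ℂ := LinearEquiv.curry ℂ ℂ ι ι
  have hc : ∀ (f : ι × ι → ℂ) (i j : ι), c f i j = f (i, j) := fun f i j => rfl
  have h1 := Pool.Agent.GHCOdd.descent
    (S.comap (c : (ι × ι → ℂ) →ₗ[ℂ] Matrix ι ι ℂ)) (by
    intro σ u hu
    exact hS σ _ hu)
  intro A hA
  have h2 : c.symm A ∈ S.comap (c : (ι × ι → ℂ) →ₗ[ℂ] Matrix ι ι ℂ) := by
    rw [Submodule.mem_comap]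
    simpa using hA
  have h3 := h1 h2
  have h4 := Submodule.mem_map_of_mem
    (f := (c : (ι × ι → ℂ) →ₗ[ℂ] Matrix ι ι ℂ)) h3
  rw [Submodule.map_span] at h4
  have h5 : (c : (ι × ι → ℂ) →ₗ[ℂ] Matrix ι ι ℂ) (c.symm A) = A := by
    simp
  rw [h5] at h4
  refine Submodule.span_mono ?_ h4
  rintro _ ⟨u, ⟨hu, hq⟩, rfl⟩
  refine ⟨hu, ?_⟩
  choose q hq using hq
  refine ⟨fun i j => q (i, j), ?_⟩
  ext i j
  exact hq (i, j)

/-- The eigenspaces for different embeddings are independent. -/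
private theorem irrHS_indep (R : K →+* Matrix ι ι ℚ) : iSupIndep (HS R) := by
  obtain ⟨θ, hθ⟩ := Field.exists_primitive_element ℚ K
  have hinj : Function.Injective (fun σ : K →+* ℂ => σ θ) := by
    intro σ σ' h
    let L : IntermediateField ℚ K := (RingHom.eqLocusField σ σ').toIntermediateField (by
      intro q
      change σ (algebraMap ℚ K q) = σ' (algebraMap ℚ K q)
      rw [eq_ratCast, map_ratCast, map_ratCast])
    have h1 : IntermediateField.adjoin ℚ {θ} ≤ L := by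
      rw [IntermediateField.adjoin_simple_le_iff]
      exact h
    rw [hθ] at h1
    ext x
    exact h1 (IntermediateField.mem_top (x := x))
  have h1 := (Module.End.eigenspaces_iSupIndep (Matrix.toLin' (ratM (R θ)))).comp hinj
  refine h1.mono ?_
  intro σ v hv
  change v ∈ Module.End.eigenspace (Matrix.toLin' (ratM (R θ))) (σ θ)
  rw [Module.End.mem_eigenspace_iff, Matrix.toLin'_apply]
  exact hv θ

private theorem irrHS_mulVec (Q : Matrix ι ι ℚ) (τ : ℂ →+* ℂ) (u : ι → ℂ) :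
    (ratM Q).mulVec (fun i => τ (u i)) = fun i => τ ((ratM Q).mulVec u i) := by
  funext i
  simp only [Matrix.mulVec, dotProduct, ratM, Matrix.map_apply, map_sum, map_mul, map_ratCast]

/-- CS22 (file Irr.lean). -/
theorem irr_HS (D : MTData g J E) (hK : ∀ r, ∀ x ∈ g, x * ratM (R r) = ratM (R r) * x)
    (hs : Simple g) (σ₀ : K →+* ℂ) (U : Submodule ℂ (ι → ℂ)) (hU : U ≤ HS R σ₀)
    (hg : ∀ x ∈ g, ∀ u ∈ U, x.mulVec u ∈ U)
    (hcj : ∀ τ : ℂ →+* ℂ, τ.comp σ₀ = σ₀ → cj τ U ≤ U) : U = ⊥ ∨ U = HS R σ₀ := by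
  set UU : Submodule ℂ (ι → ℂ) := ⨆ τ : ℂ →+* ℂ, cj τ U with hUU
  have hmem : ∀ (τ : ℂ →+* ℂ), ∀ u ∈ U, (fun i => τ (u i)) ∈ UU := fun τ u hu =>
    (le_iSup (fun τ : ℂ →+* ℂ => cj τ U) τ) (Submodule.subset_span ⟨u, hu, rfl⟩)
  have hUUle : ∀ (T : Submodule ℂ (ι → ℂ)),
      (∀ τ : ℂ →+* ℂ, ∀ u ∈ U, (fun i => τ (u i)) ∈ T) → UU ≤ T := by
    intro T hT
    refine iSup_le fun τ => Submodule.span_le.mpr ?_
    rintro _ ⟨v, hv, rfl⟩
    exact hT τ v hv
  have hst : ∀ (σ : ℂ →+* ℂ), ∀ u ∈ UU, (fun i => σ (u i)) ∈ UU := by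
    intro σ u hu
    let T : Submodule ℂ (ι → ℂ) :=
      { carrier := {u | (fun i => σ (u i)) ∈ UU}
        add_mem' := by
          intro a b ha hb
          have h1 : (fun i => σ ((a + b) i)) = (fun i => σ (a i)) + fun i => σ (b i) := by
            funext i
            simp
          rw [Set.mem_setOf_eq, h1]
          exact UU.add_mem ha hb
        zero_mem' := by
          have h1 : (fun i => σ ((0 : ι → ℂ) i)) = 0 := by
            funext i
            simp
          rw [Set.mem_setOf_eq, h1]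
          exact UU.zero_mem
        smul_mem' := by
          intro c a ha
          have h1 : (fun i => σ ((c • a) i)) = σ c • fun i => σ (a i) := by
            funext i
            simp
          rw [Set.mem_setOf_eq, h1]
          exact UU.smul_mem _ ha }
    exact (hUUle T (fun τ u hu => hmem (σ.comp τ) u hu)) hu
  have hgst : ∀ x ∈ g, ∀ u ∈ UU, x.mulVec u ∈ UU := by
    intro x hx
    have hx2 := irrHS_descent g D.conj hx
    refine Submodule.span_induction (p := fun x _ => ∀ u ∈ UU, x.mulVec u ∈ UU)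
      ?_ ?_ ?_ ?_ hx2
    · rintro _ ⟨hA, Q, rfl⟩ u hu
      have h1 : UU ≤ UU.comap (Matrix.toLin' (ratM Q)) := hUUle _ (by
        intro τ u hu
        rw [Submodule.mem_comap, Matrix.toLin'_apply, irrHS_mulVec]
        exact hmem τ _ (hg _ hA u hu))
      have h2 := h1 hu
      rwa [Submodule.mem_comap, Matrix.toLin'_apply] at h2
    · intro u _
      rw [Matrix.zero_mulVec]
      exact UU.zero_mem
    · intro a b _ _ ha hb u hu
      rw [Matrix.add_mulVec]
      exact UU.add_mem (ha u hu) (hb u hu)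
    · intro c a _ ha u hu
      rw [Matrix.smul_mulVec]
      exact UU.smul_mem _ (ha u hu)
  rcases hs UU hst hgst with h | h
  · left
    rw [eq_bot_iff, ← h]
    intro u hu
    exact hmem (RingHom.id ℂ) u hu
  · right
    refine le_antisymm hU ?_
    intro w hw
    have h1 : UU ≤ U ⊔ ⨆ σ ≠ σ₀, HS R σ := by
      refine hUUle _ ?_
      intro τ u hu
      by_cases hτ : τ.comp σ₀ = σ₀
      · exact (le_sup_left : U ≤ U ⊔ ⨆ σ ≠ σ₀, HS R σ)
          (hcj τ hτ (Submodule.subset_span ⟨u, hu, rfl⟩))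
      · have h2 : (fun i => τ (u i)) ∈ HS R (τ.comp σ₀) := by
          intro r
          rw [irrHS_mulVec, hU hu r]
          funext i
          simp
        have h3 : HS R (τ.comp σ₀) ≤ ⨆ σ ≠ σ₀, HS R σ :=
          le_iSup₂ (f := fun (σ : K →+* ℂ) (_ : σ ≠ σ₀) => HS R σ) (τ.comp σ₀) hτ
        exact (le_sup_right : (⨆ σ ≠ σ₀, HS R σ) ≤ U ⊔ ⨆ σ ≠ σ₀, HS R σ) (h3 h2)
    have h2 : w ∈ U ⊔ ⨆ σ ≠ σ₀, HS R σ := h1 (by rw [h]; exact Submodule.mem_top)
    obtain ⟨a, ha, b, hb, hab⟩ := Submodule.mem_sup.mp h2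
    have h3 : b ∈ HS R σ₀ := by
      have h4 : b = w - a := by rw [← hab, add_sub_cancel_left]
      rw [h4]
      exact Submodule.sub_mem _ hw (hU ha)
    have h5 : b = 0 := (Submodule.disjoint_def.mp (irrHS_indep R σ₀)) b h3 hb
    rw [← hab, h5, add_zero]
    exact ha

end Pool.Agent.CoprimeSig
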