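import Pool.Agent.CoprimeSig.Defs2

/-!
# Nondegeneracy of the trace form
-/

set_option autoImplicit false

open scoped Matrix MatrixOrder ComplexOrder

namespace Pool.Agent.CoprimeSig

open Module Matrix

variable {ι : Type} [Fintype ι] [DecidableEq ι] {g : Submodule ℂ (Matrix ι ι ℂ)}
  {J E : Matrix ι ι ℝ}

private theorem traceND_sqrt {P : Matrix ι ι ℝ} (hP : P.PosDef) :
    ∃ B C : Matrix ι ι ℂ, P.map Complex.ofReal = Bᴴ * B ∧ B * C = 1 ∧ C * B = 1 := by
  obtain ⟨B, hB⟩ := CStarAlgebra.nonneg_iff_eq_star_mul_self.mp hP.posSemidef.nonneg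
  have hu : IsUnit (star B * B) := hB ▸ hP.isUnit
  have hd : IsUnit B.det := by
    have h := (Matrix.isUnit_iff_isUnit_det _).mp hu
    rw [Matrix.det_mul] at h
    exact isUnit_of_mul_isUnit_right h
  have hmul : ∀ X Y : Matrix ι ι ℝ, (X * Y).map Complex.ofReal =
      X.map Complex.ofReal * Y.map Complex.ofReal :=
    fun X Y => Matrix.map_mul (f := Complex.ofRealHom)
  have hone : (1 : Matrix ι ι ℝ).map Complex.ofReal = 1 :=
    Matrix.map_one _ Complex.ofReal_zero Complex.ofReal_one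
  refine ⟨B.map Complex.ofReal, B⁻¹.map Complex.ofReal, ?_, ?_, ?_⟩
  · rw [hB, hmul]
    congr 1
    ext i j
    simp [Matrix.star_eq_conjTranspose, Matrix.conjTranspose_apply]
  · rw [← hmul, Matrix.mul_nonsing_inv _ hd, hone]
  · rw [← hmul, Matrix.nonsing_inv_mul _ hd, hone]

/-- CS21 (file TraceND.lean). The adjoint for the hermitian form `conj(u)^T P v`, `P = J^T E`, of
`x` in `g` is `κ' + J (conj x) J`, which is in `g`, so the trace form is nondegenerate. -/
theorem trace_nd (D : MTData g J E) : ∀ x ∈ g, (∀ y ∈ g, (x * y).trace = 0) → x = 0 := by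
  intro x hx h
  obtain ⟨B, C, hP, hBC, hCB⟩ := traceND_sqrt D.pos
  have hmul : ∀ X Y : Matrix ι ι ℝ, (X * Y).map Complex.ofReal =
      X.map Complex.ofReal * Y.map Complex.ofReal :=
    fun X Y => Matrix.map_mul (f := Complex.ofRealHom)
  set Jc := J.map Complex.ofReal with hJc
  set Ec := E.map Complex.ofReal with hEc
  have hJJ : Jc * Jc = -1 := by
    rw [hJc, ← hmul, D.JJ]
    ext i j
    by_cases hij : i = j
    · subst hij; simp
    · simp [hij]
  -- `P = J^T E = - E J`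
  have hsymm : Jᵀ * E = -(E * J) := by
    have h1 := D.pos.isHermitian
    rw [Matrix.IsHermitian, Matrix.conjTranspose_eq_transpose_of_trivial, Matrix.transpose_mul,
      Matrix.transpose_transpose, D.alt] at h1
    rw [← h1, Matrix.neg_mul]
  have hPc : Bᴴ * B = -(Ec * Jc) := by
    rw [← hP, hsymm, hEc, hJc, ← hmul]
    ext i j
    simp
  set xb := x.map (starRingEnd ℂ) with hxb
  have hxbg : xb ∈ g := D.conj (starRingEnd ℂ) x hx
  have hxbT : xbᵀ = xᴴ := by
    ext i j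
    simp [hxb, Matrix.conjTranspose_apply]
  obtain ⟨κ, hκ⟩ := D.sim xb hxbg
  have hκ' : xbᵀ * Ec = κ • Ec - Ec * xb := by
    rw [← hκ]; abel
  -- the adjoint
  have hyg : κ • (1 : Matrix ι ι ℂ) + Jc * xb * Jc ∈ g := by
    have h1 : Jc * xb - xb * Jc ∈ g := D.lie _ D.Jg _ hxbg
    have h2 : Jc * (Jc * xb - xb * Jc) - (Jc * xb - xb * Jc) * Jc ∈ g := D.lie _ D.Jg _ h1
    have h3 : Jc * xb * Jc =
        -xb - (1 / 2 : ℂ) • (Jc * (Jc * xb - xb * Jc) - (Jc * xb - xb * Jc) * Jc) := by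
      have h4 : Jc * (Jc * xb - xb * Jc) - (Jc * xb - xb * Jc) * Jc =
          -(2 : ℂ) • xb - (2 : ℂ) • (Jc * xb * Jc) := by
        have e1 : Jc * (Jc * xb) = -xb := by rw [← Matrix.mul_assoc, hJJ, Matrix.neg_mul,
          Matrix.one_mul]
        have e2 : xb * Jc * Jc = -xb := by rw [Matrix.mul_assoc, hJJ, Matrix.mul_neg,
          Matrix.mul_one]
        rw [Matrix.mul_sub, Matrix.sub_mul, e1, e2, ← Matrix.mul_assoc]
        module
      rw [h4]
      module
    rw [h3]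
    exact g.add_mem (g.smul_mem _ D.one) (g.sub_mem (g.neg_mem hxbg) (g.smul_mem _ h2))
  set y := κ • (1 : Matrix ι ι ℂ) + Jc * xb * Jc with hy
  have hadj : Bᴴ * B * y = xᴴ * (Bᴴ * B) := by
    have e1 : Bᴴ * B * y = κ • (Bᴴ * B) + Ec * xb * Jc := by
      have e2 : Bᴴ * B * (Jc * xb * Jc) = Ec * xb * Jc := by
        rw [hPc]
        calc -(Ec * Jc) * (Jc * xb * Jc) = -(Ec * (Jc * Jc) * xb * Jc) := by
              simp only [Matrix.neg_mul, Matrix.mul_assoc]
          _ = Ec * xb * Jc := by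
              rw [hJJ]; simp
      rw [hy, Matrix.mul_add, e2, Matrix.mul_smul, Matrix.mul_one]
    have e3 : xᴴ * (Bᴴ * B) = κ • (Bᴴ * B) + Ec * xb * Jc := by
      rw [← hxbT, hPc, Matrix.mul_neg, ← Matrix.mul_assoc, hκ', Matrix.sub_mul, Matrix.smul_mul,
        smul_neg]
      abel
    rw [e1, e3]
  have hy2 : y = C * (Cᴴ * xᴴ * Bᴴ) * B := by
    have h1 : Cᴴ * (Bᴴ * B * y) = Cᴴ * (xᴴ * (Bᴴ * B)) := by rw [hadj]
    have h2 : Cᴴ * Bᴴ = 1 := by rw [← Matrix.conjTranspose_mul, hBC, Matrix.conjTranspose_one]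
    have h3 : B * y = Cᴴ * xᴴ * Bᴴ * B := by
      calc B * y = Cᴴ * Bᴴ * (B * y) := by rw [h2, Matrix.one_mul]
        _ = Cᴴ * (Bᴴ * B * y) := by simp only [Matrix.mul_assoc]
        _ = Cᴴ * (xᴴ * (Bᴴ * B)) := h1
        _ = Cᴴ * xᴴ * Bᴴ * B := by simp only [Matrix.mul_assoc]
    calc y = C * B * y := by rw [hCB, Matrix.one_mul]
      _ = C * (B * y) := by rw [Matrix.mul_assoc]
      _ = C * (Cᴴ * xᴴ * Bᴴ * B) := by rw [h3]
      _ = C * (Cᴴ * xᴴ * Bᴴ) * B := by simp only [Matrix.mul_assoc]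
  have htr := h y hyg
  have hN : ((B * x * C) * (B * x * C)ᴴ).trace = 0 := by
    have h1 : (B * x * C) * (B * x * C)ᴴ = B * (x * (C * (Cᴴ * xᴴ * Bᴴ))) := by
      simp only [Matrix.conjTranspose_mul, Matrix.mul_assoc]
    rw [h1, Matrix.trace_mul_comm]
    have h2 : x * (C * (Cᴴ * xᴴ * Bᴴ)) * B = x * y := by
      rw [hy2]; simp only [Matrix.mul_assoc]
    rw [h2, htr]
  have hN0 : B * x * C = 0 := Matrix.trace_mul_conjTranspose_self_eq_zero_iff.mp hN
  calc x = C * B * x * (C * B) := by rw [hCB, Matrix.one_mul, Matrix.mul_one]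
    _ = C * (B * x * C) * B := by simp only [Matrix.mul_assoc]
    _ = 0 := by rw [hN0, Matrix.mul_zero, Matrix.zero_mul]

end Pool.Agent.CoprimeSig
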