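import Pool.Agent.CoprimeSig.Torus
import Pool.Agent.CoprimeSig.Trans
import Pool.Agent.CoprimeSig.Core
import Pool.Agent.CoprimeSig.HSum
import Pool.Agent.CoprimeSig.Cj
import Pool.Agent.CoprimeSig.TraceND
import Pool.Agent.CoprimeSig.Irr
import Pool.Agent.CoprimeSig.Coroot
import Pool.Agent.CoprimeSig.FullG

/-!
# The Lie algebra is the full Lefschetz algebra
-/

set_option autoImplicit false

namespace Pool.Agent.CoprimeSig

open Module

variable {ι : Type} [Fintype ι] [DecidableEq ι] {g t : Submodule ℂ (Matrix ι ι ℂ)}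
  {J E : Matrix ι ι ℝ} {K : Type} [Field K] [NumberField K] {R : K →+* Matrix ι ι ℚ}

private theorem tl_mul (x y : Matrix ι ι ℂ) :
    Matrix.toLin' x * Matrix.toLin' y = Matrix.toLin' (x * y) := (Matrix.toLin'_mul x y).symm

private theorem tl_inj {x y : Matrix ι ι ℂ} : Matrix.toLin' x = Matrix.toLin' y ↔ x = y :=
  (Matrix.toLin' (R := ℂ)).injective.eq_iff

private theorem tl_trace (x : Matrix ι ι ℂ) :
    LinearMap.trace ℂ (ι → ℂ) (Matrix.toLin' x) = x.trace := by
  rw [Matrix.trace_toLin'_eq]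

private theorem tl_range (x : End ℂ (ι → ℂ)) : ∃ y : Matrix ι ι ℂ, x = Matrix.toLin' y :=
  ⟨LinearMap.toMatrix' x, (Matrix.toLin'_toMatrix' x).symm⟩

/-- The torus is a Cartan subalgebra in the sense of `Cartan`. -/
private theorem cartan (D : MTData g J E) (htg : t ≤ g)
    (htc : ∀ x ∈ t, ∀ y ∈ t, x * y = y * x) (hcent : ∀ x ∈ g, (∀ y ∈ t, x * y = y * x) → x ∈ t)
    (v : Basis ι ℂ (ι → ℂ)) (hv : ∀ x ∈ t, ∀ i, ∃ c : ℂ, Matrix.toLin' x (v i) = c • v i) :
    Cartan (endo g) (endo t) where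
  comm := by
    rintro _ ⟨x, hx, rfl⟩ _ ⟨y, hy, rfl⟩
    change Matrix.toLin' x * Matrix.toLin' y = Matrix.toLin' y * Matrix.toLin' x
    rw [tl_mul, tl_mul, htc x hx y hy]
  diag := by
    refine ⟨ι, inferInstance, v, ?_⟩
    rintro _ ⟨x, hx, rfl⟩ i
    exact hv x hx i
  lie := by
    rintro _ ⟨x, hx, rfl⟩ _ ⟨y, hy, rfl⟩
    change Matrix.toLin' x * Matrix.toLin' y - Matrix.toLin' y * Matrix.toLin' x ∈ endo g
    rw [tl_mul, tl_mul, ← map_sub]
    exact mem_endo.2 (D.lie x hx y hy)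
  nd := by
    rintro _ ⟨x, hx, rfl⟩ h
    have h1 : x = 0 := by
      refine trace_nd D x hx fun y hy => ?_
      have h2 := h _ (mem_endo.2 hy)
      change LinearMap.trace ℂ _ (Matrix.toLin' x * Matrix.toLin' y) = 0 at h2
      rwa [tl_mul, tl_trace] at h2
    rw [h1]
    exact map_zero _
  le := by
    rintro _ ⟨x, hx, rfl⟩
    exact ⟨x, htg hx, rfl⟩
  cent := by
    rintro _ ⟨x, hx, rfl⟩ h
    refine mem_endo.2 (hcent x hx fun y hy => ?_)
    have h2 := h _ (mem_endo.2 hy)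
    change Matrix.toLin' x * Matrix.toLin' y = Matrix.toLin' y * Matrix.toLin' x at h2
    rwa [tl_mul, tl_mul, tl_inj] at h2

/-- Elements commuting with the field preserve its eigenspaces. -/
private theorem pres {x : Matrix ι ι ℂ} (hx : ∀ r, x * ratM (R r) = ratM (R r) * x)
    (σ : K →+* ℂ) {w : ι → ℂ} (hw : w ∈ HS R σ) : x.mulVec w ∈ HS R σ := by
  intro r
  rw [Matrix.mulVec_mulVec, ← hx r, ← Matrix.mulVec_mulVec, hw r, Matrix.mulVec_smul]

/-- The projector onto an eigenspace. -/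
private theorem exists_pr (R : K →+* Matrix ι ι ℚ) (σ : K →+* ℂ) :
    ∃ Z : Matrix ι ι ℂ, (∀ w ∈ HS R σ, Z.mulVec w = w) ∧ (∀ w, Z.mulVec w ∈ HS R σ) ∧
      ∀ x : Matrix ι ι ℂ, (∀ r, x * ratM (R r) = ratM (R r) * x) → x * Z = Z * x := by
  obtain ⟨htop, hind, -⟩ := HS_decomp R
  have hc : IsCompl (HS R σ) (⨆ τ, ⨆ _ : τ ≠ σ, HS R τ) := by
    refine ⟨hind σ, ?_⟩
    rw [codisjoint_iff, eq_top_iff, ← htop]
    refine iSup_le fun τ => ?_
    by_cases h : τ = σ
    · rw [h]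
      exact le_sup_left
    · exact le_sup_of_le_right (le_iSup_of_le τ (le_iSup_of_le h le_rfl))
  let p : (ι → ℂ) →ₗ[ℂ] (ι → ℂ) := (HS R σ).subtype ∘ₗ (HS R σ).projectionOnto _ hc
  have hp1 : ∀ w ∈ HS R σ, p w = w := by
    intro w hw
    have := Submodule.projectionOnto_apply_left hc ⟨w, hw⟩
    exact congrArg Subtype.val this
  have hp2 : ∀ w ∈ (⨆ τ, ⨆ _ : τ ≠ σ, HS R τ), p w = 0 := by
    intro w hw
    have h1 : (HS R σ).projectionOnto _ hc w = 0 :=
      (Submodule.projectionOnto_apply_eq_zero_iff hc).2 hw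
    change ((HS R σ).projectionOnto _ hc w : ι → ℂ) = 0
    rw [h1]
    rfl
  obtain ⟨Z, hZ⟩ := tl_range p
  have hZ' : ∀ w, Z.mulVec w = p w := by
    intro w
    rw [hZ, Matrix.toLin'_apply]
  refine ⟨Z, fun w hw => by rw [hZ', hp1 w hw], fun w => ?_, fun x hx => ?_⟩
  · rw [hZ']
    exact ((HS R σ).projectionOnto _ hc w).2
  · rw [← tl_inj]
    refine LinearMap.ext fun w => ?_
    rw [Matrix.toLin'_apply, Matrix.toLin'_apply, ← Matrix.mulVec_mulVec, ← Matrix.mulVec_mulVec,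
      hZ', hZ']
    have hw : w ∈ HS R σ ⊔ (⨆ τ, ⨆ _ : τ ≠ σ, HS R τ) := by
      rw [hc.sup_eq_top]
      exact Submodule.mem_top
    obtain ⟨u, hu, u', hu', rfl⟩ := Submodule.mem_sup.1 hw
    have h3 : ∀ u' ∈ (⨆ τ, ⨆ _ : τ ≠ σ, HS R τ),
        x.mulVec u' ∈ (⨆ τ, ⨆ _ : τ ≠ σ, HS R τ) := by
      have h4 : (⨆ τ, ⨆ _ : τ ≠ σ, HS R τ) ≤
          (⨆ τ, ⨆ _ : τ ≠ σ, HS R τ).comap (Matrix.toLin' x) := by
        refine iSup_le fun τ => iSup_le fun h => ?_
        intro y hy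
        rw [Submodule.mem_comap, Matrix.toLin'_apply]
        exact Submodule.mem_iSup_of_mem τ (Submodule.mem_iSup_of_mem h (pres hx τ hy))
      intro u' hu'
      have h5 := h4 hu'
      rwa [Submodule.mem_comap, Matrix.toLin'_apply] at h5
    rw [Matrix.mulVec_add, map_add, map_add, hp1 u hu, hp2 u' hu', hp1 _ (pres hx σ hu),
      hp2 _ (h3 u' hu'), add_zero, add_zero]

private theorem tr_idem {P : Matrix ι ι ℂ} (h : P * P = P) :
    P.trace = (finrank ℂ (LinearMap.range (Matrix.toLin' P)) : ℂ) := by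
  rw [← tl_trace]
  refine LinearMap.IsProj.trace (p := LinearMap.range (Matrix.toLin' P)) ⟨fun x => ⟨x, rfl⟩, ?_⟩
  rintro _ ⟨x, rfl⟩
  rw [← LinearMap.comp_apply, ← Matrix.toLin'_mul, h]

private theorem eq_zero_of_tr {P : Matrix ι ι ℂ} (h : P * P = P) (h0 : P.trace = 0) : P = 0 := by
  have h1 := tr_idem h
  rw [h0] at h1
  have h2 : finrank ℂ (LinearMap.range (Matrix.toLin' P)) = 0 := by exact_mod_cast h1.symm
  rw [Submodule.finrank_eq_zero, LinearMap.range_eq_bot] at h2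
  exact tl_inj.1 (by rw [h2, map_zero])

private theorem map_range {Z : Matrix ι ι ℂ} {U : Submodule ℂ (ι → ℂ)}
    (h1 : ∀ w ∈ U, Z.mulVec w = w) (h2 : ∀ w, Z.mulVec w ∈ U) (e : Matrix ι ι ℂ) :
    LinearMap.range (Matrix.toLin' (e * Z)) = U.map (Matrix.toLin' e) := by
  apply le_antisymm
  · rintro _ ⟨w, rfl⟩
    refine ⟨Z.mulVec w, h2 w, ?_⟩
    rw [Matrix.toLin'_apply, Matrix.toLin'_apply, Matrix.mulVec_mulVec]
  · rintro _ ⟨w, hw, rfl⟩
    refine ⟨w, ?_⟩
    rw [Matrix.toLin'_apply, Matrix.toLin'_apply, ← Matrix.mulVec_mulVec, h1 w hw]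

private theorem hp_idem (D : MTData g J E) : hp J * hp J = hp J := by
  have hJJ : J.map Complex.ofReal * J.map Complex.ofReal = -1 := by
    have h1 : (Complex.ofRealHom.mapMatrix (J * J) : Matrix ι ι ℂ) =
        Complex.ofRealHom.mapMatrix (-1) := by rw [D.JJ]
    rw [map_mul, map_neg, map_one] at h1
    exact h1
  rw [hp, smul_mul_smul_comm, sub_mul, mul_sub, mul_sub, one_mul, one_mul, mul_one,
    smul_mul_smul_comm, hJJ, Complex.I_mul_I]
  module

private theorem hp_mem (D : MTData g J E) : hp J ∈ g := by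
  rw [hp]
  exact g.smul_mem _ (g.sub_mem D.one (g.smul_mem _ D.Jg))

private theorem trace_hp (D : MTData g J E) : (hp J).trace = (Fintype.card ι : ℂ) / 2 := by
  have hP : J.transpose * E = -(E * J) := by
    have h1 : (J.transpose * E).transpose = J.transpose * E := by
      have h2 := D.pos.1
      rwa [Matrix.IsHermitian, Matrix.conjTranspose_eq_transpose_of_trivial] at h2
    rw [Matrix.transpose_mul, Matrix.transpose_transpose, D.alt] at h1
    rw [← h1, Matrix.neg_mul]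
  have hJ : J.trace = 0 := by
    have hunit : IsUnit (J.transpose * E) := D.pos.isUnit
    have hE : IsUnit E := by
      have h1 : E = -(J.transpose * (J.transpose * E)) := by
        rw [← mul_assoc, ← Matrix.transpose_mul, D.JJ, Matrix.transpose_neg, Matrix.transpose_one,
          Matrix.neg_mul, one_mul, neg_neg]
      have h2 : IsUnit J.transpose := by
        refine ⟨⟨J.transpose, -J.transpose, ?_, ?_⟩, rfl⟩
        · rw [mul_neg, ← Matrix.transpose_mul, D.JJ, Matrix.transpose_neg, Matrix.transpose_one,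
            neg_neg]
        · rw [neg_mul, ← Matrix.transpose_mul, D.JJ, Matrix.transpose_neg, Matrix.transpose_one,
            neg_neg]
      rw [h1]
      exact (h2.mul hunit).neg
    obtain ⟨F, hF⟩ := hE
    have h1 : J.transpose = -(E * J * (F⁻¹ : (Matrix ι ι ℝ)ˣ)) := by
      have h2 : J.transpose * E * (F⁻¹ : (Matrix ι ι ℝ)ˣ) = J.transpose := by
        rw [← hF, mul_assoc, Units.mul_inv, mul_one]
      rw [← h2, hP, neg_mul]
    have h2 : J.trace = -J.trace := by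
      calc J.trace = J.transpose.trace := (Matrix.trace_transpose J).symm
        _ = -(E * J * (F⁻¹ : (Matrix ι ι ℝ)ˣ)).trace := by rw [h1, Matrix.trace_neg]
        _ = -J.trace := by
            rw [Matrix.trace_mul_comm, ← mul_assoc, ← hF, Units.inv_mul, one_mul]
    linarith
  have h3 : (J.map Complex.ofReal).trace = 0 := by
    have h4 : (J.map Complex.ofReal).trace = ((J.trace : ℝ) : ℂ) := by
      simp [Matrix.trace]
    rw [h4, hJ, Complex.ofReal_zero]
  rw [hp, Matrix.trace_smul, Matrix.trace_sub, Matrix.trace_smul, h3, Matrix.trace_one]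
  simp
  ring

private theorem isUnit_E (D : MTData g J E) : IsUnit (E.map Complex.ofReal) := by
  have hunit : IsUnit (J.transpose * E) := D.pos.isUnit
  have hE : IsUnit E := by
    have h1 : E = -(J.transpose * (J.transpose * E)) := by
      rw [← mul_assoc, ← Matrix.transpose_mul, D.JJ, Matrix.transpose_neg, Matrix.transpose_one,
        Matrix.neg_mul, one_mul, neg_neg]
    have h2 : IsUnit J.transpose := by
      refine ⟨⟨J.transpose, -J.transpose, ?_, ?_⟩, rfl⟩
      · rw [mul_neg, ← Matrix.transpose_mul, D.JJ, Matrix.transpose_neg, Matrix.transpose_one,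
          neg_neg]
      · rw [neg_mul, ← Matrix.transpose_mul, D.JJ, Matrix.transpose_neg, Matrix.transpose_one,
          neg_neg]
    rw [h1]
    exact (h2.mul hunit).neg
  exact hE.map (Complex.ofRealHom.mapMatrix : Matrix ι ι ℝ →+* Matrix ι ι ℂ)

/-- The square root of `-d` is in the Lie algebra. -/
theorem root_mem (D : MTData g J E) (T : Matrix ι ι ℂ) (δ : ℂ) (hδ : δ ≠ 0)
    (hT : T * T = (δ * δ) • (1 : Matrix ι ι ℂ)) (hTg : ∀ x ∈ g, x * T = T * x)
    (hskew : T.transpose * E.map Complex.ofReal = -(E.map Complex.ofReal * T))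
    (I : Type) [Fintype I] [DecidableEq I] (w : I → ι → ℂ)
    (hspan : (Submodule.span ℂ (Set.range w) : Submodule ℂ (ι → ℂ)) =
      Module.End.eigenspace (Matrix.toLin' T) δ)
    (hc : ∀ i, ∃ c ∈ g, (∀ j, c.mulVec (w j) = if j = i then w j else 0) ∧
      c.transpose * E.map Complex.ofReal + E.map Complex.ofReal * c = 0) : T ∈ g := by
  choose c hcg hcw hcs using hc
  set C : Matrix ι ι ℂ := ∑ i, c i with hC
  have hCg : C ∈ g := Submodule.sum_mem _ fun i _ => hcg i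
  have hCs : C.transpose * E.map Complex.ofReal = -(E.map Complex.ofReal * C) := by
    rw [hC, Matrix.transpose_sum, Finset.sum_mul, Finset.mul_sum, ← Finset.sum_neg_distrib]
    exact Finset.sum_congr rfl fun i _ => eq_neg_of_add_eq_zero_left (hcs i)
  have hCT : C * T = T * C := hTg C hCg
  have hCw : ∀ j, C.mulVec (w j) = w j := by
    intro j
    rw [hC, Matrix.sum_mulVec, Finset.sum_congr rfl fun i _ => hcw i j]
    simp
  have hCv : ∀ u ∈ Module.End.eigenspace (Matrix.toLin' T) δ, C.mulVec u = u := by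
    intro u hu
    rw [← hspan] at hu
    induction hu using Submodule.span_induction with
    | mem x hx =>
      obtain ⟨j, rfl⟩ := hx
      exact hCw j
    | zero => exact Matrix.mulVec_zero _
    | add x y _ _ hx hy => rw [Matrix.mulVec_add, hx, hy]
    | smul r x _ hx => rw [Matrix.mulVec_smul, hx]
  set P : Matrix ι ι ℂ := δ • C - T with hP
  have hPT : P * T = T * P := by
    rw [hP, sub_mul, mul_sub, Matrix.smul_mul, Matrix.mul_smul, hCT]
  have h1 : P * (T + δ • 1) = 0 := by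
    rw [← tl_inj, map_zero]
    refine LinearMap.ext fun u => ?_
    rw [Matrix.toLin'_apply, ← Matrix.mulVec_mulVec, LinearMap.zero_apply]
    have h2 : T.mulVec ((T + δ • 1).mulVec u) = δ • (T + δ • 1).mulVec u := by
      rw [Matrix.mulVec_mulVec, ← Matrix.smul_mulVec]
      congr 1
      rw [mul_add, hT, Matrix.mul_smul, mul_one, smul_add, smul_smul, add_comm]
    have h3 : (T + δ • 1).mulVec u ∈ Module.End.eigenspace (Matrix.toLin' T) δ := by
      rw [Module.End.mem_eigenspace_iff, Matrix.toLin'_apply]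
      exact h2
    rw [hP, Matrix.sub_mulVec, Matrix.smul_mulVec, hCv _ h3, h2, sub_self]
  have hPs : P.transpose * E.map Complex.ofReal = -(E.map Complex.ofReal * P) := by
    rw [hP, Matrix.transpose_sub, Matrix.transpose_smul, sub_mul, mul_sub, Matrix.smul_mul,
      Matrix.mul_smul, hCs, hskew]
    module
  have h4 : (δ • 1 - T) * P = 0 := by
    have h5 : (T + δ • 1).transpose * (P.transpose * E.map Complex.ofReal) = 0 := by
      rw [← mul_assoc, ← Matrix.transpose_mul, h1, Matrix.transpose_zero, zero_mul]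
    rw [hPs, mul_neg, neg_eq_zero, ← mul_assoc, Matrix.transpose_add, Matrix.transpose_smul,
      Matrix.transpose_one, add_mul, Matrix.smul_mul, one_mul, hskew] at h5
    obtain ⟨F, hF⟩ := isUnit_E D
    have h6 : E.map Complex.ofReal * ((δ • 1 - T) * P) = 0 := by
      have h7 : E.map Complex.ofReal * (δ • 1 - T) =
          -(E.map Complex.ofReal * T) + δ • E.map Complex.ofReal := by
        rw [mul_sub, Matrix.mul_smul, mul_one, sub_eq_neg_add]
      rw [← mul_assoc, h7]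
      exact h5
    rw [← hF] at h6
    exact (Units.mul_right_eq_zero F).1 h6
  have h5 : P = 0 := by
    have h6 : P * (δ • 1 - T) = 0 := by
      rw [mul_sub, hPT, Matrix.mul_smul, mul_one, ← h4, sub_mul, Matrix.smul_mul, one_mul]
    have h7 : P * (T + δ • 1) + P * (δ • 1 - T) = (2 * δ) • P := by
      rw [← mul_add]
      have h8 : T + δ • 1 + (δ • 1 - T) = (2 * δ) • (1 : Matrix ι ι ℂ) := by
        module
      rw [h8, Matrix.mul_smul, mul_one]
    rw [h1, h6, add_zero] at h7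
    exact (smul_eq_zero.1 h7.symm).resolve_left (mul_ne_zero two_ne_zero hδ)
  have h6 : T = δ • C := by
    rw [hP, sub_eq_zero] at h5
    exact h5.symm
  rw [h6]
  exact g.smul_mem _ hCg

/-- CS26. The Lie algebra is the full Lefschetz algebra. -/
theorem lefschetz (D : MTData g J E) (hs : Simple g)
    (hK : ∀ r, ∀ x ∈ g, x * ratM (R r) = ratM (R r) * x)
    (s : K) (d : ℚ) (hd : 0 < d) (hs2 : s * s = -algebraMap ℚ K d)
    (hskew : (ratM (R s)).transpose * E.map Complex.ofReal =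
      -(E.map Complex.ofReal * ratM (R s)))
    (σ₀ : K →+* ℂ) {l k : ℕ} (hl : l.Prime) (hk : finrank ℂ (HS R σ₀) = l ^ k)
    (h0 : ∀ σ : K →+* ℂ, σ s = σ₀ s → σ ≠ σ₀ → ∀ w ∈ HS R σ, (hp J).mulVec w = 0)
    (hla : ¬ l ∣ finrank ℂ ((HS R σ₀).map (Matrix.toLin' (hp J))))
    (h4 : 4 * finrank ℂ ((HS R σ₀).map (Matrix.toLin' (hp J))) ≠ Fintype.card ι) :
    ratM (R s) ∈ g ∧ σ₀ s ≠ 0 ∧ ratM (R s) * ratM (R s) = (σ₀ s * σ₀ s) • (1 : Matrix ι ι ℂ) ∧
    ∀ M : Matrix ι ι ℂ, M.transpose * E.map Complex.ofReal + E.map Complex.ofReal * M = 0 →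
      (∀ Z : Matrix ι ι ℂ, (∀ x ∈ g, x * Z = Z * x) → M * Z = Z * M) → M ∈ g := by
  obtain ⟨t, htg, htc, hcent, htconj, ⟨v, hv⟩, e, het, hee, htr⟩ := exists_torus D
  have C := cartan D htg htc hcent v hv
  have hKg : ∀ x ∈ g, ∀ r, x * ratM (R r) = ratM (R r) * x := fun x hx r => hK r x hx
  set W' : Submodule ℂ (ι → ℂ) := HS R σ₀ with hW'
  set SS : Set (Submodule ℂ (ι → ℂ)) := {U | ∃ σ : K →+* ℂ, σ s = σ₀ s ∧ σ ≠ σ₀ ∧ U = HS R σ}
    with hSS
  set W'' : Submodule ℂ (ι → ℂ) := sSup SS with hW''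
  have hmemW : ∀ σ : K →+* ℂ, σ s = σ₀ s → σ ≠ σ₀ → HS R σ ≤ W'' :=
    fun σ h1 h2 => le_sSup ⟨σ, h1, h2, rfl⟩
  have hst' : ∀ x ∈ endo g, ∀ w ∈ W', x w ∈ W' := by
    rintro _ ⟨x, hx, rfl⟩ w hw
    exact pres (hKg x hx) σ₀ hw
  have hst'' : ∀ x ∈ endo g, ∀ w ∈ W'', x w ∈ W'' := by
    rintro _ ⟨x, hx, rfl⟩ w hw
    have h1 : W'' ≤ W''.comap (Matrix.toLin' x) := by
      refine sSup_le ?_
      rintro _ ⟨σ, h1, h2, rfl⟩ y hy
      rw [Submodule.mem_comap, Matrix.toLin'_apply]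
      exact hmemW σ h1 h2 (pres (hKg x hx) σ hy)
    exact h1 hw
  let S : Set (Submodule ℂ (ι → ℂ) → Submodule ℂ (ι → ℂ)) :=
    {f | ∃ τ : ℂ →+* ℂ, τ.comp σ₀ = σ₀ ∧ f = cj τ}
  have hS : ∀ f ∈ S, IsSym (endo t) W' W'' f := by
    rintro _ ⟨τ, hτ, rfl⟩
    refine isSym_cj htconj τ ?_ ?_
    · have h1 := cj_HS_le τ R σ₀
      rwa [hτ] at h1
    · rw [hW'', cj_sSup]
      refine sSup_le ?_
      rintro _ ⟨_, ⟨σ, h1, h2, rfl⟩, rfl⟩
      refine (cj_HS_le τ R σ).trans (le_sSup ⟨τ.comp σ, ?_, ?_, rfl⟩)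
      · have h3 := RingHom.congr_fun hτ s
        rw [RingHom.comp_apply] at h3 ⊢
        rw [h1, h3]
      · intro h3
        apply h2
        ext r
        apply τ.injective
        have h4 := RingHom.congr_fun (h3.trans hτ.symm) r
        exact h4
  have htrans := trans C hst' hst'' ((Fintype.card ι : ℂ) / 2) S hS (by
    intro U hU hgU hSU _
    refine irr_HS D hK hs σ₀ U hU (fun x hx u hu => ?_) fun τ hτ => hSU _ ⟨τ, hτ, rfl⟩
    have h1 := hgU _ (mem_endo.2 hx) u hu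
    rwa [Matrix.toLin'_apply] at h1)
  -- the Hodge idempotent of the torus
  have heK : ∀ r, e * ratM (R r) = ratM (R r) * e := hKg e (htg het)
  have hhK : ∀ r, hp J * ratM (R r) = ratM (R r) * hp J := hKg _ (hp_mem D)
  have hsq : ∀ {P Z : Matrix ι ι ℂ}, P * P = P → P * Z = Z * P → Z * Z = Z →
      (P * Z) * (P * Z) = P * Z := by
    intro P Z h1 h2 h3
    calc P * Z * (P * Z) = P * (Z * P) * Z := by simp only [mul_assoc]
      _ = P * P * (Z * Z) := by rw [← h2]; simp only [mul_assoc]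
      _ = P * Z := by rw [h1, h3]
  have hZZ : ∀ {Z : Matrix ι ι ℂ} {U : Submodule ℂ (ι → ℂ)}, (∀ w ∈ U, Z.mulVec w = w) →
      (∀ w, Z.mulVec w ∈ U) → Z * Z = Z := by
    intro Z U h1 h2
    rw [← tl_inj]
    refine LinearMap.ext fun w => ?_
    rw [Matrix.toLin'_apply, Matrix.toLin'_apply, ← Matrix.mulVec_mulVec, h1 _ (h2 w)]
  have he0 : ∀ σ : K →+* ℂ, σ s = σ₀ s → σ ≠ σ₀ → ∀ w ∈ HS R σ, e.mulVec w = 0 := by
    intro σ h1 h2 w hw
    obtain ⟨Z, hZ1, hZ2, hZ3⟩ := exists_pr R σ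
    have h3 : e * Z = 0 := by
      refine eq_zero_of_tr (hsq hee (hZ3 e heK) (hZZ hZ1 hZ2)) ?_
      rw [htr Z fun x hx => hZ3 x (hKg x hx)]
      have h5 : hp J * Z = 0 := by
        rw [← tl_inj, map_zero]
        refine LinearMap.ext fun w => ?_
        rw [Matrix.toLin'_apply, ← Matrix.mulVec_mulVec, h0 σ h1 h2 _ (hZ2 w)]
        rfl
      rw [h5, Matrix.trace_zero]
    rw [← hZ1 w hw, Matrix.mulVec_mulVec, h3, Matrix.zero_mulVec]
  have heE : Matrix.toLin' e ∈ EE (endo t) W'' ((Fintype.card ι : ℂ) / 2) := by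
    refine ⟨mem_endo.2 het, by rw [tl_mul, hee], fun w hw => ?_, ?_⟩
    · have h1 : W'' ≤ LinearMap.ker (Matrix.toLin' e) := by
        refine sSup_le ?_
        rintro _ ⟨σ, h1, h2, rfl⟩ y hy
        rw [LinearMap.mem_ker, Matrix.toLin'_apply]
        exact he0 σ h1 h2 y hy
      exact h1 hw
    · rw [tl_trace]
      have h1 := htr 1 fun x _ => by rw [mul_one, one_mul]
      rw [mul_one, mul_one] at h1
      rw [h1, trace_hp D]
  have ha : finrank ℂ (W'.map (Matrix.toLin' e)) = finrank ℂ (W'.map (Matrix.toLin' (hp J))) := by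
    obtain ⟨Z, hZ1, hZ2, hZ3⟩ := exists_pr R σ₀
    have h1 := tr_idem (hsq hee (hZ3 e heK) (hZZ hZ1 hZ2))
    have h2 := tr_idem (hsq (hp_idem D) (hZ3 _ hhK) (hZZ hZ1 hZ2))
    rw [map_range hZ1 hZ2] at h1 h2
    rw [htr Z fun x hx => hZ3 x (hKg x hx), h2] at h1
    exact_mod_cast h1.symm
  obtain ⟨v', hv'⟩ := core C.toTor (fun x hx w hw => hst' x (C.le hx) w hw)
    ((Fintype.card ι : ℂ) / 2) htrans hl hk heE ha hla
  have hx' : ∀ i, ∃ x ∈ t, (∀ j, x.mulVec (v' j : ι → ℂ) =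
      if j = i then (v' j : ι → ℂ) else 0) ∧ (∀ w ∈ W'', x.mulVec w = 0) ∧
      x.trace = (Fintype.card ι : ℂ) / 2 / (finrank ℂ (W'.map (Matrix.toLin' (hp J))) : ℂ) := by
    intro i
    obtain ⟨_, ⟨x, hx, rfl⟩, h1, h2, h3⟩ := hv' i
    exact ⟨x, hx, h1, h2, by rw [← h3]; exact (tl_trace x).symm⟩
  choose x hxt hxv hxW hxtr using hx'
  have hone : (1 : Matrix ι ι ℂ) ∈ t := hcent 1 D.one fun y _ => by rw [one_mul, mul_one]
  have ha0 : finrank ℂ (W'.map (Matrix.toLin' (hp J))) ≠ 0 := by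
    intro h
    rw [h] at hla
    exact hla (dvd_zero l)
  obtain ⟨I, hI1, hI2, w, hw1, hw2, hw3⟩ := coroots D hK htg hone htconj s d hd hs2 hskew σ₀
    ha0 h4 v' x hxt hxv (fun i σ h1 h2 y hy =>
      hxW i y (hmemW σ h1 h2 hy)) (fun i => by
      rw [hxtr i]
      field_simp)
  have hδ : σ₀ s * σ₀ s = -(d : ℂ) := by
    rw [← map_mul, hs2, map_neg, ← RingHom.comp_apply]
    rw [eq_ratCast]
  have hδ0 : σ₀ s ≠ 0 := by
    intro h
    rw [h, mul_zero] at hδ
    have h1 : (d : ℂ) = 0 := by rw [← neg_eq_zero, ← hδ]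
    exact hd.ne' (by exact_mod_cast h1)
  have hTT : ratM (R s) * ratM (R s) = (σ₀ s * σ₀ s) • (1 : Matrix ι ι ℂ) := by
    have h1 : ratM (R s) * ratM (R s) = ratM (R (s * s)) := by
      rw [map_mul]
      unfold ratM
      exact (Matrix.map_mul (f := Rat.castHom ℂ)).symm
    have h2 : R (s * s) = (-d) • (1 : Matrix ι ι ℚ) := by
      rw [hs2, map_neg, ← RingHom.comp_apply, neg_smul]
      congr 1
      have h3 : ∀ (f : ℚ →+* Matrix ι ι ℚ), f d = d • (1 : Matrix ι ι ℚ) := by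
        intro f
        have h4 : f = algebraMap ℚ (Matrix ι ι ℚ) := Subsingleton.elim _ _
        rw [h4, Algebra.algebraMap_eq_smul_one]
      exact h3 _
    rw [h1, h2, hδ]
    ext i j
    by_cases hij : i = j
    · subst hij
      simp [ratM]
    · simp [ratM, hij]
  have hw4 : ∀ i, ∃ c ∈ g, (∀ j, c.mulVec (w j) = if j = i then w j else 0) ∧
      c.transpose * E.map Complex.ofReal + E.map Complex.ofReal * c = 0 := by
    intro i
    obtain ⟨c, hc, h1, h2⟩ := hw3 i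
    exact ⟨c, htg hc, h1, h2⟩
  exact ⟨root_mem D (ratM (R s)) (σ₀ s) hδ0 hTT (fun x hx => hK s x hx) hskew I w hw2 hw4,
    hδ0, hTT, fun M hM hcomm => full_of_coroots D (ratM (R s)) (σ₀ s) hδ0 hTT
      (fun x hx => hK s x hx) hskew I w hw1 hw2 hw4 M hM hcomm⟩

end Pool.Agent.CoprimeSig
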