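import Pool.Agent.CoprimeSig.ExpAd

/-!
# Openness of the map `(z, h) ↦ exp(z) h exp(-z)`
-/

set_option autoImplicit false

namespace Pool.Agent.CoprimeSig

private theorem openMap_deriv {A : Type*} [NormedRing A] [NormedAlgebra ℝ A] [CompleteSpace A]
    (g t₀ : Submodule ℝ A) {X : A} (hX : X ∈ t₀) :
    ∃ L : (g × t₀) →L[ℝ] A, HasStrictFDerivAt (fun p : g × t₀ =>
      NormedSpace.exp (p.1 : A) * (p.2 : A) * NormedSpace.exp (-(p.1 : A))) L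
        ((0 : g), (⟨X, hX⟩ : t₀)) ∧
      ∀ p : g × t₀, L p = (p.1 : A) * X - X * (p.1 : A) + (p.2 : A) := by
  have hfst : HasStrictFDerivAt (fun p : g × t₀ => (p.1 : A))
      (g.subtypeL.comp (ContinuousLinearMap.fst ℝ g t₀)) ((0 : g), (⟨X, hX⟩ : t₀)) :=
    (g.subtypeL.comp (ContinuousLinearMap.fst ℝ g t₀)).hasStrictFDerivAt
  have hsnd : HasStrictFDerivAt (fun p : g × t₀ => (p.2 : A))
      (t₀.subtypeL.comp (ContinuousLinearMap.snd ℝ g t₀)) ((0 : g), (⟨X, hX⟩ : t₀)) :=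
    (t₀.subtypeL.comp (ContinuousLinearMap.snd ℝ g t₀)).hasStrictFDerivAt
  have hexp : HasStrictFDerivAt (NormedSpace.exp : A → A) (1 : A →L[ℝ] A) 0 :=
    hasStrictFDerivAt_exp_zero
  have h1 : HasStrictFDerivAt (fun p : g × t₀ => NormedSpace.exp (p.1 : A))
      ((1 : A →L[ℝ] A).comp
        (g.subtypeL.comp (ContinuousLinearMap.fst ℝ g t₀))) ((0 : g), (⟨X, hX⟩ : t₀)) :=
    HasStrictFDerivAt.comp (g := (NormedSpace.exp : A → A)) _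
      (by simpa using hexp) hfst
  have h2 : HasStrictFDerivAt (fun p : g × t₀ => NormedSpace.exp (-(p.1 : A)))
      ((1 : A →L[ℝ] A).comp
        (-(g.subtypeL.comp (ContinuousLinearMap.fst ℝ g t₀)))) ((0 : g), (⟨X, hX⟩ : t₀)) :=
    HasStrictFDerivAt.comp (g := (NormedSpace.exp : A → A)) _
      (by simpa using hexp) hfst.neg
  refine ⟨_, (h1.mul' hsnd).mul' h2, fun p => ?_⟩
  simp
  abel

private theorem openMap_near {A : Type*} [NormedRing A] [NormedAlgebra ℝ A]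
    [FiniteDimensional ℝ A] (g t₀ : Submodule ℝ A)
    (hexp : ∀ z ∈ g, ∀ x ∈ g, NormedSpace.exp z * x * NormedSpace.exp (-z) ∈ g) (ht : t₀ ≤ g)
    {X : A} (hX : X ∈ t₀)
    (hsurj : ∀ x ∈ g, ∃ z ∈ g, ∃ h ∈ t₀, x = z * X - X * z + h) (S : Set A)
    (hS : S ∈ nhds X) :
    ∃ T ∈ nhds X, ∀ Y ∈ g, Y ∈ T → ∃ z ∈ g, ∃ h ∈ t₀,
      h ∈ S ∧ Y = NormedSpace.exp z * h * NormedSpace.exp (-z) := by
  have hc : CompleteSpace A := FiniteDimensional.complete ℝ A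
  obtain ⟨L, hL, hLp⟩ := openMap_deriv g t₀ hX
  obtain ⟨P, hP⟩ := LinearMap.exists_leftInverse_of_injective g.subtype
    (LinearMap.ker_eq_bot.mpr g.injective_subtype)
  have hP' : ∀ x : g, P (x : A) = x := fun x => LinearMap.congr_fun hP x
  let Pc : A →L[ℝ] g := LinearMap.toContinuousLinearMap P
  have hPc : ∀ x : g, Pc (x : A) = x := hP'
  let F : g × t₀ → g := fun p => Pc (NormedSpace.exp (p.1 : A) * (p.2 : A) *
    NormedSpace.exp (-(p.1 : A)))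
  have hF : HasStrictFDerivAt F (Pc.comp L) ((0 : g), (⟨X, hX⟩ : t₀)) :=
    Pc.hasStrictFDerivAt.comp _ hL
  have hrange : (Pc.comp L).range = ⊤ := by
    rw [eq_top_iff]
    intro x _
    obtain ⟨z, hz, h, hh, hx⟩ := hsurj x x.2
    refine ⟨(⟨z, hz⟩, ⟨h, hh⟩), ?_⟩
    have : L (⟨z, hz⟩, ⟨h, hh⟩) = (x : A) := by rw [hLp, hx]
    change Pc (L (⟨z, hz⟩, ⟨h, hh⟩)) = x
    rw [this, hPc]
  have hmap := hF.map_nhds_eq_of_surj hrange
  have hF0 : F ((0 : g), (⟨X, hX⟩ : t₀)) = ⟨X, ht hX⟩ := by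
    change Pc _ = _
    rw [← hPc ⟨X, ht hX⟩]
    simp
  rw [hF0] at hmap
  have hN : {p : g × t₀ | (p.2 : A) ∈ S} ∈ nhds ((0 : g), (⟨X, hX⟩ : t₀)) := by
    have hcont : Continuous fun p : g × t₀ => (p.2 : A) := by fun_prop
    exact hcont.continuousAt.preimage_mem_nhds hS
  have h3 : F '' {p : g × t₀ | (p.2 : A) ∈ S} ∈ nhds (⟨X, ht hX⟩ : g) := by
    rw [← hmap]
    exact Filter.image_mem_map hN
  rw [nhds_subtype] at h3
  obtain ⟨T, hT, hTs⟩ := h3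
  refine ⟨T, hT, fun Y hY hYT => ?_⟩
  have h4 : (⟨Y, hY⟩ : g) ∈ F '' {p : g × t₀ | (p.2 : A) ∈ S} := hTs hYT
  obtain ⟨⟨z, h⟩, hS', hzh⟩ := h4
  refine ⟨z, z.2, h, h.2, hS', ?_⟩
  have h5 := hPc ⟨_, hexp z z.2 h (ht h.2)⟩
  have h6 : F (z, h) = ⟨_, hexp z z.2 h (ht h.2)⟩ := h5
  rw [h6] at hzh
  exact (congrArg Subtype.val hzh).symm

variable {ι : Type} [Fintype ι] [DecidableEq ι]

/-- CS5. The map `(z, h) ↦ exp(z) h exp(-z)` is open at `(0, X)` if `[g, X] + t₀ = g`. -/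
theorem exists_near (g t₀ : Submodule ℝ (Matrix ι ι ℝ))
    (hlie : ∀ x ∈ g, ∀ y ∈ g, x * y - y * x ∈ g) (ht : t₀ ≤ g) {X : Matrix ι ι ℝ} (hX : X ∈ t₀)
    (hsurj : ∀ x ∈ g, ∃ z ∈ g, ∃ h ∈ t₀, x = z * X - X * z + h) {ε : ℝ} (hε : 0 < ε) :
    ∃ δ > 0, ∀ Y ∈ g, (∀ i j, |Y i j - X i j| < δ) → ∃ z ∈ g, ∃ h ∈ t₀,
      (∀ i j, |h i j - X i j| < ε) ∧ Y = NormedSpace.exp z * h * NormedSpace.exp (-z) := by
  have key : ∃ T ∈ nhds X, ∀ Y ∈ g, Y ∈ T → ∃ z ∈ g, ∃ h ∈ t₀,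
      h ∈ {h : Matrix ι ι ℝ | ∀ i j, |h i j - X i j| < ε} ∧
      Y = NormedSpace.exp z * h * NormedSpace.exp (-z) := by
    have hS : {h : Matrix ι ι ℝ | ∀ i j, |h i j - X i j| < ε} ∈ nhds X := by
      have h1 : {h : Matrix ι ι ℝ | ∀ i j, |h i j - X i j| < ε} =
          ⋂ i, ⋂ j, {h : Matrix ι ι ℝ | |h i j - X i j| < ε} := by
        ext h
        simp
      rw [h1]
      refine Filter.iInter_mem.mpr fun i => Filter.iInter_mem.mpr fun j => ?_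
      have hcont : Continuous fun h : Matrix ι ι ℝ => |h i j - X i j| := by fun_prop
      exact hcont.continuousAt.eventually_lt continuousAt_const (by simpa using hε)
    open scoped Matrix.Norms.Operator in
    exact openMap_near g t₀ (fun z hz x hx => exp_conj_mem g hlie hz hx) ht hX hsurj _ hS
  obtain ⟨T, hT, hY⟩ := key
  have h2 : ∃ δ > 0, ∀ Y : Matrix ι ι ℝ, (∀ i j, |Y i j - X i j| < δ) → Y ∈ T := by
    open scoped Matrix.Norms.Elementwise in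
    obtain ⟨δ, hδ, hb⟩ := Metric.mem_nhds_iff.mp hT
    refine ⟨δ, hδ, fun Y hYδ => hb ?_⟩
    rw [Metric.mem_ball, dist_eq_norm, Matrix.norm_lt_iff hδ]
    exact hYδ
  obtain ⟨δ, hδ, h3⟩ := h2
  exact ⟨δ, hδ, fun Y hYg hYδ => hY Y hYg (h3 Y hYδ)⟩

end Pool.Agent.CoprimeSig
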