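import Pool.Agent.CoprimeSig.Pair

/-!
# Opposite root vectors

If the root `α` of `x` does not vanish on an idempotent of `t`, then `x² = 0` and there is an
opposite root vector `y` with `x y x = x`, `y x y = y`, `y² = 0` and `x y - y x ∈ t`.
-/

set_option autoImplicit false

namespace Pool.Agent.CoprimeSig

open Module

variable {K H : Type*} [Field K] [AddCommGroup H] [Module K H]

/-- An eigenvalue of the commutator with an idempotent is 0, 1 or -1. -/
theorem opp_ad_idem {f x : End K H} {c : K} (hf : f * f = f) (h : f * x - x * f = c • x)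
    (hx : x ≠ 0) : c = 0 ∨ c = 1 ∨ c = -1 := by
  have h1 : f * (f * x - x * f) - (f * x - x * f) * f = c • (f * x - x * f) := by
    rw [h, mul_smul_comm, smul_mul_assoc, ← smul_sub, h]
  have h2 : f * (f * (f * x - x * f) - (f * x - x * f) * f) -
      (f * (f * x - x * f) - (f * x - x * f) * f) * f = f * x - x * f := by
    have e1 : f * (f * (f * x - x * f) - (f * x - x * f) * f) -
      (f * (f * x - x * f) - (f * x - x * f) * f) * f =
      (f * f) * f * x - 3 • ((f * f) * x * f) + 3 • (f * x * (f * f)) - x * (f * f) * f := by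
      noncomm_ring
    rw [e1, hf, hf, mul_assoc x f f, hf]
    noncomm_ring
  have h3 : (c ^ 3 - c) • x = 0 := by
    rw [h1, mul_smul_comm, smul_mul_assoc, ← smul_sub, h1, h] at h2
    rw [sub_smul, ← h2]
    simp only [smul_smul, ← sub_smul]
    ring_nf
    simp
  rcases smul_eq_zero.mp h3 with h4 | h4
  · have h5 : c * ((c - 1) * (c + 1)) = 0 := by linear_combination h4
    rcases mul_eq_zero.mp h5 with h6 | h6
    · exact Or.inl h6
    · rcases mul_eq_zero.mp h6 with h7 | h7
      · exact Or.inr (Or.inl (sub_eq_zero.mp h7))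
      · exact Or.inr (Or.inr (eq_neg_of_add_eq_zero_left h7))
  · exact absurd h4 hx

/-- A root vector which does not commute with an idempotent has square zero. -/
theorem opp_sq_zero [CharZero K] {f x : End K H} {c : K} (hf : f * f = f)
    (h : f * x - x * f = c • x) (hc : c ≠ 0) : x * x = 0 := by
  by_contra hne
  have h1 : f * (x * x) - (x * x) * f = (2 * c) • (x * x) := by
    have e1 : f * (x * x) - (x * x) * f = (f * x - x * f) * x + x * (f * x - x * f) := by
      noncomm_ring
    rw [e1, h, smul_mul_assoc, mul_smul_comm, ← add_smul]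
    ring_nf
  have hx : x ≠ 0 := by
    rintro rfl
    simp at hne
  rcases opp_ad_idem hf h hx with h2 | h2 | h2 <;> rcases opp_ad_idem hf h1 hne with h3 | h3 | h3
  all_goals first
    | exact hc h2
    | (rw [h2] at h3; norm_num at h3)

theorem Tor.eq_zero_of_sq {t : Submodule K (End K H)} (T : Tor t) {k : End K H} (hk : k ∈ t)
    (h2 : k * k = 0) : k = 0 := by
  obtain ⟨I, _, v, hv⟩ := T.diag
  refine v.ext fun i => ?_
  obtain ⟨c, hc⟩ := hv k hk i
  have h1 : (c * c) • v i = 0 := by
    have h3 : (k * k) (v i) = 0 := by rw [h2]; rfl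
    rw [Module.End.mul_apply, hc, map_smul, hc, smul_smul] at h3
    exact h3
  have h4 : c = 0 := by
    rcases smul_eq_zero.mp h1 with h5 | h5
    · exact mul_self_eq_zero.mp h5
    · exact absurd h5 (v.ne_zero i)
  rw [hc, h4, zero_smul]
  rfl

variable [FiniteDimensional K H] {g t : Submodule K (End K H)}

/-- If the root `α` does not vanish on an idempotent `ε` of `t`, then it takes the value `1` or `-1`
there and there is a normalised opposite root vector. -/
theorem exists_opp [CharZero K] (C : Cartan g t) {α : End K H → K} {x : End K H}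
    (hx : IsRoot g t α x) (h0 : x ≠ 0) {ε : End K H} (hε : ε ∈ t) (hεε : ε * ε = ε)
    (hα : α ε ≠ 0) : (α ε = 1 ∨ α ε = -1) ∧ ∃ y, Opp g t α x y := by
  refine ⟨?_, ?_⟩
  · rcases opp_ad_idem hεε (hx.root ε hε) h0 with h | h | h
    · exact absurd h hα
    · exact Or.inl h
    · exact Or.inr h
  obtain ⟨y1, hy1, hxy1⟩ := exists_opp_pair C hx h0
  have hxx : x * x = 0 := opp_sq_zero hεε (hx.root ε hε) hα
  have hyy : y1 * y1 = 0 := opp_sq_zero hεε (hy1.root ε hε) (neg_ne_zero.mpr hα)
  -- the bracket
  set k : End K H := x * y1 - y1 * x with hk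
  have hkg : k ∈ g := C.lie x hx.mem y1 hy1.mem
  have hkt : k ∈ t := by
    refine C.cent k hkg fun z hz => ?_
    have h1 := hx.root z hz
    have h2 := hy1.root z hz
    have e1 : z * k - k * z = (z * x - x * z) * y1 + x * (z * y1 - y1 * z) -
      (z * y1 - y1 * z) * x - y1 * (z * x - x * z) := by
      rw [hk]
      noncomm_ring
    rw [h1, h2] at e1
    have e2 : z * k - k * z = 0 := by
      rw [e1]
      simp only [neg_smul, mul_neg, neg_mul, smul_mul_assoc, mul_smul_comm]
      abel
    exact (sub_eq_zero.mp e2).symm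
  have hk2 : k * x - x * k = (2 : K) • (x * y1 * x) := by
    have e1 : k * x - x * k = x * y1 * x + x * y1 * x - y1 * (x * x) - (x * x) * y1 := by
      rw [hk]
      noncomm_ring
    rw [e1, hxx, two_smul]
    simp
  have hk3 : k * y1 - y1 * k = (-2 : K) • (y1 * x * y1) := by
    have e1 : k * y1 - y1 * k = x * (y1 * y1) - y1 * x * y1 - y1 * x * y1 + (y1 * y1) * x := by
      rw [hk]
      noncomm_ring
    rw [e1, hyy, neg_smul, two_smul]
    simp only [mul_zero, zero_mul]
    abel
  have ha : (2 : K) • (x * y1 * x) = α k • x := by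
    rw [← hk2]
    exact hx.root k hkt
  have hb : (-2 : K) • (y1 * x * y1) = (-(α k)) • y1 := by
    rw [← hk3]
    exact hy1.root k hkt
  set a : K := α k with haa
  have ha0 : a ≠ 0 := by
    intro ha0
    rw [ha0, zero_smul] at ha
    have h2 : x * y1 * x = 0 := by
      rcases smul_eq_zero.mp ha with h3 | h3
      · exact absurd h3 two_ne_zero
      · exact h3
    have h3 : k * k = 0 := by
      have e1 : k * k = (x * y1 * x) * y1 - x * (y1 * y1) * x - y1 * (x * x) * y1 +
        y1 * (x * y1 * x) := by
        rw [hk]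
        noncomm_ring
      rw [e1, h2, hxx, hyy]
      simp
    have h4 : k = 0 := C.toTor.eq_zero_of_sq hkt h3
    have h5 : LinearMap.trace K H (k * ε) = -(-(α ε)) * LinearMap.trace K H (x * y1) := by
      have e1 : LinearMap.trace K H (k * ε) =
          -LinearMap.trace K H (x * (ε * y1 - y1 * ε)) := by
        have e2 : k * ε = x * y1 * ε - y1 * (x * ε) := by
          rw [hk]
          noncomm_ring
        have e3 : x * (ε * y1 - y1 * ε) = (x * ε) * y1 - x * y1 * ε := by
          noncomm_ring
        rw [e2, e3, map_sub, map_sub, LinearMap.trace_mul_comm K y1 (x * ε)]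
        ring
      rw [e1, hy1.root ε hε, mul_smul_comm, map_smul, smul_eq_mul]
      ring
    rw [h4, zero_mul, map_zero, neg_neg] at h5
    rcases mul_eq_zero.mp h5.symm with h6 | h6
    · exact hα h6
    · exact hxy1 h6
  refine ⟨(2 / a) • y1, hx, ⟨g.smul_mem _ hy1.mem, ?_⟩, hxx, ?_, ?_, ?_, ?_⟩
  · intro z hz
    rw [mul_smul_comm, smul_mul_assoc, ← smul_sub, hy1.root z hz, smul_comm]
  · rw [smul_mul_assoc, mul_smul_comm, hyy, smul_zero, smul_zero]
  · rw [mul_smul_comm, smul_mul_assoc]
    have h1 : x * y1 * x = (a / 2) • x := by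
      have h2 := congrArg (fun u => (2⁻¹ : K) • u) ha
      simp only [smul_smul] at h2
      rw [inv_mul_cancel₀ two_ne_zero, one_smul] at h2
      rw [h2]
      ring_nf
    rw [h1, smul_smul]
    rw [show (2 / a) * (a / 2) = 1 by field_simp, one_smul]
  · rw [smul_mul_assoc, smul_mul_assoc, mul_smul_comm]
    have h1 : y1 * x * y1 = (a / 2) • y1 := by
      have h2 := congrArg (fun u => ((-2)⁻¹ : K) • u) hb
      simp only [smul_smul] at h2
      rw [inv_mul_cancel₀ (neg_ne_zero.mpr two_ne_zero), one_smul] at h2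
      rw [h2]
      congr 1
      rw [neg_inv.symm]
      ring
    rw [h1, smul_smul, smul_smul]
    congr 1
    field_simp
  · rw [mul_smul_comm, smul_mul_assoc, ← smul_sub]
    exact t.smul_mem _ hkt

end Pool.Agent.CoprimeSig
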