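import Pool.Agent.CoprimeSig.Root

/-!
# Nonzero pairing of opposite root spaces
-/

set_option autoImplicit false

namespace Pool.Agent.CoprimeSig

open Module

variable {K H : Type*} [Field K] [AddCommGroup H] [Module K H] [FiniteDimensional K H]
  {g t : Submodule K (End K H)}

omit [FiniteDimensional K H] in
private theorem pair_zero {α β : End K H → K} {x y : End K H}
    (hx : IsRoot g t α x) (hy : IsRoot g t β y) (hxy : LinearMap.trace K H (x * y) ≠ 0) :
    ∀ τ ∈ t, β τ = -α τ := by
  intro τ hτ
  have h1 : LinearMap.trace K H ((τ * x - x * τ) * y) +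
      LinearMap.trace K H (x * (τ * y - y * τ)) = 0 := by
    rw [← map_add]
    have e1 : (τ * x - x * τ) * y + x * (τ * y - y * τ) = τ * (x * y) - (x * y) * τ := by
      noncomm_ring
    rw [e1, map_sub, LinearMap.trace_mul_comm, sub_self]
  rw [hx.root τ hτ, hy.root τ hτ, smul_mul_assoc, mul_smul_comm, map_smul, map_smul, ← add_smul,
    smul_eq_mul] at h1
  rcases mul_eq_zero.mp h1 with h2 | h2
  · exact eq_neg_of_add_eq_zero_right h2
  · exact absurd h2 hxy

/-- Nonzero pairing of opposite root spaces. -/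
theorem exists_opp_pair (C : Cartan g t) {α : End K H → K} {x : End K H} (hx : IsRoot g t α x)
    (h0 : x ≠ 0) :
    ∃ y, IsRoot g t (fun τ => -α τ) y ∧ LinearMap.trace K H (x * y) ≠ 0 := by
  obtain ⟨y0, hy0, hxy0⟩ : ∃ y ∈ g, LinearMap.trace K H (x * y) ≠ 0 := by
    by_contra hcon
    push Not at hcon
    exact h0 (C.nd x hx.mem hcon)
  by_contra hcon
  push Not at hcon
  let L : End K H →ₗ[K] K := (LinearMap.trace K H).comp (LinearMap.mulLeft K x)
  have h1 : Submodule.span K {z | ∃ α, IsRoot g t α z} ≤ LinearMap.ker L := by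
    rw [Submodule.span_le]
    rintro z ⟨β, hz⟩
    change LinearMap.trace K H (x * z) = 0
    by_contra hne
    have h2 := pair_zero hx hz hne
    refine hne (hcon z ⟨hz.mem, fun τ hτ => ?_⟩)
    rw [hz.root τ hτ, h2 τ hτ]
  exact hxy0 (h1 (mem_span_roots C hy0))

end Pool.Agent.CoprimeSig
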