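import Pool.Agent.CoprimeSig.Defs

/-!
# The root space decomposition
-/

set_option autoImplicit false

namespace Pool.Agent.CoprimeSig

open Module

section Root

variable {K H : Type*} [Field K] [AddCommGroup H] [Module K H]

/-- The commutator with `τ`. -/
def rootAd (τ : End K H) : End K (End K H) where
  toFun x := τ * x - x * τ
  map_add' x y := by simp only [mul_add, add_mul]; abel
  map_smul' c x := by
    simp only [mul_smul_comm, smul_mul_assoc, RingHom.id_apply, smul_sub]

theorem rootAd_apply (τ x : End K H) : rootAd τ x = τ * x - x * τ := rfl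

theorem rootAd_comm {τ τ' : End K H} (h : τ * τ' = τ' * τ) :
    Commute (rootAd τ) (rootAd τ') := by
  ext1 x
  simp only [Module.End.mul_apply, rootAd_apply]
  rw [mul_sub, sub_mul, mul_sub, sub_mul]
  have h1 : τ * (τ' * x) = τ' * (τ * x) := by rw [← mul_assoc, h, mul_assoc]
  have h2 : x * τ' * τ = x * τ * τ' := by rw [mul_assoc, mul_assoc, h]
  rw [h1, h2]
  simp only [mul_assoc]
  abel

theorem root_ker_of_sq {M : Type*} [AddCommGroup M] [Module K M] (F : End K M) (μ : K)
    (h : ∀ z, (F - algebraMap K (End K M) μ) ((F - algebraMap K (End K M) μ) z) = 0 →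
      (F - algebraMap K (End K M) μ) z = 0) :
    F.maxGenEigenspace μ = F.eigenspace μ := by
  refine le_antisymm ?_ ?_
  · intro v hv
    rw [Module.End.mem_maxGenEigenspace] at hv
    obtain ⟨k, hk⟩ := hv
    rw [Module.End.mem_eigenspace_iff, ← sub_eq_zero]
    have key : ∀ (k : ℕ) (w : M), ((F - algebraMap K (End K M) μ) ^ (k + 1)) w = 0 →
        (F - algebraMap K (End K M) μ) w = 0 := by
      intro k
      induction k with
      | zero => intro w hw; simpa using hw
      | succ k ih =>
        intro w hw
        rw [pow_succ, Module.End.mul_apply] at hw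
        exact h w (ih _ hw)
    have h1 : ((F - algebraMap K (End K M) μ) ^ (k + 1)) v = 0 := by
      rw [pow_succ', Module.End.mul_apply]
      have h2 : ((F - algebraMap K (End K M) μ) ^ k) v = 0 := by
        rw [Algebra.algebraMap_eq_smul_one]; exact hk
      rw [h2, map_zero]
    have h3 := key k v h1
    rw [Algebra.algebraMap_eq_smul_one] at h3
    simpa using h3
  · exact (Module.End.genEigenspace F μ).mono le_top

theorem rootAd_coord {I : Type} [Fintype I] (v : Basis I K H) {τ : End K H} {c : I → K}
    (hc : ∀ i, τ (v i) = c i • v i) (z : End K H) (μ : K) (i j : I) :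
    v.repr (((rootAd τ - algebraMap K (End K (End K H)) μ) z) (v j)) i =
      (c i - c j - μ) * v.repr (z (v j)) i := by
  have h1 : ∀ w : H, v.repr (τ w) i = c i * v.repr w i := by
    intro w
    conv_lhs => rw [← v.sum_repr w, map_sum]
    simp only [map_smul, hc, map_sum, Finsupp.coe_finsetSum, Finset.sum_apply,
      Finsupp.smul_apply, Basis.repr_self, smul_eq_mul]
    rw [Finset.sum_eq_single i]
    · simp; ring
    · intro b _ hb; simp [hb]
    · intro h; exact absurd (Finset.mem_univ i) h
  have h2 : ((rootAd τ - algebraMap K (End K (End K H)) μ) z) (v j) =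
      τ (z (v j)) - c j • z (v j) - μ • z (v j) := by
    simp [rootAd_apply, Algebra.algebraMap_eq_smul_one, hc]
  rw [h2]
  simp only [map_sub, map_smul, Finsupp.sub_apply, Finsupp.smul_apply, smul_eq_mul, h1]
  ring

theorem rootAd_sq {I : Type} [Fintype I] (v : Basis I K H) {τ : End K H} {c : I → K}
    (hc : ∀ i, τ (v i) = c i • v i) (μ : K) (z : End K H)
    (h : (rootAd τ - algebraMap K (End K (End K H)) μ)
      ((rootAd τ - algebraMap K (End K (End K H)) μ) z) = 0) :
    (rootAd τ - algebraMap K (End K (End K H)) μ) z = 0 := by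
  refine v.ext (fun j => ?_)
  refine v.repr.injective (Finsupp.ext fun i => ?_)
  rw [rootAd_coord v hc]
  have h1 := rootAd_coord v hc ((rootAd τ - algebraMap K (End K (End K H)) μ) z) μ i j
  rw [h, rootAd_coord v hc] at h1
  simp only [LinearMap.zero_apply, map_zero, Finsupp.coe_zero, Pi.zero_apply] at h1 ⊢
  have h2 : (c i - c j - μ) * ((c i - c j - μ) * v.repr (z (v j)) i) = 0 := h1.symm
  rcases mul_eq_zero.1 h2 with h3 | h3
  · rw [h3, zero_mul]
  · exact h3

theorem rootAd_top {I : Type} [Fintype I] [DecidableEq I] (v : Basis I K H) {τ : End K H}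
    {c : I → K} (hc : ∀ i, τ (v i) = c i • v i) :
    ⨆ μ, (rootAd τ).maxGenEigenspace μ = ⊤ := by
  rw [eq_top_iff]
  intro z _
  have h1 : z = ∑ i, ∑ j, v.repr (z (v j)) i •
      v.constr K (fun k => if k = j then v i else 0) := by
    refine v.ext (fun k => ?_)
    simp only [LinearMap.sum_apply, LinearMap.smul_apply, Basis.constr_basis]
    conv_lhs => rw [← v.sum_repr (z (v k))]
    refine Finset.sum_congr rfl (fun i _ => ?_)
    rw [Finset.sum_eq_single k]
    · simp
    · intro b _ hb; simp [Ne.symm hb]
    · intro h; exact absurd (Finset.mem_univ k) h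
  rw [h1]
  refine Submodule.sum_mem _ (fun i _ => Submodule.sum_mem _ (fun j _ =>
    Submodule.smul_mem _ _ ?_))
  refine Submodule.mem_iSup_of_mem (c i - c j) ?_
  have h2 : v.constr K (fun k => if k = j then v i else 0) ∈
      (rootAd τ).eigenspace (c i - c j) := by
    rw [Module.End.mem_eigenspace_iff]
    refine v.ext (fun k => ?_)
    simp only [rootAd_apply, LinearMap.sub_apply, Module.End.mul_apply, Basis.constr_basis,
      LinearMap.smul_apply, hc, map_smul]
    by_cases hk : k = j
    · subst hk; simp [hc, sub_smul]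
    · simp [hk]
  exact (Module.End.genEigenspace (rootAd τ) (c i - c j)).mono le_top h2

end Root

section Main

variable {K H : Type*} [Field K] [AddCommGroup H] [Module K H] [FiniteDimensional K H]
  {g t : Submodule K (End K H)} {W' W'' : Submodule K H}

open Classical in
/-- CS8. Root space decomposition. -/
theorem mem_span_roots (C : Cartan g t) {x : End K H} (hx : x ∈ g) :
    x ∈ Submodule.span K {z | ∃ α, IsRoot g t α z} := by
  obtain ⟨I, _, v, hv⟩ := C.diag
  have hmaps : ∀ τ ∈ t, ∀ y ∈ g, rootAd τ y ∈ g := fun τ hτ y hy => C.lie τ (C.le hτ) y hy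
  let f : t → End K g := fun τ => (rootAd (τ : End K H)).restrict (hmaps τ τ.2)
  have hcomm : Pairwise fun i j => Commute (f i) (f j) := by
    intro i j _
    have h1 := rootAd_comm (C.comm i i.2 j j.2)
    ext1 y
    apply Subtype.ext
    have h2 := LinearMap.congr_fun h1.eq (y : End K H)
    simpa [f] using h2
  have hmax : ∀ (τ : t) (μ : K), (f τ).maxGenEigenspace μ = (f τ).eigenspace μ := by
    intro τ μ
    refine root_ker_of_sq _ _ (fun z hz => ?_)
    choose c hc using hv τ τ.2
    have h1 : ∀ z : g, ((((f τ) - algebraMap K (End K g) μ) z : g) : End K H) =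
        (rootAd (τ : End K H) - algebraMap K (End K (End K H)) μ) (z : End K H) := by
      intro z
      simp [f, Algebra.algebraMap_eq_smul_one]
    apply Subtype.ext
    rw [h1]
    apply rootAd_sq v hc
    rw [← h1, ← h1, hz]
    rfl
  have htop : ∀ τ : t, ⨆ μ, (f τ).maxGenEigenspace μ = ⊤ := by
    intro τ
    choose c hc using hv τ τ.2
    exact Module.End.genEigenspace_restrict_eq_top _ (rootAd_top v hc)
  have key := Module.End.iSup_iInf_maxGenEigenspace_eq_top_of_iSup_maxGenEigenspace_eq_top_of_commute
    f hcomm htop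
  have hmem : (⟨x, hx⟩ : g) ∈ (⊤ : Submodule K g) := Submodule.mem_top
  rw [← key] at hmem
  have hle : (⨆ χ : t → K, ⨅ i, (f i).maxGenEigenspace (χ i)) ≤
      (Submodule.span K {z | ∃ α, IsRoot g t α z}).comap g.subtype := by
    refine iSup_le (fun χ y hy => ?_)
    apply Submodule.subset_span
    refine ⟨fun τ => if h : τ ∈ t then χ ⟨τ, h⟩ else 0, y.2, fun τ hτ => ?_⟩
    rw [Submodule.mem_iInf] at hy
    have h1 := hy ⟨τ, hτ⟩
    rw [hmax, Module.End.mem_eigenspace_iff] at h1
    have h2 := congrArg (Subtype.val) h1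
    simpa [f, hτ, rootAd_apply] using h2
  exact hle hmem

end Main

end Pool.Agent.CoprimeSig
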