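import Pool.Agent.CoprimeSig.Defs

/-!
# Real elements commuting with the complex structure are diagonalisable
-/

set_option autoImplicit false

open scoped Matrix

namespace Pool.Agent.CoprimeSig

open Module Matrix

section SemiJ

variable {ι : Type} [Fintype ι] [DecidableEq ι]

/-- The hermitian form with the matrix `P`. -/
noncomputable def semiJForm (P : Matrix ι ι ℝ) (u v : ι → ℂ) : ℂ :=
  star u ⬝ᵥ (P.map Complex.ofReal *ᵥ v)

theorem semiJ_conjTranspose (X : Matrix ι ι ℝ) :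
    (X.map Complex.ofReal)ᴴ = (X.map Complex.ofReal)ᵀ := by
  ext i j
  simp [Matrix.conjTranspose_apply]

theorem semiJ_re (P : Matrix ι ι ℝ) (u : ι → ℂ) :
    (semiJForm P u u).re = star (fun i => (u i).re) ⬝ᵥ (P *ᵥ (fun i => (u i).re)) +
      star (fun i => (u i).im) ⬝ᵥ (P *ᵥ (fun i => (u i).im)) := by
  simp only [semiJForm, dotProduct, mulVec, Matrix.map_apply, Complex.re_sum, Finset.mul_sum,
    Pi.star_apply, star_trivial, ← Finset.sum_add_distrib]
  refine Finset.sum_congr rfl (fun i _ => Finset.sum_congr rfl (fun j _ => ?_))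
  simp [Complex.mul_re]

theorem semiJ_pos {P : Matrix ι ι ℝ} (hP : P.PosDef) {u : ι → ℂ}
    (h : semiJForm P u u = 0) : u = 0 := by
  have h1 := semiJ_re P u
  rw [h, Complex.zero_re] at h1
  have h2 : ∀ a : ι → ℝ, 0 ≤ star a ⬝ᵥ (P *ᵥ a) := by
    intro a
    by_cases ha : a = 0
    · simp [ha]
    · exact (hP.dotProduct_mulVec_pos ha).le
  have h3 : ∀ a : ι → ℝ, star a ⬝ᵥ (P *ᵥ a) = 0 → a = 0 := by
    intro a ha
    by_contra hne
    exact absurd ha (hP.dotProduct_mulVec_pos hne).ne'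
  have h4 := h2 (fun i => (u i).re)
  have h5 := h2 (fun i => (u i).im)
  have h6 := h3 (fun i => (u i).re) (by linarith)
  have h7 := h3 (fun i => (u i).im) (by linarith)
  ext i
  apply Complex.ext
  · exact congrFun h6 i
  · exact congrFun h7 i

theorem semiJ_symm {P : Matrix ι ι ℝ} (hP : P.PosDef) (u v : ι → ℂ) :
    semiJForm P u v = star (semiJForm P v u) := by
  have hPT : Pᵀ = P := by
    have := hP.isHermitian
    rwa [Matrix.IsHermitian, Matrix.conjTranspose_eq_transpose_of_trivial] at this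
  have hc : (P.map Complex.ofReal)ᴴ = P.map Complex.ofReal := by
    rw [semiJ_conjTranspose, ← Matrix.transpose_map, hPT]
  unfold semiJForm
  rw [Matrix.star_dotProduct, Matrix.star_mulVec, hc, ← Matrix.dotProduct_mulVec]

theorem semiJ_map_mul (A B : Matrix ι ι ℝ) :
    (A * B).map Complex.ofReal = A.map Complex.ofReal * B.map Complex.ofReal :=
  Matrix.map_mul (f := Complex.ofRealHom)

theorem semiJ_adj {g : Submodule ℂ (Matrix ι ι ℂ)} {J E x : Matrix ι ι ℝ} (D : MTData g J E)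
    (hx : x.map Complex.ofReal ∈ g) (hxJ : x * J = J * x) :
    ∃ κ : ℂ, ∀ u v : ι → ℂ, semiJForm (Jᵀ * E) (x.map Complex.ofReal *ᵥ u) v =
      semiJForm (Jᵀ * E) u (κ • v - x.map Complex.ofReal *ᵥ v) := by
  obtain ⟨κ, hκ⟩ := D.sim _ hx
  refine ⟨κ, fun u v => ?_⟩
  have h1 : (x.map Complex.ofReal)ᵀ * (Jᵀ * E).map Complex.ofReal =
      κ • (Jᵀ * E).map Complex.ofReal - (Jᵀ * E).map Complex.ofReal * x.map Complex.ofReal := by
    have h2 : (Jᵀ * E).map Complex.ofReal =
        (J.map Complex.ofReal)ᵀ * E.map Complex.ofReal := by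
      rw [← Matrix.transpose_map, semiJ_map_mul]
    have h3 : (x.map Complex.ofReal)ᵀ * (J.map Complex.ofReal)ᵀ =
        (J.map Complex.ofReal)ᵀ * (x.map Complex.ofReal)ᵀ := by
      rw [← Matrix.transpose_mul, ← Matrix.transpose_mul]
      congr 1
      have h4 : (x * J).map Complex.ofReal = (J * x).map Complex.ofReal := by rw [hxJ]
      rw [semiJ_map_mul, semiJ_map_mul] at h4
      exact h4.symm
    rw [h2, ← Matrix.mul_assoc, h3, Matrix.mul_assoc, Matrix.mul_assoc, ← Matrix.mul_smul, ← hκ,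
      Matrix.mul_add]
    abel
  unfold semiJForm
  rw [Matrix.star_mulVec, semiJ_conjTranspose, ← Matrix.dotProduct_mulVec, Matrix.mulVec_mulVec,
    h1, Matrix.sub_mulVec, Matrix.smul_mulVec, Matrix.mulVec_sub, Matrix.mulVec_smul,
    Matrix.mulVec_mulVec]

/-- The kernel of the square of `x - μ` is the kernel of `x - μ`. -/
theorem semiJ_ker {g : Submodule ℂ (Matrix ι ι ℂ)} {J E x : Matrix ι ι ℝ} (D : MTData g J E)
    (hx : x.map Complex.ofReal ∈ g) (hxJ : x * J = J * x) (μ : ℂ) (v : ι → ℂ)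
    (h : (Matrix.toLin' (x.map Complex.ofReal) - algebraMap ℂ (End ℂ (ι → ℂ)) μ)
      ((Matrix.toLin' (x.map Complex.ofReal) - algebraMap ℂ (End ℂ (ι → ℂ)) μ) v) = 0) :
    (Matrix.toLin' (x.map Complex.ofReal) - algebraMap ℂ (End ℂ (ι → ℂ)) μ) v = 0 := by
  obtain ⟨κ, hκ⟩ := semiJ_adj D hx hxJ
  set N : End ℂ (ι → ℂ) := Matrix.toLin' (x.map Complex.ofReal) - algebraMap ℂ (End ℂ (ι → ℂ)) μ
    with hN
  set N' : End ℂ (ι → ℂ) := algebraMap ℂ (End ℂ (ι → ℂ)) (κ - star μ) -
    Matrix.toLin' (x.map Complex.ofReal) with hN'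
  have hadj : ∀ u w, semiJForm (Jᵀ * E) (N u) w = semiJForm (Jᵀ * E) u (N' w) := by
    intro u w
    have h1 : semiJForm (Jᵀ * E) (N u) w =
        semiJForm (Jᵀ * E) (x.map Complex.ofReal *ᵥ u) w - star μ * semiJForm (Jᵀ * E) u w := by
      simp [semiJForm, hN, sub_dotProduct, Algebra.algebraMap_eq_smul_one]
    have h2 : semiJForm (Jᵀ * E) u (N' w) =
        semiJForm (Jᵀ * E) u (κ • w - x.map Complex.ofReal *ᵥ w) -
          star μ * semiJForm (Jᵀ * E) u w := by
      have h3 : N' w = (κ • w - x.map Complex.ofReal *ᵥ w) - star μ • w := by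
        simp [hN', Algebra.algebraMap_eq_smul_one, sub_smul]
        abel
      rw [h3]
      unfold semiJForm
      rw [Matrix.mulVec_sub, dotProduct_sub, Matrix.mulVec_smul, dotProduct_smul, smul_eq_mul]
    rw [h1, h2, hκ]
  have hadj' : ∀ u w, semiJForm (Jᵀ * E) (N' u) w = semiJForm (Jᵀ * E) u (N w) := by
    intro u w
    rw [semiJ_symm D.pos, ← hadj, ← semiJ_symm D.pos]
  have hcomm : ∀ w, N (N' w) = N' (N w) := by
    intro w
    have : N * N' = N' * N := by
      have h1 : Commute (Matrix.toLin' (x.map Complex.ofReal))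
        (algebraMap ℂ (End ℂ (ι → ℂ)) μ) := (Algebra.commutes μ _).symm
      have h2 : Commute (Matrix.toLin' (x.map Complex.ofReal))
        (algebraMap ℂ (End ℂ (ι → ℂ)) (κ - star μ)) := (Algebra.commutes _ _).symm
      have h3 : Commute (algebraMap ℂ (End ℂ (ι → ℂ)) μ)
        (algebraMap ℂ (End ℂ (ι → ℂ)) (κ - star μ)) := Algebra.commutes _ _
      exact ((h2.sub_right (Commute.refl _)).sub_left (h3.sub_right h1.symm)).eq
    exact LinearMap.congr_fun this w
  have hz : N' (N v) = 0 := by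
    apply semiJ_pos D.pos
    rw [hadj', hcomm, h]
    simp [semiJForm]
  apply semiJ_pos D.pos
  rw [hadj, hz]
  simp [semiJForm]

/-- CS1. A real element of `g` commuting with `J` is normal for the hermitian form
`conj(u)^T (J^T E) v` (its adjoint is `κ - x`), so it is diagonalisable over `ℂ`. -/
theorem diag_of_commJ {g : Submodule ℂ (Matrix ι ι ℂ)} {J E : Matrix ι ι ℝ} (D : MTData g J E)
    (x : Matrix ι ι ℝ) (hx : x.map Complex.ofReal ∈ g) (hxJ : x * J = J * x) :
    ⨆ μ : ℂ, Module.End.eigenspace (Matrix.toLin' (x.map Complex.ofReal)) μ = ⊤ := by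
  rw [eq_top_iff, ← Module.End.iSup_maxGenEigenspace_eq_top
    (Matrix.toLin' (x.map Complex.ofReal))]
  refine iSup_mono (fun μ v hv => ?_)
  rw [Module.End.mem_maxGenEigenspace] at hv
  obtain ⟨k, hk⟩ := hv
  rw [Module.End.mem_eigenspace_iff, ← sub_eq_zero]
  have key : ∀ (k : ℕ) (w : ι → ℂ), ((Matrix.toLin' (x.map Complex.ofReal) -
      algebraMap ℂ (End ℂ (ι → ℂ)) μ) ^ (k + 1)) w = 0 →
      (Matrix.toLin' (x.map Complex.ofReal) - algebraMap ℂ (End ℂ (ι → ℂ)) μ) w = 0 := by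
    intro k
    induction k with
    | zero => intro w hw; simpa using hw
    | succ k ih =>
      intro w hw
      rw [pow_succ, Module.End.mul_apply] at hw
      exact semiJ_ker D hx hxJ μ w (ih _ hw)
  have h1 : ((Matrix.toLin' (x.map Complex.ofReal) -
      algebraMap ℂ (End ℂ (ι → ℂ)) μ) ^ (k + 1)) v = 0 := by
    rw [pow_succ', Module.End.mul_apply]
    have h2 : ((Matrix.toLin' (x.map Complex.ofReal) -
      algebraMap ℂ (End ℂ (ι → ℂ)) μ) ^ k) v = 0 := by
      rw [Algebra.algebraMap_eq_smul_one]; exact hk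
    rw [h2, map_zero]
  have h3 := key k v h1
  rw [Algebra.algebraMap_eq_smul_one] at h3
  simpa using h3

end SemiJ

end Pool.Agent.CoprimeSig
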