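import Pool.Agent.CoprimeSig.Defs

/-!
# Simultaneous diagonalisation
-/

set_option autoImplicit false

namespace Pool.Agent.CoprimeSig

open Module

/-- For a diagonalisable endomorphism, generalised eigenvectors are eigenvectors. -/
private theorem simul_maxGen_le {K H : Type*} [Field K] [AddCommGroup H] [Module K H]
    (f : End K H) (hd : ⨆ μ : K, f.eigenspace μ = ⊤) (μ : K) :
    f.maxGenEigenspace μ ≤ f.eigenspace μ := by
  have hle : ∀ ν : K, f.eigenspace ν ≤ f.maxGenEigenspace ν := fun ν =>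
    Module.End.genEigenspace_le_maximal f ν 1
  have hind := Module.End.independent_maxGenEigenspace f μ
  rw [disjoint_iff] at hind
  have h1 : (⊤ : Submodule K H) ≤
      f.eigenspace μ ⊔ ⨆ (ν : K) (_ : ν ≠ μ), f.maxGenEigenspace ν := by
    rw [← hd]
    apply iSup_le
    intro ν
    by_cases h : ν = μ
    · rw [h]
      exact le_sup_left
    · exact le_trans (le_trans (hle ν) (le_iSup₂_of_le ν h le_rfl)) le_sup_right
  intro x hx
  obtain ⟨a, ha, b, hb, hab⟩ := Submodule.mem_sup.1 (h1 (Submodule.mem_top : x ∈ ⊤))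
  have hb' : b ∈ f.maxGenEigenspace μ := by
    have : b = x - a := by rw [← hab]; abel
    rw [this]
    exact Submodule.sub_mem _ hx (hle μ ha)
  have hb0 : b ∈ (⊥ : Submodule K H) := by
    rw [← hind]
    exact ⟨hb', hb⟩
  rw [Submodule.mem_bot] at hb0
  rw [← hab, hb0, add_zero]
  exact ha

/-- CS2. Simultaneous diagonalisation. -/
theorem exists_eigenbasis {K H : Type*} [Field K] [AddCommGroup H] [Module K H]
    [FiniteDimensional K H] (t : Set (End K H)) (hcomm : ∀ x ∈ t, ∀ y ∈ t, x * y = y * x)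
    (hd : ∀ x ∈ t, ⨆ μ : K, x.eigenspace μ = ⊤) :
    ∃ v : Basis (Fin (finrank K H)) K H, ∀ x ∈ t, ∀ i, ∃ c : K, x (v i) = c • v i := by
  have h1 := Module.End.iSup_iInf_maxGenEigenspace_eq_top_of_iSup_maxGenEigenspace_eq_top_of_commute
    (fun x : t => (x : End K H)) (fun x y _ => hcomm x x.2 y y.2) (fun x => by
      rw [eq_top_iff, ← hd x x.2]
      exact iSup_mono fun μ => Module.End.genEigenspace_le_maximal _ μ 1)
  have h2 : (⊤ : Submodule K H) ≤
      Submodule.span K {w | ∀ x ∈ t, ∃ c : K, x w = c • w} := by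
    rw [← h1]
    apply iSup_le
    intro χ w hw
    apply Submodule.subset_span
    intro x hx
    have h3 : w ∈ x.maxGenEigenspace (χ ⟨x, hx⟩) := (Submodule.mem_iInf _).1 hw ⟨x, hx⟩
    exact ⟨χ ⟨x, hx⟩, Module.End.mem_eigenspace_iff.1 (simul_maxGen_le x (hd x hx) _ h3)⟩
  let b := Module.Basis.ofSpan h2
  refine ⟨b.reindex (b.indexEquiv (Module.finBasis K H)), fun x hx i => ?_⟩
  rw [Module.Basis.reindex_apply]
  exact Module.Basis.ofSpan_subset h2 ⟨_, rfl⟩ x hx

end Pool.Agent.CoprimeSig
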