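import Pool.Agent.CoprimeSig.SemiJ
import Pool.Agent.CoprimeSig.Simul
import Pool.Agent.CoprimeSig.Generic
import Pool.Agent.CoprimeSig.OpenMap
import Pool.Agent.CoprimeSig.Dense

/-!
# Rational maximal tori containing a conjugate of the Hodge projector
-/

set_option autoImplicit false

namespace Pool.Agent.CoprimeSig

open Module

variable {ι : Type} [Fintype ι] [DecidableEq ι] {g : Submodule ℂ (Matrix ι ι ℂ)}
  {J E : Matrix ι ι ℝ}

/-- Real matrices as complex matrices. -/
private noncomputable def cx : Matrix ι ι ℝ →+* Matrix ι ι ℂ := Complex.ofRealHom.mapMatrix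

private theorem cx_apply (x : Matrix ι ι ℝ) : cx x = x.map Complex.ofReal := rfl

private theorem cx_inj : Function.Injective (cx (ι := ι)) := by
  intro x y h
  ext i j
  have h1 := congrFun (congrFun h i) j
  exact Complex.ofReal_injective h1

private theorem cx_smul (r : ℝ) (x : Matrix ι ι ℝ) : cx (r • x) = (r : ℂ) • cx x := by
  ext i j
  simp [cx_apply]

private theorem toLin_comm {x y : Matrix ι ι ℂ} :
    Matrix.toLin' x * Matrix.toLin' y = Matrix.toLin' y * Matrix.toLin' x ↔ x * y = y * x := by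
  have h1 : ∀ x y : Matrix ι ι ℂ, Matrix.toLin' x * Matrix.toLin' y = Matrix.toLin' (x * y) :=
    fun x y => (Matrix.toLin'_mul x y).symm
  rw [h1, h1, (Matrix.toLin' (R := ℂ)).injective.eq_iff]

/-- The real points of `g`. -/
private noncomputable def gR (g : Submodule ℂ (Matrix ι ι ℂ)) : Submodule ℝ (Matrix ι ι ℝ) where
  carrier := {x | cx x ∈ g}
  add_mem' := fun {x y} hx hy => by
    change cx (x + y) ∈ g
    rw [map_add]
    exact g.add_mem hx hy
  zero_mem' := by
    change cx 0 ∈ g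
    rw [map_zero]
    exact g.zero_mem
  smul_mem' := fun r x hx => by
    change cx (r • x) ∈ g
    rw [cx_smul]
    exact g.smul_mem _ hx

private theorem mem_gR {x : Matrix ι ι ℝ} : x ∈ gR g ↔ cx x ∈ g := Iff.rfl

private theorem exists_max (D : MTData g J E) : ∃ t₀ : Submodule ℝ (Matrix ι ι ℝ), t₀ ≤ gR g ∧
    J ∈ t₀ ∧ (∀ x ∈ t₀, ∀ y ∈ t₀, x * y = y * x) ∧
    ∀ x ∈ gR g, (∀ y ∈ t₀, x * y = y * x) → x ∈ t₀ := by
  have hne : ({S | J ∈ S ∧ S ≤ gR g ∧ ∀ x ∈ S, ∀ y ∈ S, x * y = y * x} :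
      Set (Submodule ℝ (Matrix ι ι ℝ))).Nonempty := by
    refine ⟨Submodule.span ℝ {J}, Submodule.subset_span rfl, ?_, ?_⟩
    · rw [Submodule.span_le, Set.singleton_subset_iff]
      exact D.Jg
    · intro x hx y hy
      obtain ⟨a, rfl⟩ := Submodule.mem_span_singleton.1 hx
      obtain ⟨c, rfl⟩ := Submodule.mem_span_singleton.1 hy
      rw [smul_mul_smul_comm, smul_mul_smul_comm, mul_comm a c]
  obtain ⟨t₀, ⟨hJ, hle, hcomm⟩, hmax⟩ := WellFounded.has_min
    (wellFounded_gt (α := Submodule ℝ (Matrix ι ι ℝ))) _ hne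
  refine ⟨t₀, hle, hJ, hcomm, fun x hx hxy => ?_⟩
  have h1 : t₀ ⊔ Submodule.span ℝ {x} ∈
      ({S | J ∈ S ∧ S ≤ gR g ∧ ∀ x ∈ S, ∀ y ∈ S, x * y = y * x} :
        Set (Submodule ℝ (Matrix ι ι ℝ))) := by
    refine ⟨Submodule.mem_sup_left hJ, sup_le hle ?_, ?_⟩
    · rw [Submodule.span_le, Set.singleton_subset_iff]
      exact hx
    · intro u hu v hv
      obtain ⟨u1, hu1, u2, hu2, rfl⟩ := Submodule.mem_sup.1 hu
      obtain ⟨v1, hv1, v2, hv2, rfl⟩ := Submodule.mem_sup.1 hv
      obtain ⟨a, rfl⟩ := Submodule.mem_span_singleton.1 hu2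
      obtain ⟨c, rfl⟩ := Submodule.mem_span_singleton.1 hv2
      simp only [add_mul, mul_add, smul_mul_assoc, mul_smul_comm]
      rw [hcomm u1 hu1 v1 hv1, hxy v1 hv1, hxy u1 hu1]
      module
  have h2 := hmax _ h1
  have h3 : t₀ = t₀ ⊔ Submodule.span ℝ {x} := by
    by_contra hne'
    exact h2 (lt_of_le_of_ne le_sup_left hne')
  rw [h3]
  exact Submodule.mem_sup_right (Submodule.subset_span rfl)

private theorem exists_eig (D : MTData g J E) {t₀ : Submodule ℝ (Matrix ι ι ℝ)}
    (hle : t₀ ≤ gR g) (hJ : J ∈ t₀) (hcomm : ∀ x ∈ t₀, ∀ y ∈ t₀, x * y = y * x) :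
    ∃ v : Basis ι ℂ (ι → ℂ), ∀ x ∈ t₀, ∀ i, ∃ c : ℂ,
      Matrix.toLin' (x.map Complex.ofReal) (v i) = c • v i := by
  obtain ⟨v, hv⟩ := exists_eigenbasis
    ({f | ∃ x ∈ t₀, f = Matrix.toLin' (cx x)} : Set (End ℂ (ι → ℂ))) (by
      rintro _ ⟨x, hx, rfl⟩ _ ⟨y, hy, rfl⟩
      rw [toLin_comm, ← map_mul, ← map_mul, hcomm x hx y hy]) (by
      rintro _ ⟨x, hx, rfl⟩
      exact diag_of_commJ D x (hle hx) (hcomm x hx J hJ))
  let e : Fin (finrank ℂ (ι → ℂ)) ≃ ι := Fintype.equivOfCardEq (by simp)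
  refine ⟨v.reindex e, fun x hx i => ?_⟩
  obtain ⟨c, hc⟩ := hv _ ⟨x, hx, rfl⟩ (e.symm i)
  refine ⟨c, ?_⟩
  rw [Basis.reindex_apply]
  exact hc

/-- Commutators with a diagonalised element which commute with it vanish. -/
private theorem comm_zero (v : Basis ι ℂ (ι → ℂ)) {X z : Matrix ι ι ℂ}
    (hX : ∀ i, ∃ c : ℂ, Matrix.toLin' X (v i) = c • v i)
    (h : (z * X - X * z) * X = X * (z * X - X * z)) : z * X - X * z = 0 := by
  choose d hd using hX
  have hrepr : ∀ (w : ι → ℂ) (j : ι), v.repr (Matrix.toLin' X w) j = d j * v.repr w j := by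
    intro w j
    have h1 : Matrix.toLin' X w = ∑ i, (v.repr w i * d i) • v i := by
      conv_lhs => rw [← v.sum_repr w, map_sum]
      refine Finset.sum_congr rfl fun i _ => ?_
      rw [map_smul, hd, smul_smul]
    rw [h1, v.repr_sum_self]
    ring
  have h0 : Matrix.toLin' (z * X - X * z) = 0 := by
    refine v.ext fun i => ?_
    rw [LinearMap.zero_apply]
    apply v.repr.injective
    ext j
    rw [map_zero, Finsupp.zero_apply]
    have h1 : Matrix.toLin' (z * X - X * z) (v i) =
        d i • Matrix.toLin' z (v i) - Matrix.toLin' X (Matrix.toLin' z (v i)) := by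
      rw [map_sub, Matrix.toLin'_mul, Matrix.toLin'_mul, LinearMap.sub_apply,
        LinearMap.comp_apply, LinearMap.comp_apply, hd, map_smul]
    have h2 : v.repr (Matrix.toLin' (z * X - X * z) (v i)) j =
        (d i - d j) * v.repr (Matrix.toLin' z (v i)) j := by
      rw [h1, map_sub, map_smul, Finsupp.sub_apply, hrepr, Finsupp.smul_apply, smul_eq_mul]
      ring
    have h3 : Matrix.toLin' (z * X - X * z) (Matrix.toLin' X (v i)) =
        Matrix.toLin' X (Matrix.toLin' (z * X - X * z) (v i)) := by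
      have h4 := congrArg (fun M => Matrix.toLin' M (v i)) h
      simp only [Matrix.toLin'_mul, LinearMap.comp_apply] at h4
      exact h4
    have h5 : v.repr (Matrix.toLin' (z * X - X * z) (Matrix.toLin' X (v i))) j =
        v.repr (Matrix.toLin' X (Matrix.toLin' (z * X - X * z) (v i))) j := by rw [h3]
    rw [hd, map_smul, map_smul, Finsupp.smul_apply, hrepr, smul_eq_mul] at h5
    have h6 : (d i - d j) * v.repr (Matrix.toLin' (z * X - X * z) (v i)) j = 0 := by
      linear_combination h5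
    rcases mul_eq_zero.1 h6 with h7 | h7
    · rw [h2, h7, zero_mul]
    · exact h7
  exact (Matrix.toLin' (R := ℂ)).injective (by rw [h0, map_zero])

private theorem surj {t₀ : Submodule ℝ (Matrix ι ι ℝ)} (D : MTData g J E)
    (v : Basis ι ℂ (ι → ℂ)) {X : Matrix ι ι ℝ} (hXg : X ∈ gR g)
    (hX : ∀ i, ∃ c : ℂ, Matrix.toLin' (cx X) (v i) = c • v i)
    (hcent : ∀ x ∈ gR g, x * X = X * x → x ∈ t₀) :
    ∀ x ∈ gR g, ∃ z ∈ gR g, ∃ h ∈ t₀, x = z * X - X * z + h := by
  have hlie : ∀ z ∈ gR g, z * X - X * z ∈ gR g := by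
    intro z hz
    rw [mem_gR, map_sub, map_mul, map_mul]
    exact D.lie _ hz _ hXg
  let A : gR g →ₗ[ℝ] gR g :=
    { toFun := fun z => ⟨(z : Matrix ι ι ℝ) * X - X * z, hlie z z.2⟩
      map_add' := fun x y => by
        apply Subtype.ext
        change ((x : Matrix ι ι ℝ) + y) * X - X * (x + y) =
          ((x : Matrix ι ι ℝ) * X - X * x) + ((y : Matrix ι ι ℝ) * X - X * y)
        rw [add_mul, mul_add]
        abel
      map_smul' := fun r x => by
        apply Subtype.ext
        change (r • (x : Matrix ι ι ℝ)) * X - X * (r • (x : Matrix ι ι ℝ)) =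
          r • ((x : Matrix ι ι ℝ) * X - X * x)
        rw [smul_mul_assoc, mul_smul_comm, smul_sub] }
  have hA : ∀ z : gR g, ((A z : gR g) : Matrix ι ι ℝ) = z * X - X * z := fun z => rfl
  have hdis : Disjoint (LinearMap.range A) (LinearMap.ker A) := by
    rw [Submodule.disjoint_def]
    rintro _ ⟨z, rfl⟩ hz
    rw [LinearMap.mem_ker] at hz
    have h1 : (((z : Matrix ι ι ℝ) * X - X * z) * X - X * (z * X - X * z)) = 0 := by
      have h2 := congrArg (fun w : gR g => (w : Matrix ι ι ℝ)) hz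
      exact h2
    have h2 : (cx (z : Matrix ι ι ℝ) * cx X - cx X * cx z) * cx X =
        cx X * (cx (z : Matrix ι ι ℝ) * cx X - cx X * cx z) := by
      have h3 := congrArg cx (sub_eq_zero.1 h1)
      simpa only [map_mul, map_sub] using h3
    have h3 := comm_zero v hX h2
    apply Subtype.ext
    rw [hA]
    apply cx_inj
    rw [map_sub, map_mul, map_mul, h3]
    exact (map_zero cx).symm
  have htop : LinearMap.range A ⊔ LinearMap.ker A = ⊤ := by
    refine Submodule.eq_top_of_disjoint _ _ ?_ hdis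
    rw [LinearMap.finrank_range_add_finrank_ker]
  intro x hx
  have h1 : (⟨x, hx⟩ : gR g) ∈ LinearMap.range A ⊔ LinearMap.ker A := by
    rw [htop]
    exact Submodule.mem_top
  obtain ⟨_, ⟨z, rfl⟩, h, hh, hsum⟩ := Submodule.mem_sup.1 h1
  refine ⟨z, z.2, h, hcent h h.2 ?_, ?_⟩
  · have h2 := congrArg (fun w : gR g => (w : Matrix ι ι ℝ)) (LinearMap.mem_ker.1 hh)
    exact sub_eq_zero.1 h2
  · have h2 := congrArg (fun w : gR g => (w : Matrix ι ι ℝ)) hsum
    exact h2.symm

private theorem exp_cx (z : Matrix ι ι ℝ) : cx (NormedSpace.exp z) = NormedSpace.exp (cx z) := by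
  open scoped Matrix.Norms.Operator in
  refine NormedSpace.map_exp cx ?_ z
  exact Continuous.matrix_map continuous_id Complex.continuous_ofReal

/-- CS7. The rational maximal torus. -/
theorem exists_torus (D : MTData g J E) :
    ∃ t : Submodule ℂ (Matrix ι ι ℂ), t ≤ g ∧ (∀ x ∈ t, ∀ y ∈ t, x * y = y * x) ∧
      (∀ x ∈ g, (∀ y ∈ t, x * y = y * x) → x ∈ t) ∧
      (∀ σ : ℂ →+* ℂ, ∀ x ∈ t, x.map σ ∈ t) ∧
      (∃ v : Basis ι ℂ (ι → ℂ), ∀ x ∈ t, ∀ i, ∃ c : ℂ, Matrix.toLin' x (v i) = c • v i) ∧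
      ∃ e ∈ t, e * e = e ∧ ∀ Z : Matrix ι ι ℂ, (∀ x ∈ g, x * Z = Z * x) →
        (e * Z).trace = (hp J * Z).trace := by
  obtain ⟨t₀, hle, hJ, hcomm, hmax⟩ := exists_max D
  obtain ⟨v, hv⟩ := exists_eig D hle hJ hcomm
  obtain ⟨X, hX, ε, hε, hgen⟩ := exists_generic t₀ v hv
  have hXX : ∀ i j, |X i j - X i j| < ε := fun i j => by rw [sub_self, abs_zero]; exact hε
  have hcent : ∀ x ∈ gR g, x * X = X * x → x ∈ t₀ := by
    intro x hx hxX
    refine hmax x hx fun y hy => cx_inj ?_
    rw [map_mul, map_mul]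
    refine hgen X hX hXX (cx x) ?_ y hy
    have h1 := congrArg cx hxX
    rwa [map_mul, map_mul] at h1
  have hlie : ∀ x ∈ gR g, ∀ y ∈ gR g, x * y - y * x ∈ gR g := by
    intro x hx y hy
    rw [mem_gR, map_sub, map_mul, map_mul]
    exact D.lie _ hx _ hy
  obtain ⟨δ, hδ, hnear⟩ := exists_near (gR g) t₀ hlie hle hX
    (surj D v (hle hX) (hv X hX) hcent) hε
  obtain ⟨Q, hQ, hQX⟩ := exists_rat_near g D.conj X (hle hX) hδ
  have hQc : Q.map ((↑) : ℚ → ℂ) = cx (Q.map ((↑) : ℚ → ℝ)) := by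
    ext i j
    simp [cx_apply]
  obtain ⟨z, hz, h, hh, hhX, hY⟩ := hnear (Q.map ((↑) : ℚ → ℝ)) (by
    rw [mem_gR, ← hQc]
    exact hQ) (fun i j => hQX i j)
  set Qc : Matrix ι ι ℂ := Q.map ((↑) : ℚ → ℂ) with hQcdef
  set z' : Matrix ι ι ℂ := cx z with hz'
  have hz'g : z' ∈ g := hz
  set U : Matrix ι ι ℂ := NormedSpace.exp z' with hU
  set U' : Matrix ι ι ℂ := NormedSpace.exp (-z') with hU'
  have hUU' : U * U' = 1 := by
    rw [hU, hU', ← Matrix.exp_add_of_commute _ _ ((Commute.refl z').neg_right), add_neg_cancel]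
    exact NormedSpace.exp_zero
  have hU'U : U' * U = 1 := by
    rw [hU, hU', ← Matrix.exp_add_of_commute _ _ ((Commute.refl z').neg_left), neg_add_cancel]
    exact NormedSpace.exp_zero
  have hQU : Qc = U * cx h * U' := by
    rw [hQc, hY, map_mul, map_mul, exp_cx, exp_cx, map_neg]
  have hconjU : ∀ x ∈ g, U * x * U' ∈ g := fun x hx => exp_conj_mem g D.lie hz'g hx
  have hconjU' : ∀ x ∈ g, U' * x * U ∈ g := by
    intro x hx
    have h1 := exp_conj_mem g D.lie (g.neg_mem hz'g) hx
    rwa [neg_neg] at h1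
  -- the elements of `g` commuting with `h`
  have hre : ∀ M ∈ g, M * cx h = cx h * M → ∃ a ∈ t₀, ∃ c ∈ t₀, M = cx a + Complex.I • cx c := by
    intro M hM hMh
    have hcM : M.map (starRingEnd ℂ) ∈ g := D.conj (starRingEnd ℂ) M hM
    have hcomm' : ∀ y ∈ t₀, M * cx y = cx y * M := hgen h hh hhX M hMh
    let a : Matrix ι ι ℝ := M.map Complex.re
    let c : Matrix ι ι ℝ := M.map Complex.im
    have ha : cx a = (1 / 2 : ℂ) • (M + M.map (starRingEnd ℂ)) := by
      ext i j
      change ((M i j).re : ℂ) = (1 / 2 : ℂ) * (M i j + (starRingEnd ℂ) (M i j))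
      rw [Complex.add_conj]
      push_cast
      ring
    have hc : cx c = (-Complex.I / 2 : ℂ) • (M - M.map (starRingEnd ℂ)) := by
      ext i j
      change ((M i j).im : ℂ) = (-Complex.I / 2 : ℂ) * (M i j - (starRingEnd ℂ) (M i j))
      rw [Complex.sub_conj]
      push_cast
      linear_combination ((M i j).im : ℂ) * Complex.I_sq
    have hac : M = cx a + Complex.I • cx c := by
      ext i j
      change M i j = ((M i j).re : ℂ) + Complex.I * ((M i j).im : ℂ)
      rw [mul_comm]
      exact (Complex.re_add_im (M i j)).symm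
    have hag : a ∈ gR g := by
      rw [mem_gR, ha]
      exact g.smul_mem _ (g.add_mem hM hcM)
    have hcg : c ∈ gR g := by
      rw [mem_gR, hc]
      exact g.smul_mem _ (g.sub_mem hM hcM)
    have hcM' : ∀ y ∈ t₀, M.map (starRingEnd ℂ) * cx y = cx y * M.map (starRingEnd ℂ) := by
      intro y hy
      have h1 : (M * cx y).map (starRingEnd ℂ) = (cx y * M).map (starRingEnd ℂ) := by
        rw [hcomm' y hy]
      have h2 : (cx y).map (starRingEnd ℂ) = cx y := by
        ext i j
        exact Complex.conj_ofReal _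
      rw [Matrix.map_mul, Matrix.map_mul, h2] at h1
      exact h1
    refine ⟨a, hmax a hag fun y hy => cx_inj ?_, c, hmax c hcg fun y hy => cx_inj ?_, hac⟩
    · rw [map_mul, map_mul, ha, smul_mul_assoc, mul_smul_comm, add_mul, mul_add, hcomm' y hy,
        hcM' y hy]
    · rw [map_mul, map_mul, hc, smul_mul_assoc, mul_smul_comm, sub_mul, mul_sub, hcomm' y hy,
        hcM' y hy]
  let t : Submodule ℂ (Matrix ι ι ℂ) :=
    { carrier := {x | x ∈ g ∧ x * Qc = Qc * x}
      add_mem' := fun {x y} hx hy => ⟨g.add_mem hx.1 hy.1, by rw [add_mul, mul_add, hx.2, hy.2]⟩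
      zero_mem' := ⟨g.zero_mem, by rw [zero_mul, mul_zero]⟩
      smul_mem' := fun c x hx => ⟨g.smul_mem c hx.1, by
        rw [smul_mul_assoc, mul_smul_comm, hx.2]⟩ }
  have hmemt : ∀ x, x ∈ t ↔ x ∈ g ∧ x * Qc = Qc * x := fun x => Iff.rfl
  have hback : ∀ x : Matrix ι ι ℂ, U * (U' * x * U) * U' = x := by
    intro x
    calc U * (U' * x * U) * U' = (U * U') * x * (U * U') := by simp only [mul_assoc]
      _ = x := by rw [hUU', one_mul, mul_one]
  have hdec : ∀ x ∈ t, ∃ a ∈ t₀, ∃ c ∈ t₀, U' * x * U = cx a + Complex.I • cx c := by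
    intro x hx
    refine hre _ (hconjU' x hx.1) ?_
    have h1 : U' * (U * cx h * U') * U = cx h := by
      calc U' * (U * cx h * U') * U = (U' * U) * cx h * (U' * U) := by simp only [mul_assoc]
        _ = cx h := by rw [hU'U, one_mul, mul_one]
    have h2 : U' * (x * Qc) * U = (U' * x * U) * cx h := by
      rw [hQU]
      calc U' * (x * (U * cx h * U')) * U = U' * x * U * cx h * (U' * U) := by
            simp only [mul_assoc]
        _ = _ := by rw [hU'U, mul_one]
    have h3 : U' * (Qc * x) * U = cx h * (U' * x * U) := by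
      rw [hQU]
      calc U' * (U * cx h * U' * x) * U = (U' * U) * cx h * U' * x * U := by
            simp only [mul_assoc]
        _ = cx h * (U' * x * U) := by
            rw [hU'U, one_mul]
            simp only [mul_assoc]
    rw [← h2, ← h3, hx.2]
  have hcomm2 : ∀ a ∈ t₀, ∀ c ∈ t₀, cx a * cx c = cx c * cx a := by
    intro a ha c hc
    rw [← map_mul, ← map_mul, hcomm a ha c hc]
  refine ⟨t, fun x hx => hx.1, ?_, ?_, ?_, ?_, ?_⟩
  · intro x hx y hy
    obtain ⟨a, ha, c, hc, hac⟩ := hdec x hx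
    obtain ⟨a', ha', c', hc', hac'⟩ := hdec y hy
    have h1 : (U' * x * U) * (U' * y * U) = (U' * y * U) * (U' * x * U) := by
      rw [hac, hac']
      simp only [add_mul, mul_add, smul_mul_assoc, mul_smul_comm]
      rw [hcomm2 a ha a' ha', hcomm2 c hc a' ha', hcomm2 a ha c' hc', hcomm2 c hc c' hc']
      module
    have h2 : x * y = U * ((U' * x * U) * (U' * y * U)) * U' := by
      calc x * y = (U * U') * x * (U * U') * y * (U * U') := by
            rw [hUU', one_mul, mul_one, mul_one]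
        _ = _ := by simp only [mul_assoc]
    have h3 : y * x = U * ((U' * y * U) * (U' * x * U)) * U' := by
      calc y * x = (U * U') * y * (U * U') * x * (U * U') := by
            rw [hUU', one_mul, mul_one, mul_one]
        _ = _ := by simp only [mul_assoc]
    rw [h2, h3, h1]
  · intro x hx hxt
    exact ⟨hx, hxt Qc ⟨hQ, rfl⟩⟩
  · intro σ x hx
    refine ⟨D.conj σ x hx.1, ?_⟩
    have h1 : (x * Qc).map σ = (Qc * x).map σ := by rw [hx.2]
    have h2 : Qc.map σ = Qc := by
      ext i j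
      change σ (Q i j : ℂ) = (Q i j : ℂ)
      exact map_ratCast σ _
    rw [Matrix.map_mul, Matrix.map_mul, h2] at h1
    exact h1
  · let eU : (ι → ℂ) ≃ₗ[ℂ] (ι → ℂ) := LinearEquiv.ofLinearMap (Matrix.toLin' U) (Matrix.toLin' U')
      (by rw [← Matrix.toLin'_mul, hUU', Matrix.toLin'_one])
      (by rw [← Matrix.toLin'_mul, hU'U, Matrix.toLin'_one])
    refine ⟨v.map eU, fun x hx i => ?_⟩
    obtain ⟨a, ha, c, hc, hac⟩ := hdec x hx
    obtain ⟨ca, hca⟩ := hv a ha i
    obtain ⟨cc, hcc⟩ := hv c hc i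
    refine ⟨ca + Complex.I * cc, ?_⟩
    rw [Basis.map_apply]
    have h0 : ∀ w, eU w = Matrix.toLin' U w := fun w => rfl
    rw [h0]
    have h1 : x * U = U * (U' * x * U) := by
      calc x * U = (U * U') * x * U := by rw [hUU', one_mul]
        _ = _ := by simp only [mul_assoc]
    have h2 : Matrix.toLin' x (Matrix.toLin' U (v i)) = Matrix.toLin' (x * U) (v i) := by
      rw [Matrix.toLin'_mul, LinearMap.comp_apply]
    rw [h2, h1, Matrix.toLin'_mul, LinearMap.comp_apply, hac, map_add, map_smul,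
      LinearMap.add_apply, LinearMap.smul_apply]
    have hca' : Matrix.toLin' (cx a) (v i) = ca • v i := hca
    have hcc' : Matrix.toLin' (cx c) (v i) = cc • v i := hcc
    rw [hca', hcc', smul_smul, ← add_smul, map_smul]
  · have hhp : hp J ∈ g := by
      rw [hp]
      exact g.smul_mem _ (g.sub_mem D.one (g.smul_mem _ D.Jg))
    have hJJ : cx J * cx J = -1 := by
      rw [← map_mul, D.JJ, map_neg, map_one]
    have hhp' : hp J = (1 / 2 : ℂ) • (1 - Complex.I • cx J) := rfl
    have hhh : hp J * hp J = hp J := by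
      rw [hhp', smul_mul_smul_comm, sub_mul, mul_sub, mul_sub, one_mul, one_mul, mul_one,
        smul_mul_smul_comm, hJJ, Complex.I_mul_I]
      module
    refine ⟨U * hp J * U', ⟨hconjU _ hhp, ?_⟩, ?_, ?_⟩
    · have h1 : hp J * cx h = cx h * hp J := by
        rw [hhp', smul_mul_assoc, mul_smul_comm, sub_mul, mul_sub, one_mul, mul_one,
          smul_mul_assoc, mul_smul_comm, hcomm2 J hJ h hh]
      rw [hQU]
      calc U * hp J * U' * (U * cx h * U') = U * hp J * (U' * U) * cx h * U' := by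
            simp only [mul_assoc]
        _ = U * (hp J * cx h) * U' := by rw [hU'U, mul_one]; simp only [mul_assoc]
        _ = U * (cx h * hp J) * U' := by rw [h1]
        _ = U * cx h * (U' * U) * hp J * U' := by rw [hU'U, mul_one]; simp only [mul_assoc]
        _ = _ := by simp only [mul_assoc]
    · calc U * hp J * U' * (U * hp J * U') = U * hp J * (U' * U) * hp J * U' := by
            simp only [mul_assoc]
        _ = U * (hp J * hp J) * U' := by rw [hU'U, mul_one]; simp only [mul_assoc]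
        _ = _ := by rw [hhh]
    · intro Z hZ
      have h1 : Commute z' Z := hZ z' hz'g
      have h2 : U' * Z = Z * U' := by
        open scoped Matrix.Norms.Operator in
        exact (h1.neg_left.exp_left)
      calc (U * hp J * U' * Z).trace = (U * hp J * (U' * Z)).trace := by rw [mul_assoc]
        _ = (U * (hp J * Z * U')).trace := by
            rw [h2]
            simp only [mul_assoc]
        _ = (hp J * Z * U' * U).trace := Matrix.trace_mul_comm _ _
        _ = (hp J * Z).trace := by rw [mul_assoc (hp J * Z), hU'U, mul_one]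

end Pool.Agent.CoprimeSig
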