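import Pool.Agent.CoprimeSig.Defs

/-!
# The Weyl group element of a pair of opposite root vectors
-/

set_option autoImplicit false

namespace Pool.Agent.CoprimeSig

open Module

variable {K H : Type*} [Field K] [AddCommGroup H] [Module K H]
  {g t : Submodule K (End K H)}

theorem wl_eq {x y : End K H} (hxx : x * x = 0) (hxyx : x * y * x = x) :
    wl x y = 1 + x - y - x * y - y * x := by
  have h1 : wl x y = 1 + x - y - x * y - y * x + (x + x * x - x * y * x) := by
    simp only [wl]
    noncomm_ring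
  rw [h1, hxx, hxyx]
  abel

theorem wlInv_eq {x y : End K H} (hxx : x * x = 0) (hxyx : x * y * x = x) :
    wlInv x y = 1 - x + y - x * y - y * x := by
  have h1 : wlInv x y = 1 - x + y - x * y - y * x + (x * x - x + x * y * x) := by
    simp only [wlInv]
    noncomm_ring
  rw [h1, hxx, hxyx]
  abel

theorem wlInv_eq_wl_neg {x y : End K H} : wlInv x y = wl (-x) (-y) := by
  simp only [wl, wlInv, sub_eq_add_neg, neg_neg]

theorem wl_mul_aux {x y : End K H} (hxx : x * x = 0) (hyy : y * y = 0)
    (hxyx : x * y * x = x) (hyxy : y * x * y = y) :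
    wl x y * wlInv x y = 1 := by
  have h1 : x * (x * y) = 0 := by rw [← mul_assoc, hxx, zero_mul]
  have h2 : x * (y * x) = x := by rw [← mul_assoc, hxyx]
  have h3 : y * (y * x) = 0 := by rw [← mul_assoc, hyy, zero_mul]
  have h4 : y * (x * y) = y := by rw [← mul_assoc, hyxy]
  have h5 : x * y * y = 0 := by rw [mul_assoc, hyy, mul_zero]
  have h6 : y * x * x = 0 := by rw [mul_assoc, hxx, mul_zero]
  have h7 : x * y * (x * y) = x * y := by rw [← mul_assoc, hxyx]
  have h8 : y * x * (y * x) = y * x := by rw [← mul_assoc, hyxy]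
  have h9 : x * y * (y * x) = 0 := by rw [← mul_assoc, h5, zero_mul]
  have h10 : y * x * (x * y) = 0 := by rw [← mul_assoc, h6, zero_mul]
  rw [wl_eq hxx hxyx, wlInv_eq hxx hxyx]
  simp only [mul_add, mul_sub, add_mul, sub_mul, one_mul, mul_one, hxx, hyy, h1, h2, h3, h4, h5,
    h6, h7, h8, h9, h10, hxyx, hyxy]
  abel

/-- Conjugation by the Weyl group element on an element for which `x` and `y` are opposite
eigenvectors. -/
theorem mul_wl {x y z : End K H} {a : K} (hxx : x * x = 0) (hyy : y * y = 0)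
    (hxyx : x * y * x = x) (hyxy : y * x * y = y) (hx : z * x - x * z = a • x)
    (hy : z * y - y * z = (-a) • y) :
    (z - a • (x * y - y * x)) * wl x y = wl x y * z := by
  have hx' : z * x = x * z + a • x := by rw [← hx]; abel
  have hy' : z * y = y * z - a • y := by
    have h1 : z * y = y * z + (z * y - y * z) := by abel
    rw [h1, hy, neg_smul]
    abel
  have h1 : z * (x * y) = x * y * z := by
    rw [← mul_assoc, hx', add_mul, mul_assoc, hy', mul_sub, smul_mul_assoc, mul_smul_comm,
      mul_assoc]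
    abel
  have h2 : z * (y * x) = y * x * z := by
    rw [← mul_assoc, hy', sub_mul, mul_assoc, hx', mul_add, smul_mul_assoc, mul_smul_comm,
      mul_assoc]
    abel
  have h3 : (x * y - y * x) * wl x y = x + y := by
    have k5 : x * y * y = 0 := by rw [mul_assoc, hyy, mul_zero]
    have k6 : y * x * x = 0 := by rw [mul_assoc, hxx, mul_zero]
    have k7 : x * y * (x * y) = x * y := by rw [← mul_assoc, hxyx]
    have k8 : y * x * (y * x) = y * x := by rw [← mul_assoc, hyxy]
    have k9 : x * y * (y * x) = 0 := by rw [← mul_assoc, k5, zero_mul]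
    have k10 : y * x * (x * y) = 0 := by rw [← mul_assoc, k6, zero_mul]
    rw [wl_eq hxx hxyx]
    simp only [mul_add, mul_sub, sub_mul, mul_one, hxyx, hyxy, k5, k6, k7, k8, k9, k10]
    abel
  rw [sub_mul, smul_mul_assoc, h3, wl_eq hxx hxyx]
  simp only [mul_add, mul_sub, add_mul, sub_mul, mul_one, one_mul, hx', hy', h1, h2,
    smul_add]
  abel

/-- The Weyl group element acts on `t` by `τ ↦ τ - α(τ) h`. -/
theorem wl_mul_inv {α : End K H → K} {x y : End K H} (P : Opp g t α x y) :
    wl x y * wlInv x y = 1 ∧ wlInv x y * wl x y = 1 ∧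
    (∀ τ ∈ t, wl x y * τ * wlInv x y = τ - α τ • (x * y - y * x)) ∧
    ∀ τ ∈ t, wlInv x y * τ * wl x y = τ - α τ • (x * y - y * x) := by
  have hxx' : -x * -x = 0 := by rw [neg_mul_neg, P.xx]
  have hyy' : -y * -y = 0 := by rw [neg_mul_neg, P.yy]
  have hxyx' : -x * -y * -x = -x := by rw [neg_mul_neg, mul_neg, P.xyx]
  have hyxy' : -y * -x * -y = -y := by rw [neg_mul_neg, mul_neg, P.yxy]
  have h1 : wl x y * wlInv x y = 1 := wl_mul_aux P.xx P.yy P.xyx P.yxy
  have h2 : wlInv x y * wl x y = 1 := by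
    have h3 := wl_mul_aux hxx' hyy' hxyx' hyxy'
    rwa [wlInv_eq_wl_neg, neg_neg, neg_neg, ← wlInv_eq_wl_neg] at h3
  refine ⟨h1, h2, fun τ hτ => ?_, fun τ hτ => ?_⟩
  · rw [← mul_wl P.xx P.yy P.xyx P.yxy (P.rx.root τ hτ) (P.ry.root τ hτ), mul_assoc, h1, mul_one]
  · have hx : τ * -x - -x * τ = α τ • -x := by
      rw [mul_neg, neg_mul, smul_neg, ← P.rx.root τ hτ]
      abel
    have hy : τ * -y - -y * τ = (-α τ) • -y := by
      rw [mul_neg, neg_mul, smul_neg, ← P.ry.root τ hτ]
      abel
    have h3 := mul_wl hxx' hyy' hxyx' hyxy' hx hy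
    rw [← wlInv_eq_wl_neg, neg_mul_neg, neg_mul_neg] at h3
    rw [← h3, mul_assoc, h2, mul_one]

end Pool.Agent.CoprimeSig
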